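import Pool.Agent.Helper67.DO.StmtsD

/-!
# Shared lemmas: algebra of level cochains, functionals, wedges, continuity of the simplex data
-/

namespace Pool.Agent.Helper67.DO

open scoped BigOperators Real
open MeasureTheory

noncomputable section

/-! ### level cochains -/

theorem LC.mono {n m p : ℕ} {C : Sq → ℂ} (hs : AA n ⊆ AA m) (h : LC m p C) : LC n p C := by
  refine ⟨h.dep, ?_, ?_, ?_⟩
  · intro ε hε
    obtain ⟨δ, hδ, H⟩ := h.uc ε hε
    exact ⟨δ, hδ, fun y y' hy hy' hc => H y y' (fun k => hs (hy k)) (fun k => hs (hy' k)) hc⟩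
  · exact fun y t hy => h.zinv y t (fun k => hs (hy k))
  · exact fun y g hg hy hyg => h.rinv y g hg (fun k => hs (hy k)) (fun k => hs (hyg k))

theorem LC.add {n p : ℕ} {C D : Sq → ℂ} (hC : LC n p C) (hD : LC n p D) : LC n p (fun y => C y + D y) := by
  refine ⟨?_, ?_, ?_, ?_⟩
  · intro y y' h
    show C y + D y = C y' + D y'
    rw [hC.dep y y' h, hD.dep y y' h]
  · intro ε hε
    obtain ⟨δ, hδ, H⟩ := hC.uc (ε / 2) (by linarith)
    obtain ⟨δ', hδ', H'⟩ := hD.uc (ε / 2) (by linarith)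
    refine ⟨min δ δ', lt_min hδ hδ', fun y y' hy hy' hc => ?_⟩
    have a1 := H y y' hy hy' (fun k hk x => (hc k hk x).trans (min_le_left _ _))
    have a2 := H' y y' hy hy' (fun k hk x => (hc k hk x).trans (min_le_right _ _))
    calc ‖C y + D y - (C y' + D y')‖ = ‖(C y - C y') + (D y - D y')‖ := by congr 1; ring
      _ ≤ ‖C y - C y'‖ + ‖D y - D y'‖ := norm_add_le _ _
      _ ≤ ε := by linarith
  · intro y t hy
    show C _ + D _ = C y + D y
    rw [hC.zinv y t hy, hD.zinv y t hy]
  · intro y g hg hy hyg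
    show C _ + D _ = C y + D y
    rw [hC.rinv y g hg hy hyg, hD.rinv y g hg hy hyg]

theorem LC.smul {n p : ℕ} {C : Sq → ℂ} (c : ℂ) (hC : LC n p C) : LC n p (fun y => c * C y) := by
  refine ⟨?_, ?_, ?_, ?_⟩
  · intro y y' h
    show c * C y = c * C y'
    rw [hC.dep y y' h]
  · intro ε hε
    obtain ⟨δ, hδ, H⟩ := hC.uc (ε / (‖c‖ + 1)) (by positivity)
    refine ⟨δ, hδ, fun y y' hy hy' hc => ?_⟩
    have a1 := H y y' hy hy' hc
    have e : c * C y - c * C y' = c * (C y - C y') := by ring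
    show ‖c * C y - c * C y'‖ ≤ ε
    rw [e, norm_mul]
    have hc0 : 0 ≤ ‖c‖ := norm_nonneg c
    calc ‖c‖ * ‖C y - C y'‖ ≤ ‖c‖ * (ε / (‖c‖ + 1)) := mul_le_mul_of_nonneg_left a1 hc0
      _ = ε * (‖c‖ / (‖c‖ + 1)) := by ring
      _ ≤ ε * 1 := by
        apply mul_le_mul_of_nonneg_left _ hε.le
        rw [div_le_one (by positivity)]
        linarith
      _ = ε := mul_one ε
  · intro y t hy
    show c * C _ = c * C y
    rw [hC.zinv y t hy]
  · intro y g hg hy hyg
    show c * C _ = c * C y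
    rw [hC.rinv y g hg hy hyg]

theorem dlt_add (p : ℕ) (C D : Sq → ℂ) (y : Sq) : dlt p (fun y => C y + D y) y = dlt p C y + dlt p D y := by
  unfold dlt
  rw [← Finset.sum_add_distrib]
  exact Finset.sum_congr rfl fun i _ => mul_add _ _ _

theorem dlt_smul (p : ℕ) (c : ℂ) (C : Sq → ℂ) (y : Sq) : dlt p (fun y => c * C y) y = c * dlt p C y := by
  unfold dlt
  rw [Finset.mul_sum]
  exact Finset.sum_congr rfl fun i _ => by ring

theorem rm_mem {n i : ℕ} {y : Sq} (hy : ∀ k, y k ∈ AA n) (k : ℕ) : rm i y k ∈ AA n := by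
  unfold rm
  split_ifs
  · exact hy _
  · exact hy _

/-- `dlt` only sees the values of `C` on sequences in `AA n` -/
theorem dlt_congr {n p : ℕ} {C D : Sq → ℂ} (h : ∀ y : Sq, (∀ k, y k ∈ AA n) → C y = D y) {y : Sq}
    (hy : ∀ k, y k ∈ AA n) : dlt p C y = dlt p D y := by
  unfold dlt
  exact Finset.sum_congr rfl fun i _ => by rw [h _ (rm_mem hy)]

/-! ### functionals -/

theorem St_mono {s t : ℝ} (h : s ≤ t) : St s ⊆ St t := fun _ hz => lt_of_lt_of_le hz h

theorem isOpen_St (s : ℝ) : IsOpen (St s) := isOpen_lt (continuous_abs.comp Complex.continuous_im) continuous_const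

theorem PU_mono {q : ℕ} {U V : Set ℂ} (h : U ⊆ V) : PU q U ⊆ PU q V := fun _ hz i => h (hz i)

theorem isOpen_PU (q : ℕ) {U : Set ℂ} (h : IsOpen U) : IsOpen (PU q U) := by
  have : PU q U = ⋂ i, (fun z : Fin q → ℂ => z i) ⁻¹' U := by
    ext z
    simp [PU]
  rw [this]
  exact isOpen_iInter_of_finite fun i => h.preimage (continuous_apply i)

theorem BO.mono {q : ℕ} {U V : Set ℂ} {F : (Fin q → ℂ) → ℂ} (h : BO q V F) (hUV : U ⊆ V) : BO q U F where
  hol := h.hol.mono (PU_mono hUV)
  per z hz i := h.per z (PU_mono hUV hz) i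
  alt z hz σ := h.alt z (PU_mono hUV hz) σ
  bdd := by
    obtain ⟨C, hC⟩ := h.bdd
    exact ⟨C, fun z hz => hC z (PU_mono hUV hz)⟩

theorem BO.add {q : ℕ} {U : Set ℂ} {F G : (Fin q → ℂ) → ℂ} (hF : BO q U F) (hG : BO q U G) :
    BO q U (fun z => F z + G z) where
  hol := hF.hol.add hG.hol
  per z hz i := by
    show F _ + G _ = F z + G z
    rw [hF.per z hz i, hG.per z hz i]
  alt z hz σ := by
    show F _ + G _ = _ * (F z + G z)
    rw [hF.alt z hz σ, hG.alt z hz σ, mul_add]
  bdd := by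
    obtain ⟨C, hC⟩ := hF.bdd
    obtain ⟨D, hD⟩ := hG.bdd
    exact ⟨C + D, fun z hz => (norm_add_le _ _).trans (add_le_add (hC z hz) (hD z hz))⟩

theorem BO.smul {q : ℕ} {U : Set ℂ} {F : (Fin q → ℂ) → ℂ} (c : ℂ) (hF : BO q U F) :
    BO q U (fun z => c * F z) where
  hol := hF.hol.const_mul c
  per z hz i := by
    show c * F _ = c * F z
    rw [hF.per z hz i]
  alt z hz σ := by
    show c * F _ = _ * (c * F z)
    rw [hF.alt z hz σ]
    ring
  bdd := by
    obtain ⟨C, hC⟩ := hF.bdd
    refine ⟨‖c‖ * C, fun z hz => ?_⟩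
    rw [norm_mul]
    exact mul_le_mul_of_nonneg_left (hC z hz) (norm_nonneg c)

theorem BO.zero (q : ℕ) (U : Set ℂ) : BO q U (fun _ => 0) where
  hol := differentiableOn_const 0
  per _ _ _ := rfl
  alt _ _ _ := by simp
  bdd := ⟨0, fun _ _ => by simp⟩

theorem BO.sub {q : ℕ} {U : Set ℂ} {F G : (Fin q → ℂ) → ℂ} (hF : BO q U F) (hG : BO q U G) :
    BO q U (fun z => F z - G z) := by
  have h := hF.add (hG.smul (-1))
  have e : (fun z => F z - G z) = fun z => F z + -1 * G z := by
    funext z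
    ring
  rw [e]
  exact h

theorem BO.sum {ι : Type*} {q : ℕ} {U : Set ℂ} (S : Finset ι) (F : ι → (Fin q → ℂ) → ℂ)
    (hF : ∀ i ∈ S, BO q U (F i)) : BO q U (fun z => ∑ i ∈ S, F i z) := by
  classical
  induction S using Finset.induction_on with
  | empty => simpa using BO.zero q U
  | insert a S ha ih =>
    have h := (hF a (Finset.mem_insert_self a S)).add (ih fun i hi => hF i (Finset.mem_insert_of_mem hi))
    have e : (fun z => ∑ i ∈ insert a S, F i z) = fun z => F a z + ∑ i ∈ S, F i z := by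
      funext z
      rw [Finset.sum_insert ha]
    rw [e]
    exact h

/-- functions that agree on `U` -/
theorem BO.congr {q : ℕ} {U : Set ℂ} {F G : (Fin q → ℂ) → ℂ} (hF : BO q U F) (h : ∀ z ∈ PU q U, G z = F z)
    (hper : ∀ z ∈ U, z + 1 ∈ U) : BO q U G where
  hol := hF.hol.congr h
  per z hz i := by
    have hz' : Function.update z i (z i + 1) ∈ PU q U := by
      intro j
      by_cases hj : j = i
      · subst hj
        simpa using hper _ (hz j)
      · rw [Function.update_of_ne hj]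
        exact hz j
    rw [h _ hz', h z hz, hF.per z hz i]
  alt z hz σ := by
    have hz' : (fun i => z (σ i)) ∈ PU q U := fun i => hz (σ i)
    rw [h _ hz', h z hz, hF.alt z hz σ]
  bdd := by
    obtain ⟨C, hC⟩ := hF.bdd
    exact ⟨C, fun z hz => by rw [h z hz]; exact hC z hz⟩

theorem Fnl.zero' {q : ℕ} {U : Set ℂ} {α : ((Fin q → ℂ) → ℂ) → ℂ} (h : Fnl q U α) : α (fun _ => 0) = 0 := by
  have := h.smul 0 (fun _ => 0) (BO.zero q U)
  simpa using this

theorem Fnl.sub' {q : ℕ} {U : Set ℂ} {α : ((Fin q → ℂ) → ℂ) → ℂ} (h : Fnl q U α) {F G : (Fin q → ℂ) → ℂ}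
    (hF : BO q U F) (hG : BO q U G) : α (fun z => F z - G z) = α F - α G := by
  have e : (fun z => F z - G z) = fun z => F z + -1 * G z := by
    funext z
    ring
  rw [e, h.add F (fun z => -1 * G z) hF (hG.smul _), h.smul _ G hG]
  ring

theorem Fnl.sum' {ι : Type*} {q : ℕ} {U : Set ℂ} {α : ((Fin q → ℂ) → ℂ) → ℂ} (h : Fnl q U α) (S : Finset ι)
    (F : ι → (Fin q → ℂ) → ℂ) (hF : ∀ i ∈ S, BO q U (F i)) :
    α (fun z => ∑ i ∈ S, F i z) = ∑ i ∈ S, α (F i) := by
  classical
  induction S using Finset.induction_on with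
  | empty => simpa using h.zero'
  | insert a S ha ih =>
    have e : (fun z => ∑ i ∈ insert a S, F i z) = fun z => F a z + ∑ i ∈ S, F i z := by
      funext z
      rw [Finset.sum_insert ha]
    rw [e, h.add (F a) _ (hF a (Finset.mem_insert_self a S)) (BO.sum S F fun i hi => hF i (Finset.mem_insert_of_mem hi)),
      ih fun i hi => hF i (Finset.mem_insert_of_mem hi), Finset.sum_insert ha]

/-- a bounded functional does not see the values outside `U` -/
theorem Fnl.ext' {q : ℕ} {U : Set ℂ} {α : ((Fin q → ℂ) → ℂ) → ℂ} (h : Fnl q U α) {F G : (Fin q → ℂ) → ℂ}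
    (hF : BO q U F) (hG : BO q U G) (hFG : ∀ z ∈ PU q U, F z = G z) : α F = α G := by
  obtain ⟨C, hC, H⟩ := h.bdd
  have h1 := H _ (hF.sub hG) 0 (fun z hz => by simp [hFG z hz]) le_rfl
  rw [h.sub' hF hG, mul_zero] at h1
  have := norm_le_zero_iff.1 h1
  exact sub_eq_zero.1 this

theorem Fnl.mono' {q : ℕ} {U V : Set ℂ} {α : ((Fin q → ℂ) → ℂ) → ℂ} (h : Fnl q U α) (hUV : U ⊆ V) : Fnl q V α where
  add F G hF hG := h.add F G (hF.mono hUV) (hG.mono hUV)
  smul c F hF := h.smul c F (hF.mono hUV)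
  bdd := by
    obtain ⟨C, hC, H⟩ := h.bdd
    exact ⟨C, hC, fun F hF M hM hM0 => H F (hF.mono hUV) M (fun z hz => hM z (PU_mono hUV hz)) hM0⟩

theorem Fnl.addF {q : ℕ} {U : Set ℂ} {α β : ((Fin q → ℂ) → ℂ) → ℂ} (h : Fnl q U α) (k : Fnl q U β) :
    Fnl q U (fun F => α F + β F) where
  add F G hF hG := by
    show α _ + β _ = α F + β F + (α G + β G)
    rw [h.add F G hF hG, k.add F G hF hG]
    ring
  smul c F hF := by
    show α _ + β _ = c * (α F + β F)
    rw [h.smul c F hF, k.smul c F hF]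
    ring
  bdd := by
    obtain ⟨C, hC, H⟩ := h.bdd
    obtain ⟨D, hD, K⟩ := k.bdd
    refine ⟨C + D, add_nonneg hC hD, fun F hF M hM hM0 => ?_⟩
    calc ‖α F + β F‖ ≤ ‖α F‖ + ‖β F‖ := norm_add_le _ _
      _ ≤ C * M + D * M := add_le_add (H F hF M hM hM0) (K F hF M hM hM0)
      _ = (C + D) * M := by ring

theorem Fnl.smulF {q : ℕ} {U : Set ℂ} {α : ((Fin q → ℂ) → ℂ) → ℂ} (c : ℂ) (h : Fnl q U α) :
    Fnl q U (fun F => c * α F) where
  add F G hF hG := by
    show c * α _ = c * α F + c * α G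
    rw [h.add F G hF hG]
    ring
  smul d F hF := by
    show c * α _ = d * (c * α F)
    rw [h.smul d F hF]
    ring
  bdd := by
    obtain ⟨C, hC, H⟩ := h.bdd
    refine ⟨‖c‖ * C, mul_nonneg (norm_nonneg c) hC, fun F hF M hM hM0 => ?_⟩
    rw [norm_mul, mul_assoc]
    exact mul_le_mul_of_nonneg_left (H F hF M hM hM0) (norm_nonneg c)

theorem Fnl.subF {q : ℕ} {U : Set ℂ} {α β : ((Fin q → ℂ) → ℂ) → ℂ} (h : Fnl q U α) (k : Fnl q U β) :
    Fnl q U (fun F => α F - β F) := by
  have e : (fun F => α F - β F) = fun F => α F + -1 * β F := by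
    funext F
    ring
  rw [e]
  exact h.addF (k.smulF (-1))

theorem Fnl.zeroF (q : ℕ) (U : Set ℂ) : Fnl q U (fun _ => 0) where
  add _ _ _ _ := by simp
  smul _ _ _ := by simp
  bdd := ⟨0, le_rfl, fun _ _ _ _ _ => by simp⟩

/-! ### wedges of vector fields -/

theorem diffOn_prod {ι E : Type*} [NormedAddCommGroup E] [NormedSpace ℂ E] (S : Finset ι) {f : ι → E → ℂ} {U : Set E}
    (h : ∀ i ∈ S, DifferentiableOn ℂ (f i) U) : DifferentiableOn ℂ (fun z => ∏ i ∈ S, f i z) U := by
  classical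
  induction S using Finset.induction_on with
  | empty => simp
  | insert a S ha ih =>
    have e : (fun z => ∏ i ∈ insert a S, f i z) = fun z => f a z * ∏ i ∈ S, f i z := by
      funext z
      rw [Finset.prod_insert ha]
    rw [e]
    exact (h a (Finset.mem_insert_self a S)).mul (ih fun i hi => h i (Finset.mem_insert_of_mem hi))

theorem WW_hol {q : ℕ} {U : Set ℂ} {v : Fin q → ℂ → ℂ} (hv : ∀ i, DifferentiableOn ℂ (v i) U) :
    DifferentiableOn ℂ (WW v) (PU q U) := by
  have e : WW v = fun z => ∑ σ : Equiv.Perm (Fin q), ((Equiv.Perm.sign σ : ℤ) : ℂ) * ∏ i, v (σ i) (z i) := by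
    funext z
    unfold WW
    rw [Matrix.det_apply']
    rfl
  rw [e]
  refine DifferentiableOn.fun_sum fun σ _ => ?_
  refine DifferentiableOn.const_mul ?_ _
  have h1 : ∀ i ∈ (Finset.univ : Finset (Fin q)), DifferentiableOn ℂ (fun z : Fin q → ℂ => v (σ i) (z i)) (PU q U) :=
    fun i _ => (hv (σ i)).comp (f := fun z : Fin q → ℂ => z i) (differentiable_apply i).differentiableOn fun z hz => hz i
  exact diffOn_prod Finset.univ h1

theorem WW_norm {q : ℕ} {v : Fin q → ℂ → ℂ} {z : Fin q → ℂ} {R : ℝ} (h : ∀ i j, ‖v i (z j)‖ ≤ R) :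
    ‖WW v z‖ ≤ (q.factorial : ℝ) * R ^ q := by
  unfold WW
  rw [Matrix.det_apply']
  calc ‖∑ σ : Equiv.Perm (Fin q), ((Equiv.Perm.sign σ : ℤ) : ℂ) * ∏ i, Matrix.of (fun i j => v i (z j)) (σ i) i‖
      ≤ ∑ σ : Equiv.Perm (Fin q), ‖((Equiv.Perm.sign σ : ℤ) : ℂ) * ∏ i, Matrix.of (fun i j => v i (z j)) (σ i) i‖ :=
        norm_sum_le _ _
    _ ≤ ∑ σ : Equiv.Perm (Fin q), R ^ q := by
        refine Finset.sum_le_sum fun σ _ => ?_
        rw [norm_mul, norm_prod]
        have h1 : ‖((Equiv.Perm.sign σ : ℤ) : ℂ)‖ = 1 := by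
          rcases Int.units_eq_one_or (Equiv.Perm.sign σ) with h | h <;> rw [h] <;> simp
        rw [h1, one_mul]
        calc ∏ i, ‖Matrix.of (fun i j => v i (z j)) (σ i) i‖ ≤ ∏ _i : Fin q, R :=
              Finset.prod_le_prod (fun _ _ => norm_nonneg _) fun i _ => h (σ i) i
          _ = R ^ q := by simp
    _ = (q.factorial : ℝ) * R ^ q := by
        rw [Finset.sum_const, nsmul_eq_mul, Finset.card_univ, Fintype.card_perm, Fintype.card_fin]

theorem WW_BO {q : ℕ} {U : Set ℂ} {v : Fin q → ℂ → ℂ} {R : ℝ} (hv : ∀ i, DifferentiableOn ℂ (v i) U)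
    (hp : ∀ i, ∀ z ∈ U, v i (z + 1) = v i z) (hb : ∀ i, ∀ z ∈ U, ‖v i z‖ ≤ R) : BO q U (WW v) where
  hol := WW_hol hv
  per z hz i := by
    unfold WW
    congr 1
    ext a b
    simp only [Matrix.of_apply]
    by_cases hb : b = i
    · subst hb
      rw [Function.update_self, hp a _ (hz b)]
    · rw [Function.update_of_ne hb]
  alt z _ σ := by
    unfold WW
    exact Matrix.det_permute' σ (Matrix.of fun i j => v i (z j))
  bdd := ⟨_, fun z hz => WW_norm fun i j => hb i (z j) (hz j)⟩

/-- wedges depend uniformly continuously on the vector fields -/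
theorem WW_uc (q : ℕ) (R ε : ℝ) (hε : 0 < ε) : ∃ δ : ℝ, 0 < δ ∧ ∀ (v v' : Fin q → ℂ → ℂ) (z : Fin q → ℂ),
    (∀ i j, ‖v i (z j)‖ ≤ R) → (∀ i j, ‖v' i (z j)‖ ≤ R) → (∀ i j, ‖v i (z j) - v' i (z j)‖ ≤ δ) →
    ‖WW v z - WW v' z‖ ≤ ε := by
  have hc : Continuous fun A : Fin q → Fin q → ℂ => Matrix.det (Matrix.of A) :=
    Continuous.matrix_det continuous_id
  have hK : IsCompact (Set.univ.pi fun _ : Fin q => Set.univ.pi fun _ : Fin q => Metric.closedBall (0 : ℂ) R) :=
    isCompact_univ_pi fun _ => isCompact_univ_pi fun _ => isCompact_closedBall _ _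
  have hu := hK.uniformContinuousOn_of_continuous hc.continuousOn
  rw [Metric.uniformContinuousOn_iff_le] at hu
  obtain ⟨δ, hδ, H⟩ := hu ε hε
  refine ⟨δ, hδ, fun v v' z hv hv' hd => ?_⟩
  have h1 := H (fun i j => v i (z j)) (fun i _ j _ => by simpa using hv i j) (fun i j => v' i (z j))
    (fun i _ j _ => by simpa using hv' i j) (by
      rw [dist_pi_le_iff hδ.le]
      intro i
      rw [dist_pi_le_iff hδ.le]
      intro j
      rw [dist_eq_norm]
      exact hd i j)
  rw [dist_eq_norm] at h1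
  exact h1

/-! ### simplices: continuity in the parameter -/

theorem lam_update (q i : ℕ) (u : Fin q → ℝ) (a : Fin q) (t : ℝ) :
    lam q i (Function.update u a t) = (1 - t) * lam q i (Function.update u a 0) + t * lam q i (Function.update u a 1) := by
  classical
  have key : ∀ s : ℝ, lam q i (Function.update u a s) =
      ((if (a : ℕ) < i then s else 1) * ∏ k ∈ Finset.univ.erase a, (if (k : ℕ) < i then u k else 1)) *
      ((if (a : ℕ) = i then 1 - s else 1) * ∏ k ∈ Finset.univ.erase a, (if (k : ℕ) = i then 1 - u k else 1)) := by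
    intro s
    unfold lam
    rw [← Finset.mul_prod_erase Finset.univ _ (Finset.mem_univ a),
      ← Finset.mul_prod_erase Finset.univ (fun k : Fin q => if (k : ℕ) = i then 1 - Function.update u a s k else 1)
        (Finset.mem_univ a)]
    simp only [Function.update_self]
    congr 2
    · refine Finset.prod_congr rfl fun k hk => ?_
      rw [Function.update_of_ne (Finset.ne_of_mem_erase hk)]
    · refine Finset.prod_congr rfl fun k hk => ?_
      rw [Function.update_of_ne (Finset.ne_of_mem_erase hk)]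
  rw [key t, key 0, key 1]
  by_cases h1 : (a : ℕ) < i
  · have h2 : ¬ (a : ℕ) = i := h1.ne
    simp only [h1, h2, if_true, if_false]
    ring
  · by_cases h2 : (a : ℕ) = i
    · simp only [h2, lt_irrefl, if_true, if_false]
      ring
    · simp only [h1, h2, if_false]
      ring

theorem hasDerivAt_lam (q i : ℕ) (u : Fin q → ℝ) (a : Fin q) (t : ℝ) :
    HasDerivAt (fun t => lam q i (Function.update u a t))
      (lam q i (Function.update u a 1) - lam q i (Function.update u a 0)) t := by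
  have e : (fun t => lam q i (Function.update u a t)) = fun t =>
      (1 - t) * lam q i (Function.update u a 0) + t * lam q i (Function.update u a 1) := by
    funext s
    exact lam_update q i u a s
  rw [e]
  have h := (((hasDerivAt_id' t).const_sub 1).mul_const (lam q i (Function.update u a 0))).add
    ((hasDerivAt_id' t).mul_const (lam q i (Function.update u a 1)))
  exact h.congr_deriv (by ring)

theorem dlam_eq (q i : ℕ) (a : Fin q) (u : Fin q → ℝ) :
    dlam q i a u = lam q i (Function.update u a 1) - lam q i (Function.update u a 0) := (hasDerivAt_lam q i u a (u a)).deriv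

theorem continuous_lam (q i : ℕ) : Continuous (lam q i) := by
  unfold lam
  refine Continuous.mul ?_ ?_
  · refine continuous_finsetProd _ fun k _ => ?_
    split_ifs
    · exact continuous_apply k
    · exact continuous_const
  · refine continuous_finsetProd _ fun k _ => ?_
    split_ifs
    · exact continuous_const.sub (continuous_apply k)
    · exact continuous_const

theorem continuous_dlam (q i : ℕ) (a : Fin q) : Continuous (dlam q i a) := by
  have e : dlam q i a = fun u => lam q i (Function.update u a 1) - lam q i (Function.update u a 0) :=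
    funext fun u => dlam_eq q i a u
  rw [e]
  exact ((continuous_lam q i).comp (continuous_id.update a continuous_const)).sub
    ((continuous_lam q i).comp (continuous_id.update a continuous_const))

end

end Pool.Agent.Helper67.DO
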