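import Pool.Agent.Helper67.DO.StmtsX
import Pool.Agent.Helper67.DO.BaseD

/-!
# Shared lemmas for the Lie side: shapes, losses, functionals modulo sums
-/

namespace Pool.Agent.Helper67.DO

open scoped BigOperators Real

noncomputable section

/-! ### the domains `US` -/

theorem US_mono {N : ℕ} {P P' G G' : Set ℤ} {w w' h h' : ℝ} (hP : P' ⊆ P) (hG : G' ⊆ G) (hw : w' ≤ w) (hh : h ≤ h') :
    US N P G w h ⊆ US N P' G' w' h' :=
  fun _ hz => ⟨hz.1.trans_le hh, fun k hk => hw.trans_lt (hz.2.1 k (hP hk)), fun k hk => hz.2.2 k (hG hk)⟩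

theorem US_empty (N : ℕ) (w h : ℝ) : US N ∅ ∅ w h = St h := by
  ext z
  simp [US, St]

theorem mem_pcl {N : ℕ} {I : Set ℤ} {k : ℤ} : k ∈ pcl N I ↔ ∃ t : ℤ, k - t * N ∈ I := Iff.rfl

theorem subset_pcl (N : ℕ) (I : Set ℤ) : I ⊆ pcl N I := fun k hk => ⟨0, by simpa using hk⟩

theorem pcl_per (N : ℕ) (I : Set ℤ) (k : ℤ) : k ∈ pcl N I ↔ k + N ∈ pcl N I := by
  constructor
  · rintro ⟨t, ht⟩
    exact ⟨t + 1, by rw [show k + N - (t + 1) * N = k - t * N by ring]; exact ht⟩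
  · rintro ⟨t, ht⟩
    exact ⟨t - 1, by rw [show k - (t - 1) * N = k + N - t * N by ring]; exact ht⟩

theorem pcl_union (N : ℕ) (I J : Set ℤ) : pcl N (I ∪ J) = pcl N I ∪ pcl N J := by
  ext k
  constructor
  · rintro ⟨t, ht | ht⟩
    · exact Or.inl ⟨t, ht⟩
    · exact Or.inr ⟨t, ht⟩
  · rintro (⟨t, ht⟩ | ⟨t, ht⟩)
    · exact ⟨t, Or.inl ht⟩
    · exact ⟨t, Or.inr ht⟩

theorem pcl_mono (N : ℕ) {I J : Set ℤ} (h : I ⊆ J) : pcl N I ⊆ pcl N J := fun _ ⟨t, ht⟩ => ⟨t, h ht⟩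

theorem pcl_empty (N : ℕ) : pcl N ∅ = ∅ := by
  ext k
  simp [pcl]

theorem Shape.empty (N : ℕ) : Shape N ∅ ∅ := ⟨fun _ => Iff.rfl, fun _ => Iff.rfl, fun _ h => h, fun _ h => h⟩

theorem Shape.union {N : ℕ} {P G : Set ℤ} (h : Shape N P G) (I : Set ℤ) : Shape N (P ∪ pcl N I) G where
  perP k := by
    constructor
    · rintro (hk | hk)
      · exact Or.inl ((h.perP k).1 hk)
      · exact Or.inr ((pcl_per N I k).1 hk)
    · rintro (hk | hk)
      · exact Or.inl ((h.perP k).2 hk)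
      · exact Or.inr ((pcl_per N I k).2 hk)
  perG := h.perG
  c0 k hk := Or.inl (h.c0 k hk)
  c1 k hk := Or.inl (h.c1 k hk)

theorem Shape_PI (N : ℕ) (b e : ℤ) (I : Set ℤ) : Shape N (PI N b e I) (GI N b e) where
  perP := pcl_per N _
  perG := pcl_per N _
  c0 := by
    rintro k ⟨t, h1, h2⟩
    exact ⟨t, Or.inl ⟨h1, h2.le⟩⟩
  c1 := by
    rintro k ⟨t, h1, h2⟩
    exact ⟨t, Or.inl ⟨by linarith, by linarith [Int.add_one_le_of_lt h2]⟩⟩

theorem PI_union (N : ℕ) (b e : ℤ) (I J : Set ℤ) : PI N b e I ∪ pcl N J = PI N b e (I ∪ J) := by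
  unfold PI
  rw [← pcl_union, Set.union_assoc]

theorem isOpen_US {N : ℕ} (hN : 0 < N) (P G : Set ℤ) (w h : ℝ) : IsOpen (US N P G w h) := by
  have hN' : (0 : ℝ) < N := Nat.cast_pos.2 hN
  -- a locally finite family of closed sets
  have key : ∀ (S : Set ℤ) (C : ℝ), LocallyFinite fun k : S => {z : ℂ | |z.re - (k : ℤ) / N| ≤ C} := by
    intro S C z
    refine ⟨Metric.ball z 1, Metric.ball_mem_nhds z one_pos, ?_⟩
    have hfin : (Set.Icc ⌊(z.re - C - 1) * N⌋ ⌈(z.re + C + 1) * N⌉).Finite := Set.finite_Icc _ _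
    refine (hfin.preimage (f := fun k : S => (k : ℤ)) (Subtype.coe_injective.injOn)).subset ?_
    rintro ⟨k, hk⟩ ⟨x, hx1, hx2⟩
    have hx1' : |x.re - (k : ℝ) / N| ≤ C := hx1
    have hx2' : |x.re - z.re| < 1 := by
      have := Complex.abs_re_le_norm (x - z)
      rw [Complex.sub_re] at this
      exact this.trans_lt (by rw [← dist_eq_norm]; exact hx2)
    rw [abs_le] at hx1'
    rw [abs_lt] at hx2'
    have h1 : (z.re - C - 1) * N ≤ k := by
      have : z.re - C - 1 ≤ (k : ℝ) / N := by linarith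
      rwa [le_div_iff₀ hN'] at this
    have h2 : (k : ℝ) ≤ (z.re + C + 1) * N := by
      have : (k : ℝ) / N ≤ z.re + C + 1 := by linarith
      rwa [div_le_iff₀ hN'] at this
    constructor
    · have := (Int.floor_le ((z.re - C - 1) * N)).trans h1
      exact_mod_cast this
    · have := h2.trans (Int.le_ceil ((z.re + C + 1) * N))
      exact_mod_cast this
  have e : US N P G w h = {z | |z.im| < h} ∩ (⋃ k : P, {z : ℂ | |z.re - (k : ℤ) / N| ≤ w})ᶜ ∩
      (⋃ k : G, {z : ℂ | (k : ℤ) / (N : ℝ) ≤ z.re ∧ z.re ≤ ((k : ℤ) + 1) / N})ᶜ := by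
    ext z
    simp only [US, Set.mem_ofPred_eq, Set.mem_inter_iff, Set.mem_compl_iff, Set.mem_iUnion, not_exists, not_le,
      Subtype.forall, not_and_or, and_assoc]
  rw [e]
  refine IsOpen.inter (IsOpen.inter ?_ ?_) ?_
  · exact isOpen_lt (continuous_abs.comp Complex.continuous_im) continuous_const
  · refine ((key P w).isClosed_iUnion fun k => ?_).isOpen_compl
    exact isClosed_le (continuous_abs.comp (Complex.continuous_re.sub continuous_const)) continuous_const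
  · refine (LocallyFinite.isClosed_iUnion ?_ fun k => ?_).isOpen_compl
    · refine (key G 1).subset fun k z hz => ?_
      have h1 : (k : ℤ) / (N : ℝ) ≤ z.re := hz.1
      have h2 : z.re ≤ ((k : ℤ) + 1) / (N : ℝ) := hz.2
      show |z.re - (k : ℤ) / N| ≤ 1
      rw [abs_le]
      have h3 : (((k : ℤ) : ℝ) + 1) / N = (k : ℤ) / N + 1 / N := by ring
      have h4 : (1 : ℝ) / N ≤ 1 := by
        rw [div_le_one hN']
        exact_mod_cast hN
      constructor <;> linarith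
    · have : {z : ℂ | (k : ℤ) / (N : ℝ) ≤ z.re ∧ z.re ≤ ((k : ℤ) + 1) / N} =
          {z : ℂ | (k : ℤ) / (N : ℝ) ≤ z.re} ∩ {z : ℂ | z.re ≤ ((k : ℤ) + 1) / N} := rfl
      rw [this]
      exact (isClosed_le continuous_const Complex.continuous_re).inter (isClosed_le Complex.continuous_re continuous_const)

theorem Per_US {N : ℕ} (hN : 0 < N) {P G : Set ℤ} (hP : ∀ k, k ∈ P ↔ k + N ∈ P) (hG : ∀ k, k ∈ G ↔ k + N ∈ G)
    (w h : ℝ) : Per (US N P G w h) := by
  have hN' : (N : ℝ) ≠ 0 := (Nat.cast_pos.2 hN).ne'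
  have e1 : ∀ (z : ℂ) (k : ℤ), (z + 1).re - ((k + N : ℤ) : ℝ) / N = z.re - (k : ℝ) / N := by
    intro z k
    push_cast
    rw [Complex.add_re, Complex.one_re]
    field_simp
    ring
  have e2 : ∀ k : ℤ, (((k + N : ℤ) : ℝ)) / N = (k : ℝ) / N + 1 := by
    intro k
    push_cast
    field_simp
  have e3 : ∀ k : ℤ, (((k + N : ℤ) : ℝ) + 1) / N = ((k : ℝ) + 1) / N + 1 := by
    intro k
    push_cast
    field_simp
    ring
  intro z
  have him : (z + 1).im = z.im := by simp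
  have hre : (z + 1).re = z.re + 1 := by simp
  constructor
  · rintro ⟨h1, h2, h3⟩
    refine ⟨by rw [him]; exact h1, fun k hk => ?_, fun k hk => ?_⟩
    · have hk' : k - N ∈ P := (hP _).2 (by rw [sub_add_cancel]; exact hk)
      have := e1 z (k - N)
      rw [sub_add_cancel] at this
      rw [this]
      exact h2 _ hk'
    · have hk' : k - N ∈ G := (hG _).2 (by rw [sub_add_cancel]; exact hk)
      have a1 := e2 (k - N)
      have a2 := e3 (k - N)
      rw [sub_add_cancel] at a1 a2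
      rw [a1, a2, hre]
      rcases h3 _ hk' with h | h
      · exact Or.inl (by linarith)
      · exact Or.inr (by linarith)
  · rintro ⟨h1, h2, h3⟩
    refine ⟨by rw [him] at h1; exact h1, fun k hk => ?_, fun k hk => ?_⟩
    · rw [← e1 z k]
      exact h2 _ ((hP k).1 hk)
    · have := h3 _ ((hG k).1 hk)
      rw [e2, e3, hre] at this
      rcases this with h | h
      · exact Or.inl (by linarith)
      · exact Or.inr (by linarith)

theorem Shape.per_US {N : ℕ} (hN : 0 < N) {P G : Set ℤ} (hs : Shape N P G) (w h : ℝ) : Per (US N P G w h) :=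
  Per_US hN hs.perP hs.perG w h

theorem US_ball {N : ℕ} {P G : Set ℤ} (hs : Shape N P G) {w w' h h' r : ℝ} (hw' : 0 ≤ w') (hw : w' + r ≤ w)
    (hh : h + r ≤ h') {z : ℂ} (hz : z ∈ US N P G w h) : Metric.ball z r ⊆ US N P G w' h' := by
  intro x hx
  rw [Metric.mem_ball, dist_eq_norm] at hx
  have h1 : |x.re - z.re| < r := by
    have := Complex.abs_re_le_norm (x - z)
    rw [Complex.sub_re] at this
    exact this.trans_lt hx
  have h2 : |x.im - z.im| < r := by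
    have := Complex.abs_im_le_norm (x - z)
    rw [Complex.sub_im] at this
    exact this.trans_lt hx
  rw [abs_lt] at h1
  refine ⟨?_, fun k hk => ?_, fun k hk => ?_⟩
  · calc |x.im| = |z.im + (x.im - z.im)| := by congr 1; ring
      _ ≤ |z.im| + |x.im - z.im| := abs_add_le _ _
      _ < h + r := add_lt_add hz.1 h2
      _ ≤ h' := hh
  · have a := hz.2.1 k hk
    rw [lt_abs] at a ⊢
    rcases a with a | a
    · left; linarith
    · right; linarith
  · have a := hz.2.1 k (hs.c0 k hk)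
    have b := hz.2.1 (k + 1) (hs.c1 k hk)
    push_cast at b
    rw [lt_abs] at a b
    rcases hz.2.2 k hk with c | c
    · left
      rcases a with a | a <;> linarith
    · right
      rcases b with b | b <;> linarith

/-! ### losses -/

theorem Loss.of {N : ℕ} {Φ : ℝ → ℝ → ℝ → ℝ → Prop}
    (H : ∀ w' h' w h : ℝ, 0 < w' → w' < w → w < 1 / (4 * N) → 0 < h → h < h' → Φ w' h' w h) : Loss N Φ :=
  fun w' w h1 h2 h3 => ⟨1, one_pos, fun h h' h4 h5 _ => H w' h' w h h1 h2 h3 h4 h5⟩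

theorem Loss.imp {N : ℕ} {Φ Ψ : ℝ → ℝ → ℝ → ℝ → Prop} (h : Loss N Φ)
    (H : ∀ w' h' w h : ℝ, 0 < w' → w' < w → w < 1 / (4 * N) → 0 < h → h < h' → Φ w' h' w h → Ψ w' h' w h) : Loss N Ψ := by
  intro w' w h1 h2 h3
  obtain ⟨h0, hh0, K⟩ := h w' w h1 h2 h3
  exact ⟨h0, hh0, fun h h' a b c => H w' h' w h h1 h2 h3 a b (K h h' a b c)⟩

theorem Loss.and {N : ℕ} {Φ Ψ : ℝ → ℝ → ℝ → ℝ → Prop} (h : Loss N Φ) (k : Loss N Ψ) :
    Loss N fun w' h' w h => Φ w' h' w h ∧ Ψ w' h' w h := by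
  intro w' w h1 h2 h3
  obtain ⟨h0, hh0, K⟩ := h w' w h1 h2 h3
  obtain ⟨h0', hh0', K'⟩ := k w' w h1 h2 h3
  exact ⟨min h0 h0', lt_min hh0 hh0', fun h h' a b c => ⟨K h h' a b (c.trans_le (min_le_left _ _)),
    K' h h' a b (c.trans_le (min_le_right _ _))⟩⟩

/-- composition of two losses: `Φ1` from the original level to an intermediate one, `Φ2` from there to the final one -/
theorem Loss.comp {N : ℕ} {Φ1 Φ2 Ψ : ℝ → ℝ → ℝ → ℝ → Prop} (k1 : Loss N Φ1) (k2 : Loss N Φ2)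
    (H : ∀ w' h' w1 h1 w h : ℝ, 0 < w' → w' < w1 → w1 < w → w < 1 / (4 * N) → 0 < h → h < h1 → h1 < h' →
      Φ1 w1 h1 w h → Φ2 w' h' w1 h1 → Ψ w' h' w h) : Loss N Ψ := by
  intro w' w h1 h2 h3
  obtain ⟨a0, ha0, K1⟩ := k1 ((w' + w) / 2) w (by linarith) (by linarith) h3
  obtain ⟨b0, hb0, K2⟩ := k2 w' ((w' + w) / 2) h1 (by linarith) (by linarith)
  refine ⟨min a0 b0, lt_min ha0 hb0, fun h h' p1 p2 p3 => ?_⟩
  have q1 := p3.trans_le (min_le_left a0 b0)
  have q2 := p3.trans_le (min_le_right a0 b0)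
  exact H w' h' ((w' + w) / 2) ((h + h') / 2) w h h1 (by linarith) (by linarith) h3 p1 (by linarith) (by linarith)
    (K1 h ((h + h') / 2) p1 (by linarith) (by linarith)) (K2 ((h + h') / 2) h' (by linarith) (by linarith) q2)

/-! ### linearity of `dd` -/

theorem mem_PU_insert {q : ℕ} {U : Set ℂ} {z : Fin q → ℂ} (hz : z ∈ PU q U) {t : ℂ} (ht : t ∈ U) (i : Fin (q + 1)) :
    i.insertNth (α := fun _ => ℂ) t z ∈ PU (q + 1) U := by
  intro j
  refine Fin.succAboveCases i ?_ (fun k => ?_) j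
  · rw [Fin.insertNth_apply_same]
    exact ht
  · rw [Fin.insertNth_apply_succAbove]
    exact hz k

theorem hasDerivAt_insert {q : ℕ} (z : Fin q → ℂ) (i : Fin (q + 1)) (t : ℂ) :
    HasDerivAt (fun t : ℂ => i.insertNth (α := fun _ => ℂ) t z) (Pi.single i 1) t := by
  rw [hasDerivAt_pi]
  intro j
  refine Fin.succAboveCases i ?_ (fun k => ?_) j
  · simpa using hasDerivAt_id' t
  · simpa [Fin.succAbove_ne] using hasDerivAt_const t (z k)

theorem diff_insert {q : ℕ} {U : Set ℂ} (hU : IsOpen U) {F : (Fin (q + 1) → ℂ) → ℂ}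
    (hF : DifferentiableOn ℂ F (PU (q + 1) U)) {z : Fin q → ℂ} (hz : z ∈ PU q U) (i : Fin (q + 1)) {t : ℂ}
    (ht : t ∈ U) : DifferentiableAt ℂ (fun t : ℂ => F (i.insertNth t z)) t := by
  have h1 : DifferentiableAt ℂ F (i.insertNth (α := fun _ => ℂ) t z) :=
    hF.differentiableAt ((isOpen_PU (q + 1) hU).mem_nhds (mem_PU_insert hz ht i))
  exact h1.comp t (hasDerivAt_insert z i t).differentiableAt

theorem dd_lin {q : ℕ} {U : Set ℂ} (hU : IsOpen U) {F G : (Fin (q + 1) → ℂ) → ℂ}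
    (hF : DifferentiableOn ℂ F (PU (q + 1) U)) (hG : DifferentiableOn ℂ G (PU (q + 1) U)) (c : ℂ) {z : Fin q → ℂ}
    (hz : z ∈ PU q U) : dd q (fun x => c * F x + G x) z = c * dd q F z + dd q G z := by
  unfold dd
  rw [Finset.mul_sum, ← Finset.sum_add_distrib]
  refine Finset.sum_congr rfl fun i _ => ?_
  have h1 := (diff_insert hU hF hz i.succ (hz i))
  have h2 := (diff_insert hU hG hz i.succ (hz i))
  have e := ((h1.hasDerivAt.const_mul c).add h2.hasDerivAt).deriv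
  have e' : deriv (fun t : ℂ => c * F (i.succ.insertNth t z) + G (i.succ.insertNth t z)) (z i) = _ := e
  rw [e']
  ring

theorem dd_add {q : ℕ} {U : Set ℂ} (hU : IsOpen U) {F G : (Fin (q + 1) → ℂ) → ℂ}
    (hF : DifferentiableOn ℂ F (PU (q + 1) U)) (hG : DifferentiableOn ℂ G (PU (q + 1) U)) {z : Fin q → ℂ}
    (hz : z ∈ PU q U) : dd q (fun x => F x + G x) z = dd q F z + dd q G z := by
  have := dd_lin hU hF hG 1 hz
  simpa using this

theorem dd_smul {q : ℕ} {U : Set ℂ} (hU : IsOpen U) {F : (Fin (q + 1) → ℂ) → ℂ}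
    (hF : DifferentiableOn ℂ F (PU (q + 1) U)) (c : ℂ) {z : Fin q → ℂ}
    (hz : z ∈ PU q U) : dd q (fun x => c * F x) z = c * dd q F z := by
  have h0 : DifferentiableOn ℂ (fun _ : Fin (q + 1) → ℂ => (0 : ℂ)) (PU (q + 1) U) := differentiableOn_const 0
  have e := dd_lin hU hF h0 c hz
  have e2 : dd q (fun _ => 0) z = 0 := by
    unfold dd
    simp
  rw [e2, add_zero] at e
  simpa using e

theorem dd_congr {q : ℕ} {U : Set ℂ} (hU : IsOpen U) {F G : (Fin (q + 1) → ℂ) → ℂ}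
    (h : ∀ z ∈ PU (q + 1) U, F z = G z) {z : Fin q → ℂ} (hz : z ∈ PU q U) : dd q F z = dd q G z := by
  unfold dd
  refine Finset.sum_congr rfl fun i _ => ?_
  congr 1
  apply Filter.EventuallyEq.deriv_eq
  filter_upwards [hU.mem_nhds (hz i)] with t ht
  exact h _ (mem_PU_insert hz ht i.succ)

/-! ### `β ∘ ∂` -/

/-- `dd` maps `BO (q+1) U'` to `BO q U` for `U` inside `U'` -/
theorem dd_BO (h1 : ST_E1) {N : ℕ} (hN : 0 < N) {P G : Set ℤ} (hs : Shape N P G) {q : ℕ} {w w' h h' : ℝ}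
    (hw0 : 0 ≤ w') (hw : w' < w) (hh : h < h') {F : (Fin (q + 1) → ℂ) → ℂ} (hF : BO (q + 1) (US N P G w' h') F) :
    BO q (US N P G w h) (dd q F) := by
  have hr : 0 < min (w - w') (h' - h) := lt_min (by linarith) (by linarith)
  exact (h1 q _ _ _ (isOpen_US hN P G w h) (isOpen_US hN P G w' h') (hs.per_US hN w' h') hr
    (fun z hz => US_ball hs hw0 (by linarith [min_le_left (w - w') (h' - h)])
      (by linarith [min_le_right (w - w') (h' - h)]) hz) F hF).1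

theorem Fnl.dd (h1 : ST_E1) {N : ℕ} (hN : 0 < N) {P G : Set ℤ} (hs : Shape N P G) {q : ℕ} {w w' h h' : ℝ}
    (hw0 : 0 ≤ w') (hw : w' < w) (hh : h < h') {β : ((Fin q → ℂ) → ℂ) → ℂ} (hβ : Fnl q (US N P G w h) β) :
    Fnl (q + 1) (US N P G w' h') (fun F => β (Pool.Agent.Helper67.DO.dd q F)) := by
  have hr : 0 < min (w - w') (h' - h) := lt_min (by linarith) (by linarith)
  have H := h1 q _ _ _ (isOpen_US hN P G w h) (isOpen_US hN P G w' h') (hs.per_US hN w' h') hr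
    (fun z hz => US_ball hs hw0 (by linarith [min_le_left (w - w') (h' - h)])
      (by linarith [min_le_right (w - w') (h' - h)]) hz)
  have hsub : US N P G w h ⊆ US N P G w' h' := US_mono le_rfl le_rfl hw.le hh.le
  have hO := isOpen_US hN P G w' h'
  refine ⟨fun F K hF hK => ?_, fun c F hF => ?_, ?_⟩
  · have a := (H F hF).1
    have b := (H K hK).1
    have c := (H _ (hF.add hK)).1
    rw [← hβ.add _ _ a b]
    exact hβ.ext' c (a.add b) fun z hz => dd_add hO hF.hol hK.hol (PU_mono hsub hz)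
  · have a := (H F hF).1
    have c' := (H _ (hF.smul c)).1
    rw [← hβ.smul c _ a]
    exact hβ.ext' c' (a.smul c) fun z hz => dd_smul hO hF.hol c (PU_mono hsub hz)
  · obtain ⟨C, hC, K⟩ := hβ.bdd
    refine ⟨C * (q / min (w - w') (h' - h)), by positivity, fun F hF M hM hM0 => ?_⟩
    have a := (H F hF).2 M hM
    have b := K _ (H F hF).1 (q * M / min (w - w') (h' - h)) a (by positivity)
    calc ‖β (Pool.Agent.Helper67.DO.dd q F)‖ ≤ C * (q * M / min (w - w') (h' - h)) := b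
      _ = C * (q / min (w - w') (h' - h)) * M := by ring

/-! ### sums of functionals -/

theorem SumX.congr {N m q : ℕ} {P G : Set ℤ} {w h : ℝ} {α α' : ((Fin q → ℂ) → ℂ) → ℂ} (hα : SumX N m q P G w h α)
    (e : ∀ w1 h1 : ℝ, 0 < w1 → w1 < w → h < h1 → ∀ F, BO q (US N P G w1 h1) F → α' F = α F) :
    SumX N m q P G w h α' := by
  obtain ⟨β, h1, h2⟩ := hα
  exact ⟨β, h1, fun w1 h1 a b c F hF => by rw [e w1 h1 a b c F hF, h2 w1 h1 a b c F hF]⟩

theorem SumX.zero (N m q : ℕ) (P G : Set ℤ) (w h : ℝ) : SumX N m q P G w h (fun _ => 0) :=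
  ⟨fun _ _ => 0, fun _ _ => Fnl.zeroF _ _, fun _ _ _ _ _ _ _ => by simp⟩

theorem SumX.add {N m q : ℕ} {P G : Set ℤ} {w h : ℝ} {α α' : ((Fin q → ℂ) → ℂ) → ℂ} (hα : SumX N m q P G w h α)
    (hα' : SumX N m q P G w h α') : SumX N m q P G w h (fun F => α F + α' F) := by
  obtain ⟨β, h1, h2⟩ := hα
  obtain ⟨β', h1', h2'⟩ := hα'
  refine ⟨fun i F => β i F + β' i F, fun i hi => (h1 i hi).addF (h1' i hi), fun w1 k1 a b c F hF => ?_⟩
  show α F + α' F = ∑ i ∈ Finset.range m, (β i F + β' i F)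
  rw [h2 w1 k1 a b c F hF, h2' w1 k1 a b c F hF, Finset.sum_add_distrib]

theorem SumX.smul {N m q : ℕ} {P G : Set ℤ} {w h : ℝ} {α : ((Fin q → ℂ) → ℂ) → ℂ} (c : ℂ)
    (hα : SumX N m q P G w h α) : SumX N m q P G w h (fun F => c * α F) := by
  obtain ⟨β, h1, h2⟩ := hα
  refine ⟨fun i F => c * β i F, fun i hi => (h1 i hi).smulF c, fun w1 k1 a b d F hF => ?_⟩
  show c * α F = ∑ i ∈ Finset.range m, c * β i F
  rw [h2 w1 k1 a b d F hF, Finset.mul_sum]

theorem SumX.sub {N m q : ℕ} {P G : Set ℤ} {w h : ℝ} {α α' : ((Fin q → ℂ) → ℂ) → ℂ} (hα : SumX N m q P G w h α)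
    (hα' : SumX N m q P G w h α') : SumX N m q P G w h (fun F => α F - α' F) :=
  (hα.add (hα'.smul (-1))).congr fun _ _ _ _ _ _ _ => by ring

theorem SumX.neg {N m q : ℕ} {P G : Set ℤ} {w h : ℝ} {α : ((Fin q → ℂ) → ℂ) → ℂ}
    (hα : SumX N m q P G w h α) : SumX N m q P G w h (fun F => - α F) :=
  (hα.smul (-1)).congr fun _ _ _ _ _ _ _ => by ring

/-- larger `m`, smaller removed set, finer level -/
theorem SumX.mono {N m m' q : ℕ} {P P' G G' : Set ℤ} {w w' h h' : ℝ} {α : ((Fin q → ℂ) → ℂ) → ℂ}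
    (hα : SumX N m q P G w h α) (hm : m ≤ m') (hP : P' ⊆ P) (hG : G' ⊆ G) (hw : w' ≤ w) (hh : h ≤ h') :
    SumX N m' q P' G' w' h' α := by
  classical
  obtain ⟨β, h1, h2⟩ := hα
  refine ⟨fun i => if i < m then β i else fun _ => 0, fun i _ => ?_, fun w1 k1 a b c F hF => ?_⟩
  · by_cases him : i < m
    · simp only [him, if_true]
      exact (h1 i him).mono' (US_mono (Set.union_subset_union_left _ hP) hG hw hh)
    · simp only [him, if_false]
      exact Fnl.zeroF _ _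
  · rw [h2 w1 k1 a (b.trans_le hw) (hh.trans_lt c) F (hF.mono (US_mono hP hG le_rfl le_rfl))]
    rw [← Finset.sum_subset (Finset.range_mono hm) (fun i _ hi => ?_)]
    · refine Finset.sum_congr rfl fun i hi => ?_
      simp only [Finset.mem_range.1 hi, if_true]
    · simp only [Finset.mem_range] at hi
      simp only [hi, if_false]

/-- a functional on `P + i` -/
theorem SumX.of {N m q : ℕ} {P G : Set ℤ} {w h : ℝ} {α : ((Fin q → ℂ) → ℂ) → ℂ} {i : ℕ} (hi : i < m)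
    (hα : Fnl q (US N (P ∪ pcl N {(i : ℤ)}) G w h) α) : SumX N m q P G w h α := by
  classical
  refine ⟨fun j => if j = i then α else fun _ => 0, fun j _ => ?_, fun w1 k1 _ _ _ F _ => ?_⟩
  · by_cases hj : j = i
    · subst hj
      simp only [if_true]
      exact hα
    · simp only [hj, if_false]
      exact Fnl.zeroF _ _
  · rw [Finset.sum_eq_single i]
    · simp
    · intro b _ hb
      simp [hb]
    · intro hn
      exact absurd (Finset.mem_range.2 hi) hn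

/-- split off the last term -/
theorem SumX.split {N m q : ℕ} {P G : Set ℤ} {w h : ℝ} {α : ((Fin q → ℂ) → ℂ) → ℂ} (hα : SumX N (m + 1) q P G w h α) :
    ∃ β, Fnl q (US N (P ∪ pcl N {(m : ℤ)}) G w h) β ∧ SumX N m q P G w h (fun F => α F - β F) := by
  obtain ⟨β, h1, h2⟩ := hα
  refine ⟨β m, h1 m (Nat.lt_succ_self m), β, fun i hi => h1 i (hi.trans (Nat.lt_succ_self m)), fun w1 k1 a b c F hF => ?_⟩
  show α F - β m F = ∑ i ∈ Finset.range m, β i F
  rw [h2 w1 k1 a b c F hF, Finset.sum_range_succ]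
  ring

theorem SumX.dd (h1 : ST_E1) {N m q : ℕ} (hN : 0 < N) {P G : Set ℤ} (hs : Shape N P G) {w w' h h' : ℝ}
    (hw0 : 0 < w') (hw : w' < w) (hh : h < h') {α : ((Fin q → ℂ) → ℂ) → ℂ} (hα : SumX N m q P G w h α) :
    SumX N m (q + 1) P G w' h' (fun F => α (Pool.Agent.Helper67.DO.dd q F)) := by
  obtain ⟨β, k1, k2⟩ := hα
  refine ⟨fun i F => β i (Pool.Agent.Helper67.DO.dd q F), fun i hi => (k1 i hi).dd h1 hN (hs.union _) hw0.le hw hh,
    fun w1 l1 a b c F hF => ?_⟩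
  have hF' : BO q (US N P G ((w1 + w') / 2) ((l1 + h') / 2)) (Pool.Agent.Helper67.DO.dd q F) :=
    dd_BO h1 hN hs a.le (by linarith) (by linarith) hF
  exact k2 ((w1 + w') / 2) ((l1 + h') / 2) (by linarith) (by linarith) (by linarith) _ hF'

/-! ### cocycles and exact functionals modulo sums -/

theorem CocX.of_SumX (h1 : ST_E1) {N m q : ℕ} (hN : 0 < N) {P G : Set ℤ} (hs : Shape N P G) {w w' h h' : ℝ}
    (hw0 : 0 < w') (hw : w' < w) (hh : h < h') {α : ((Fin q → ℂ) → ℂ) → ℂ} (hα : SumX N m q P G w h α) :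
    CocX N m q P G w' h' α := hα.dd h1 hN hs hw0 hw hh

theorem CocX.mono {N m m' q : ℕ} {P P' G G' : Set ℤ} {w w' h h' : ℝ} {α : ((Fin q → ℂ) → ℂ) → ℂ}
    (hα : CocX N m q P G w h α) (hm : m ≤ m') (hP : P' ⊆ P) (hG : G' ⊆ G) (hw : w' ≤ w) (hh : h ≤ h') :
    CocX N m' q P' G' w' h' α := SumX.mono hα hm hP hG hw hh

theorem CocX.add {N m q : ℕ} {P G : Set ℤ} {w h : ℝ} {α α' : ((Fin q → ℂ) → ℂ) → ℂ}
    (hα : CocX N m q P G w h α) (hα' : CocX N m q P G w h α') : CocX N m q P G w h (fun F => α F + α' F) :=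
  SumX.add hα hα'

theorem CocX.smul {N m q : ℕ} {P G : Set ℤ} {w h : ℝ} {α : ((Fin q → ℂ) → ℂ) → ℂ} (c : ℂ)
    (hα : CocX N m q P G w h α) : CocX N m q P G w h (fun F => c * α F) := SumX.smul c hα

theorem CocX.sub {N m q : ℕ} {P G : Set ℤ} {w h : ℝ} {α α' : ((Fin q → ℂ) → ℂ) → ℂ}
    (hα : CocX N m q P G w h α) (hα' : CocX N m q P G w h α') : CocX N m q P G w h (fun F => α F - α' F) :=
  SumX.sub hα hα'

theorem CocX.congr (h1 : ST_E1) {N m q : ℕ} (hN : 0 < N) {P G : Set ℤ} (hs : Shape N P G) {w h : ℝ}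
    {α α' : ((Fin q → ℂ) → ℂ) → ℂ} (hα : CocX N m q P G w h α)
    (e : ∀ w1 k1 : ℝ, 0 < w1 → w1 < w → h < k1 → ∀ F, BO q (US N P G w1 k1) F → α' F = α F) :
    CocX N m q P G w h α' :=
  SumX.congr hα fun w1 k1 a b c F hF => e ((w1 + w) / 2) ((k1 + h) / 2) (by linarith) (by linarith) (by linarith) _
    (dd_BO h1 hN hs a.le (by linarith) (by linarith) hF)

/-- `γ ∘ ∂` is a cocycle -/
theorem CocX.dd (h1 : ST_E1) (h2 : ST_E2) {N m q : ℕ} (hN : 0 < N) {P G : Set ℤ} (hs : Shape N P G) {w h : ℝ}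
    {γ : ((Fin q → ℂ) → ℂ) → ℂ} (hγ : Fnl q (US N P G w h) γ) :
    CocX N m (q + 1) P G w h (fun F => γ (Pool.Agent.Helper67.DO.dd q F)) := by
  refine (SumX.zero N m (q + 2) P G w h).congr fun w1 k1 a b c F hF => ?_
  have e1 : BO (q + 1) (US N P G ((w1 + w) / 2) ((k1 + h) / 2)) (Pool.Agent.Helper67.DO.dd (q + 1) F) :=
    dd_BO h1 hN hs a.le (by linarith) (by linarith) hF
  have e2 : BO q (US N P G w h) (Pool.Agent.Helper67.DO.dd q (Pool.Agent.Helper67.DO.dd (q + 1) F)) :=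
    dd_BO h1 hN hs (by linarith) (by linarith) (by linarith) e1
  have e3 := hγ.ext' e2 (BO.zero q _) fun z hz =>
    h2 q (US N P G w1 k1) (isOpen_US hN P G w1 k1) (hs.per_US hN w1 k1) F hF z
      (PU_mono (US_mono le_rfl le_rfl b.le c.le) hz)
  show γ (Pool.Agent.Helper67.DO.dd q (Pool.Agent.Helper67.DO.dd (q + 1) F)) = 0
  rw [e3, hγ.zero']

theorem ExX.of_SumX {N m q : ℕ} {P G : Set ℤ} {w h : ℝ} {α : ((Fin q → ℂ) → ℂ) → ℂ} (hα : SumX N m q P G w h α) :
    ExX N m q P G w h α := by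
  cases q with
  | zero => exact hα
  | succ q =>
    refine ⟨fun _ => 0, Fnl.zeroF _ _, hα.congr fun _ _ _ _ _ F _ => by simp⟩

theorem ExX.add {N m q : ℕ} {P G : Set ℤ} {w h : ℝ} {α α' : ((Fin q → ℂ) → ℂ) → ℂ}
    (hα : ExX N m q P G w h α) (hα' : ExX N m q P G w h α') : ExX N m q P G w h (fun F => α F + α' F) := by
  cases q with
  | zero => exact SumX.add hα hα'
  | succ q =>
    obtain ⟨γ, a, b⟩ := hα
    obtain ⟨γ', a', b'⟩ := hα'
    exact ⟨fun F => γ F + γ' F, a.addF a', (b.add b').congr fun _ _ _ _ _ F _ => by ring⟩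

theorem ExX.smul {N m q : ℕ} {P G : Set ℤ} {w h : ℝ} {α : ((Fin q → ℂ) → ℂ) → ℂ} (c : ℂ)
    (hα : ExX N m q P G w h α) : ExX N m q P G w h (fun F => c * α F) := by
  cases q with
  | zero => exact SumX.smul c hα
  | succ q =>
    obtain ⟨γ, a, b⟩ := hα
    exact ⟨fun F => c * γ F, a.smulF c, (b.smul c).congr fun _ _ _ _ _ F _ => by ring⟩

theorem ExX.sub {N m q : ℕ} {P G : Set ℤ} {w h : ℝ} {α α' : ((Fin q → ℂ) → ℂ) → ℂ}
    (hα : ExX N m q P G w h α) (hα' : ExX N m q P G w h α') : ExX N m q P G w h (fun F => α F - α' F) := by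
  have e := hα.add (hα'.smul (-1))
  have : (fun F => α F - α' F) = fun F => α F + -1 * α' F := by
    funext F
    ring
  rw [this]
  exact e

theorem ExX.mono {N m m' q : ℕ} {P P' G G' : Set ℤ} {w w' h h' : ℝ} {α : ((Fin q → ℂ) → ℂ) → ℂ}
    (hα : ExX N m q P G w h α) (hm : m ≤ m') (hP : P' ⊆ P) (hG : G' ⊆ G) (hw : w' ≤ w) (hh : h ≤ h') :
    ExX N m' q P' G' w' h' α := by
  cases q with
  | zero => exact SumX.mono hα hm hP hG hw hh
  | succ q =>
    obtain ⟨γ, a, b⟩ := hα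
    exact ⟨γ, a.mono' (US_mono hP hG hw hh), b.mono hm hP hG hw hh⟩

theorem ExX.congr {N m q : ℕ} {P G : Set ℤ} {w h : ℝ} {α α' : ((Fin q → ℂ) → ℂ) → ℂ} (hα : ExX N m q P G w h α)
    (e : ∀ w1 h1 : ℝ, 0 < w1 → w1 < w → h < h1 → ∀ F, BO q (US N P G w1 h1) F → α' F = α F) :
    ExX N m q P G w h α' := by
  cases q with
  | zero => exact SumX.congr hα e
  | succ q =>
    obtain ⟨γ, a, b⟩ := hα
    exact ⟨γ, a, b.congr fun w1 h1 p1 p2 p3 F hF => by rw [e w1 h1 p1 p2 p3 F hF]⟩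

/-- `γ ∘ ∂` is exact -/
theorem ExX.dd {N m q : ℕ} {P G : Set ℤ} {w h : ℝ} {γ : ((Fin q → ℂ) → ℂ) → ℂ} (hγ : Fnl q (US N P G w h) γ) :
    ExX N m (q + 1) P G w h (fun F => γ (Pool.Agent.Helper67.DO.dd q F)) :=
  ⟨γ, hγ, (SumX.zero N m (q + 1) P G w h).congr fun _ _ _ _ _ _ _ => by simp⟩

/-- exact functionals are cocycles -/
theorem ExX.cocX (h1 : ST_E1) (h2 : ST_E2) {N m q : ℕ} (hN : 0 < N) {P G : Set ℤ} (hs : Shape N P G) {w w' h h' : ℝ}
    (hw0 : 0 < w') (hw : w' < w) (hh : h < h') {α : ((Fin q → ℂ) → ℂ) → ℂ} (hα : ExX N m q P G w h α) :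
    CocX N m q P G w' h' α := by
  cases q with
  | zero => exact CocX.of_SumX h1 hN hs hw0 hw hh hα
  | succ q =>
    obtain ⟨γ, a, b⟩ := hα
    have c1 := CocX.of_SumX h1 hN hs hw0 hw hh b
    have c2 : CocX N m (q + 1) P G w h (fun F => γ (Pool.Agent.Helper67.DO.dd q F)) := CocX.dd h1 h2 hN hs a
    exact (c1.add (c2.mono le_rfl le_rfl le_rfl hw.le hh.le)).congr h1 hN hs fun _ _ _ _ _ F _ => by ring

end

end Pool.Agent.Helper67.DO
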