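import Pool.Agent.Helper67.DO.DefsD

/-!
# MP_d07457_gt, section 3: construction of the smoothing data
Blocks are numbered from `0`: block `N` lives on the strip `St (sC s0 N)`.
-/

namespace Pool.Agent.Helper67.DO

open scoped BigOperators Real
open MeasureTheory

noncomputable section

def gamC (s0 : ℝ) (N : ℕ) : ℝ := s0 / 2 ^ (N + 2)

/-- `s_N`, `s_0 = s0`, `s_{N+1} = s_N - γ_N` -/
def sC (s0 : ℝ) (N : ℕ) : ℝ := s0 / 2 + s0 / 2 ^ (N + 1)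

def nC (ns : ℕ) (N : ℕ) : ℕ := ns * 8 ^ N

def dC (ns : ℕ) (N : ℕ) : ℕ := 2 * nC ns N + 1

def epsC (s0 : ℝ) (N : ℕ) : ℝ := gamC s0 N / 128

def delC (s0 : ℝ) (ns N : ℕ) : ℝ := epsC s0 N / dC ns N

/-- the block functions, `|j| ≤ n_N`; cosines for `j > 0`, sines for `j < 0` -/
def phiC (s0 : ℝ) (N : ℕ) (j : ℤ) (z : ℂ) : ℂ :=
  (Real.exp (-(2 * π * sC s0 N * |(j : ℝ)|)) : ℂ) *
    (if j = 0 then 1 else if 0 < j then Complex.cos (2 * π * j * z) else Complex.sin (2 * π * j * z))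

/-- frequencies of block `N` -/
def frC (ns N : ℕ) : Finset ℤ := Finset.Icc (-(nC ns N : ℤ)) (nC ns N)

def bC (s0 : ℝ) (ns N : ℕ) (th : ℕ × ℤ → ℝ) (z : ℂ) : ℂ :=
  (delC s0 ns N : ℂ) * ∑ j ∈ frC ns N, (th (N, j) : ℂ) * phiC s0 N j z

/-- the block diffeomorphism `C_N` -/
def CC (s0 : ℝ) (ns N : ℕ) (th : ℕ × ℤ → ℝ) (z : ℂ) : ℂ := z + bC s0 ns N th z

/-- `η_N = C_{N-1} ∘ .. ∘ C_0` -/
def etaN (s0 : ℝ) (ns : ℕ) (th : ℕ × ℤ → ℝ) : ℕ → ℂ → ℂ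
  | 0, z => z
  | (N + 1), z => CC s0 ns N th (etaN s0 ns th N z)

/-- `C_N^{-1}` on `St (sC s0 (N+1))` -/
def CinvC (s0 : ℝ) (ns N : ℕ) (th : ℕ × ℤ → ℝ) (w : ℂ) : ℂ :=
  Classical.epsilon fun z => ‖z - w‖ ≤ epsC s0 N ∧ CC s0 ns N th z = w

/-- Fourier coefficient -/
def fcC (h : ℂ → ℂ) (l : ℤ) : ℂ := ∫ x in (0 : ℝ)..1, h x * Complex.exp (-(2 * π * Complex.I * l * x))

/-- Fourier truncation -/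
def PlC (n : ℕ) (h : ℂ → ℂ) (z : ℂ) : ℂ :=
  ∑ l ∈ Finset.Icc (-(n : ℤ)) n, fcC h l * Complex.exp (2 * π * Complex.I * l * z)

def hC (s0 : ℝ) (ns N : ℕ) (th : ℕ × ℤ → ℝ) (κ : ℂ → ℂ) (z : ℂ) : ℂ := (1 + deriv (bC s0 ns N th) z) * κ z

/-- `κ_N` -/
def kapN (s0 : ℝ) (ns : ℕ) (th : ℕ × ℤ → ℝ) (κ : ℂ → ℂ) : ℕ → ℂ → ℂ
  | 0, z => κ z
  | (N + 1), w => hC s0 ns N th (kapN s0 ns th κ N) (CinvC s0 ns N th w)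
      - PlC (nC ns N) (hC s0 ns N th (kapN s0 ns th κ N)) (CinvC s0 ns N th w)

/-- coefficient functional: `δ_N ∑_j (cfC j h) φ_j = P_{≤ n_N} h` -/
def cfC (s0 : ℝ) (ns N : ℕ) (j : ℤ) (h : ℂ → ℂ) : ℂ :=
  (if j = 0 then fcC h 0 else if 0 < j then fcC h j + fcC h (-j) else Complex.I * (fcC h j - fcC h (-j))) *
    (Real.exp (2 * π * sC s0 N * |(j : ℝ)|) : ℂ) / (delC s0 ns N : ℂ)

/-- `B_{N,j}` -/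
def BC (s0 : ℝ) (ns : ℕ) (th : ℕ × ℤ → ℝ) (κ : ℂ → ℂ) (N : ℕ) (j : ℤ) : ℂ :=
  cfC s0 ns N j (hC s0 ns N th (kapN s0 ns th κ N))

/-- `∂B_{N,j}/∂th_{N,j}` -/
def dBC (s0 : ℝ) (ns : ℕ) (th : ℕ × ℤ → ℝ) (κ : ℂ → ℂ) (N : ℕ) (j : ℤ) : ℂ :=
  cfC s0 ns N j (fun z => (delC s0 ns N : ℂ) * deriv (phiC s0 N j) z * kapN s0 ns th κ N z)

/-- density `(15/16)(1-x²)²` on `[-1,1]` -/
def pC (x : ℝ) : ℝ := if |x| ≤ 1 then 15 / 16 * (1 - x ^ 2) ^ 2 else 0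

/-- `p'/p` -/
def rC (x : ℝ) : ℝ := -(4 * x) / (1 - x ^ 2)

/-- block `N` term of the weight -/
def wN (s0 : ℝ) (ns : ℕ) (th : ℕ × ℤ → ℝ) (κ : ℂ → ℂ) (N : ℕ) : ℂ :=
  - ∑ j ∈ frC ns N, (dBC s0 ns th κ N j + BC s0 ns th κ N j * (rC (th (N, j)) : ℂ))

/-- contraction factor -/
def qC (s0 : ℝ) (ns N : ℕ) : ℝ :=
  2 / (π * gamC s0 N) * (1 + 2 * π * nC ns N * epsC s0 N) * Real.exp (-(π * gamC s0 N * nC ns N))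

/-- bound for `κ_N` -/
def KC (s0 : ℝ) (ns N : ℕ) : ℝ := ∏ M ∈ Finset.range N, qC s0 ns M

/-- parameters in the cube -/
def Cu : Set (ℕ × ℤ → ℝ) := {th | ∀ i, |th i| ≤ 1}

/-! ### statements -/

/-- C1: choice of `n_*` -/
def ST_C1 : Prop := ∀ s0 : ℝ, 0 < s0 → s0 ≤ 1 → ∃ ns : ℕ, 1 ≤ ns ∧ Filter.Tendsto (KC s0 ns) Filter.atTop (nhds 0) ∧
  Summable (fun N => (dC ns N : ℝ) * (4 * π * nC ns N + 4 / delC s0 ns N * (1 + 2 * π * nC ns N * epsC s0 N)) * KC s0 ns N)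

/-- C2: one block -/
def ST_C2 : Prop := ∀ (s0 : ℝ) (ns N : ℕ), 0 < s0 → s0 ≤ 1 → 1 ≤ ns → ∀ th ∈ Cu,
  (Differentiable ℂ (bC s0 ns N th)) ∧ (∀ z, bC s0 ns N th (z + 1) = bC s0 ns N th z) ∧
  (∀ x : ℝ, (bC s0 ns N th x).im = 0) ∧
  (∀ z ∈ St (sC s0 N), ‖bC s0 ns N th z‖ ≤ epsC s0 N ∧ ‖deriv (bC s0 ns N th) z‖ ≤ 2 * π * nC ns N * epsC s0 N) ∧
  (∀ j ∈ frC ns N, ∀ z ∈ St (sC s0 N), ‖phiC s0 N j z‖ ≤ 1 ∧ ‖deriv (phiC s0 N j) z‖ ≤ 2 * π * nC ns N) ∧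
  (∀ z ∈ St (sC s0 N - gamC s0 N / 4), ‖deriv (bC s0 ns N th) z‖ ≤ 1 / 32) ∧
  (∀ w ∈ St (sC s0 (N + 1)), CinvC s0 ns N th w ∈ St (sC s0 N - gamC s0 N / 2) ∧
    ‖CinvC s0 ns N th w - w‖ ≤ epsC s0 N ∧ CC s0 ns N th (CinvC s0 ns N th w) = w ∧
    CinvC s0 ns N th (w + 1) = CinvC s0 ns N th w + 1) ∧
  DifferentiableOn ℂ (CinvC s0 ns N th) (St (sC s0 (N + 1))) ∧
  (∀ x : ℝ, CinvC s0 ns N th (CC s0 ns N th x) = x)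

/-- C3: the recursion: bounds and the block identity -/
def ST_C3 : Prop := ∀ (s0 : ℝ) (ns : ℕ), 0 < s0 → s0 ≤ 1 → 1 ≤ ns → ∀ th ∈ Cu, ∀ (κ : ℂ → ℂ) (K : ℝ), HB s0 κ →
  (∀ z ∈ St s0, ‖κ z‖ ≤ K) → ∀ N : ℕ,
  HB (sC s0 N) (kapN s0 ns th κ N) ∧ (∀ z ∈ St (sC s0 N), ‖kapN s0 ns th κ N z‖ ≤ KC s0 ns N * K) ∧
  (∀ j ∈ frC ns N, ‖BC s0 ns th κ N j‖ ≤ 2 / delC s0 ns N * (1 + 2 * π * nC ns N * epsC s0 N) * (KC s0 ns N * K) ∧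
    ‖dBC s0 ns th κ N j‖ ≤ 4 * π * nC ns N * (KC s0 ns N * K)) ∧
  (∀ y : ℝ, deriv (CC s0 ns N th) y * kapN s0 ns th κ N y =
    (delC s0 ns N : ℂ) * ∑ j ∈ frC ns N, BC s0 ns th κ N j * phiC s0 N j y + kapN s0 ns th κ (N + 1) (CC s0 ns N th y))

/-- C4: dependence on parameters: linearity, locality, continuity (also jointly with a rotation),
`κ_N` depends on the blocks `< N` only, `B_{N,j}` is affine in `th(N,j)` with derivative `dBC` -/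
def ST_C4 : Prop := ∀ (s0 : ℝ) (ns : ℕ), 0 < s0 → s0 ≤ 1 → 1 ≤ ns →
  (∀ th ∈ Cu, ∀ (κ κ' : ℂ → ℂ) (c : ℂ), HB s0 κ → HB s0 κ' → ∀ N j,
    BC s0 ns th (fun z => c * κ z + κ' z) N j = c * BC s0 ns th κ N j + BC s0 ns th κ' N j ∧
    dBC s0 ns th (fun z => c * κ z + κ' z) N j = c * dBC s0 ns th κ N j + dBC s0 ns th κ' N j) ∧
  (∀ th ∈ Cu, ∀ κ κ' : ℂ → ℂ, HB s0 κ → (∀ z ∈ St s0, κ z = κ' z) → ∀ N j,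
    BC s0 ns th κ N j = BC s0 ns th κ' N j ∧ dBC s0 ns th κ N j = dBC s0 ns th κ' N j) ∧
  (∀ κ, HB s0 κ → ∀ N j,
    ContinuousOn (fun x : (ℕ × ℤ → ℝ) × ℝ => BC s0 ns x.1 (fun z => κ (z - x.2)) N j) (Cu ×ˢ Set.univ) ∧
    ContinuousOn (fun x : (ℕ × ℤ → ℝ) × ℝ => dBC s0 ns x.1 (fun z => κ (z - x.2)) N j) (Cu ×ˢ Set.univ)) ∧
  (∀ κ, ∀ N, ∀ th th' : ℕ × ℤ → ℝ, (∀ M < N, ∀ j, th (M, j) = th' (M, j)) →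
    kapN s0 ns th κ N = kapN s0 ns th' κ N) ∧
  (∀ κ, HB s0 κ → ∀ N, ∀ j ∈ frC ns N, ∀ th : ℕ × ℤ → ℝ, (∀ M < N, ∀ i, |th (M, i)| ≤ 1) → ∀ t : ℝ,
    BC s0 ns (Function.update th (N, j) t) κ N j
      = BC s0 ns (Function.update th (N, j) 0) κ N j + t * dBC s0 ns th κ N j)

/-- C5: the limit `η` -/
def ST_C5 : Prop := ∀ (s0 : ℝ) (ns : ℕ), 0 < s0 → s0 ≤ 1 → 1 ≤ ns → ∃ η : (ℕ × ℤ → ℝ) → ℂ → ℂ,
  (∀ th ∈ Cu, Adm s0 (η th)) ∧ ContinuousOn (fun x : (ℕ × ℤ → ℝ) × ℂ => η x.1 x.2) (Cu ×ˢ St (s0 / 4)) ∧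
  (∀ th ∈ Cu, ∀ N, ∀ z ∈ St (s0 / 4), ‖etaN s0 ns th N z - η th z‖ ≤ s0 / 2 ^ (N + 8) ∧
    etaN s0 ns th N z ∈ St (s0 / 2)) ∧
  (∀ th ∈ Cu, ∀ x : ℝ, Filter.Tendsto (fun N => deriv (etaN s0 ns th N) x) Filter.atTop (nhds (deriv (η th) x))) ∧
  (∀ th ∈ Cu, ∀ N, ∀ x : ℝ, ‖deriv (etaN s0 ns th N) x‖ ≤ 2)

/-- C6: chain identity -/
def ST_C6 : Prop := ∀ (s0 : ℝ) (ns : ℕ), 0 < s0 → s0 ≤ 1 → 1 ≤ ns → ∀ th ∈ Cu, ∀ κ : ℂ → ℂ, HB s0 κ →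
  ∀ (N : ℕ) (y : ℝ), ∑ M ∈ Finset.range N, ∑ j ∈ frC ns M,
    deriv (fun t : ℝ => etaN s0 ns (Function.update th (M, j) t) N y) (th (M, j)) * BC s0 ns th κ M j
      = deriv (etaN s0 ns th N) y * κ y - kapN s0 ns th κ N (etaN s0 ns th N y)

/-- the product law on the cube -/
def nuC : Measure ℝ := volume.withDensity fun x => ENNReal.ofReal (pC x)

/-- C7: integration by parts with finitely many blocks (`μ` is the infinite product of `nuC`) -/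
def ST_C7 : Prop := IsProbabilityMeasure nuC ∧ ∀ (_ : IsProbabilityMeasure nuC) (s0 : ℝ) (ns : ℕ), 0 < s0 → s0 ≤ 1 → 1 ≤ ns →
  (∫ x, |rC x| ∂nuC) ≤ 2 ∧
  ∀ κ : ℂ → ℂ, HB s0 κ → ∀ (N K : ℕ) (y : Fin K → ℝ) (m : Fin K → ℤ),
    ∫ th, (2 * π * Complex.I * ∑ k, (m k : ℂ) * (deriv (etaN s0 ns th N) (y k) * κ (y k)
        - kapN s0 ns th κ N (etaN s0 ns th N (y k)))) *
        Complex.exp (2 * π * Complex.I * ∑ k, (m k : ℂ) * etaN s0 ns th N (y k))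
        ∂(Measure.infinitePi fun _ : ℕ × ℤ => nuC)
      = ∫ th, Complex.exp (2 * π * Complex.I * ∑ k, (m k : ℂ) * etaN s0 ns th N (y k)) *
          ∑ M ∈ Finset.range N, wN s0 ns th κ M ∂(Measure.infinitePi fun _ : ℕ × ℤ => nuC)

end

end Pool.Agent.Helper67.DO
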