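import Pool.Agent.Helper67.DO.BaseD

/-!
# Shared lemmas 2: continuity of the integrand of `II`
-/

namespace Pool.Agent.Helper67.DO

open scoped BigOperators Real
open MeasureTheory Filter Topology

noncomputable section

/-- uniform continuity of affine combinations with 1-periodic differences -/
theorem cont_comb {q : ℕ} (y : Sq) (hy : ∀ k, Continuous (y k)) (m : ℕ) (c : ℕ → (Fin q → ℝ) → ℝ)
    (hc : ∀ i, Continuous (c i)) (S : Set (Fin q → ℝ)) (u0 : Fin q → ℝ)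
    (hper : ∀ u ∈ S, ∀ x, (∑ i ∈ Finset.range m, c i u * y i (x + 1)) - (∑ i ∈ Finset.range m, c i u0 * y i (x + 1))
      = (∑ i ∈ Finset.range m, c i u * y i x) - (∑ i ∈ Finset.range m, c i u0 * y i x)) (ε : ℝ) (hε : 0 < ε) :
    ∀ᶠ u in 𝓝[S] u0, ∀ x, |(∑ i ∈ Finset.range m, c i u * y i x) - ∑ i ∈ Finset.range m, c i u0 * y i x| ≤ ε := by
  have hB : ∀ i, ∃ B : ℝ, 0 ≤ B ∧ ∀ x ∈ Set.Icc (0 : ℝ) 1, |y i x| ≤ B := by
    intro i
    obtain ⟨B, hB⟩ := (isCompact_Icc (a := (0 : ℝ)) (b := 1)).exists_bound_of_continuousOn (hy i).continuousOn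
    exact ⟨B, (norm_nonneg _).trans (hB 0 (by simp)), hB⟩
  choose B hB0 hB using hB
  have hcont : Continuous fun u => ∑ i ∈ Finset.range m, |c i u - c i u0| * B i :=
    continuous_finsetSum _ fun i _ => (((hc i).sub continuous_const).abs).mul continuous_const
  have h0 : ∑ i ∈ Finset.range m, |c i u0 - c i u0| * B i = 0 := by simp
  have hev : ∀ᶠ u in 𝓝 u0, ∑ i ∈ Finset.range m, |c i u - c i u0| * B i < ε := by
    have := hcont.tendsto u0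
    rw [h0] at this
    exact this.eventually (gt_mem_nhds hε)
  filter_upwards [mem_nhdsWithin_of_mem_nhds hev, self_mem_nhdsWithin] with u hu huS x
  -- periodicity
  set D : ℝ → ℝ := fun x => (∑ i ∈ Finset.range m, c i u * y i x) - ∑ i ∈ Finset.range m, c i u0 * y i x with hD
  have hp : Function.Periodic D 1 := fun x => hper u huS x
  have hx : D x = D (Int.fract x) := by
    have := hp.sub_int_mul_eq ⌊x⌋ (x := x)
    rw [mul_one] at this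
    rw [← this]
    rfl
  show |D x| ≤ ε
  rw [hx]
  have hf : Int.fract x ∈ Set.Icc (0 : ℝ) 1 := ⟨Int.fract_nonneg x, (Int.fract_lt_one x).le⟩
  have : D (Int.fract x) = ∑ i ∈ Finset.range m, (c i u - c i u0) * y i (Int.fract x) := by
    rw [hD]
    simp only
    rw [← Finset.sum_sub_distrib]
    exact Finset.sum_congr rfl fun i _ => by ring
  rw [this]
  calc |∑ i ∈ Finset.range m, (c i u - c i u0) * y i (Int.fract x)|
      ≤ ∑ i ∈ Finset.range m, |(c i u - c i u0) * y i (Int.fract x)| := Finset.abs_sum_le_sum_abs _ _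
    _ ≤ ∑ i ∈ Finset.range m, |c i u - c i u0| * B i := by
        refine Finset.sum_le_sum fun i _ => ?_
        rw [abs_mul]
        exact mul_le_mul_of_nonneg_left (hB i _ hf) (abs_nonneg _)
    _ ≤ ε := hu.le

theorem Phi_unif {n q : ℕ} (h2 : ST_D2) (hn : 1 ≤ n) {y : Sq} (hy : ∀ k, y k ∈ AA n) {u0 : Fin q → ℝ}
    (hu0 : u0 ∈ Set.Icc (0 : Fin q → ℝ) 1) (ε : ℝ) (hε : 0 < ε) :
    ∀ᶠ u in 𝓝[Set.Icc (0 : Fin q → ℝ) 1] u0, ∀ x, |Phi q y u x - Phi q y u0 x| ≤ ε := by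
  refine cont_comb y (fun k => (hy k).1.cont) (q + 1) (fun i => lam q i) (fun i => continuous_lam q i) _ u0 ?_ ε hε
  intro u hu x
  have a1 := ((h2.2.2.2.2.2.2.1 n hn q y hy u hu).1).per x
  have a2 := ((h2.2.2.2.2.2.2.1 n hn q y hy u0 hu0).1).per x
  unfold Phi at a1 a2
  linarith

theorem VV_per {n : ℕ} {K : ℝ} {v : ℝ → ℝ} (hv : v ∈ VV n K) (x : ℝ) : v (x + 1) = v x := by
  obtain ⟨⟨Φ, hΦ, Ψ, hΨ, rfl⟩, -⟩ := hv
  show K * (Φ (x + 1) - Ψ (x + 1)) = K * (Φ x - Ψ x)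
  rw [hΦ.1.per, hΨ.1.per]
  ring

theorem VV_nonneg {n : ℕ} {K : ℝ} {v : ℝ → ℝ} (hv : v ∈ VV n K) : 0 ≤ K := (abs_nonneg _).trans (hv.2 0)

theorem dPhi_unif {n q : ℕ} {y : Sq} (hy : ∀ k, y k ∈ AA n) {K : ℝ} {a : Fin q}
    (hK : ∀ u ∈ Set.Icc (0 : Fin q → ℝ) 1, dPhi q y a u ∈ VV n K) {u0 : Fin q → ℝ}
    (hu0 : u0 ∈ Set.Icc (0 : Fin q → ℝ) 1) (ε : ℝ) (hε : 0 < ε) :
    ∀ᶠ u in 𝓝[Set.Icc (0 : Fin q → ℝ) 1] u0, ∀ x, |dPhi q y a u x - dPhi q y a u0 x| ≤ ε := by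
  refine cont_comb y (fun k => (hy k).1.cont) (q + 1) (fun i => dlam q i a) (fun i => continuous_dlam q i a) _ u0 ?_ ε hε
  intro u hu x
  have a1 := VV_per (hK u hu) x
  have a2 := VV_per (hK u0 hu0) x
  unfold dPhi at a1 a2
  linarith

/-- properties of the pulled back vector field -/
theorem pull_prop {n : ℕ} {ρ s M K : ℝ} (hI : Inv n ρ s M) {Φ v : ℝ → ℝ} (hΦ : Φ ∈ AA n) (hv : v ∈ VV n K) :
    DifferentiableOn ℂ (pull ρ Φ v) (St s) ∧ (∀ z ∈ St s, pull ρ Φ v (z + 1) = pull ρ Φ v z) ∧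
      ∀ z ∈ St s, ‖pull ρ Φ v z‖ ≤ M * K := by
  have hρ : 0 < ρ := hI.pos.1.trans_le hI.pos.2.1
  have hsub : St ρ ⊆ St (2 * ρ) := St_mono (by linarith)
  have hm : ∀ w ∈ St s, cinv ρ Φ w ∈ St (2 * ρ) := fun w hw => hsub (hI.inv Φ hΦ w hw).1
  refine ⟨?_, ?_, ?_⟩
  · exact (hI.vhol K v hv).comp (hI.invhol Φ hΦ) hm
  · intro z hz
    unfold pull
    rw [(hI.inv Φ hΦ z hz).2.2, (hI.vbd K v hv _ (hm z hz)).1]
  · intro z hz
    exact (hI.vbd K v hv _ (hm z hz)).2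

/-- the integrand of `II` is a wedge in `BO` -/
theorem WWpull_BO {n q : ℕ} {ρ s M K : ℝ} (hI : Inv n ρ s M) {Φ : ℝ → ℝ} {v : Fin q → ℝ → ℝ} (hΦ : Φ ∈ AA n)
    (hv : ∀ a, v a ∈ VV n K) : BO q (St s) (WW fun a => pull ρ Φ (v a)) :=
  WW_BO (fun a => (pull_prop hI hΦ (hv a)).1) (fun a => (pull_prop hI hΦ (hv a)).2.1)
    (fun a => (pull_prop hI hΦ (hv a)).2.2)

/-- continuity of the integrand of `II` -/
theorem contII {n q : ℕ} {ρ s M s' : ℝ} (h2 : ST_D2) (hn : 1 ≤ n) (hI : Inv n ρ s M) (hs' : s' ≤ s)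
    {l : ((Fin q → ℂ) → ℂ) → ℂ} (hl : Fnl q (St s') l) {y : Sq} (hy : ∀ k, y k ∈ AA n) :
    ContinuousOn (fun u => l (WW fun a => pull ρ (Phi q y u) (dPhi q y a u))) (Set.Icc (0 : Fin q → ℝ) 1) := by
  obtain ⟨K, hK⟩ := h2.2.2.2.2.2.2.2 n hn q y hy
  have hΦ := h2.2.2.2.2.2.2.1 n hn q y hy
  obtain ⟨C, hC, H⟩ := hl.bdd
  intro u0 hu0
  rw [ContinuousWithinAt, Metric.tendsto_nhds]
  intro ε hε
  obtain ⟨δ, hδ, HW⟩ := WW_uc q (M * K) (ε / (2 * (C + 1))) (by positivity)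
  obtain ⟨δ', hδ', HS⟩ := hI.stab K δ hδ
  have e1 := Phi_unif h2 hn hy hu0 δ' hδ'
  have e2 : ∀ᶠ u in 𝓝[Set.Icc (0 : Fin q → ℝ) 1] u0, ∀ a : Fin q, ∀ x, |dPhi q y a u x - dPhi q y a u0 x| ≤ δ' :=
    eventually_all.2 fun a => dPhi_unif hy (fun u hu => hK u hu a) hu0 δ' hδ'
  filter_upwards [e1, e2, self_mem_nhdsWithin] with u he1 he2 hu
  have b1 : BO q (St s) (WW fun a => pull ρ (Phi q y u) (dPhi q y a u)) := WWpull_BO hI (hΦ u hu) (hK u hu)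
  have b2 : BO q (St s) (WW fun a => pull ρ (Phi q y u0) (dPhi q y a u0)) := WWpull_BO hI (hΦ u0 hu0) (hK u0 hu0)
  have b1' := b1.mono (St_mono hs')
  have b2' := b2.mono (St_mono hs')
  rw [dist_eq_norm, ← hl.sub' b1' b2']
  have h3 := H _ (b1'.sub b2') (ε / (2 * (C + 1))) (fun z hz => by
    have hz' : ∀ j, z j ∈ St s := fun j => St_mono hs' (hz j)
    refine HW _ _ z (fun i j => (pull_prop hI (hΦ u hu) (hK u hu i)).2.2 _ (hz' j))
      (fun i j => (pull_prop hI (hΦ u0 hu0) (hK u0 hu0 i)).2.2 _ (hz' j)) (fun i j => ?_)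
    exact (HS _ (hΦ u hu) _ (hΦ u0 hu0) _ (hK u hu i) _ (hK u0 hu0 i) he1 (he2 i)).1 _ (hz' j)) (by positivity)
  refine h3.trans_lt ?_
  have : C * (ε / (2 * (C + 1))) = ε / 2 * (C / (C + 1)) := by
    field_simp
  rw [this]
  have h4 : C / (C + 1) ≤ 1 := by
    rw [div_le_one (by positivity)]
    linarith
  nlinarith

theorem integrableII {n q : ℕ} {ρ s M s' : ℝ} (h2 : ST_D2) (hn : 1 ≤ n) (hI : Inv n ρ s M) (hs' : s' ≤ s)
    {l : ((Fin q → ℂ) → ℂ) → ℂ} (hl : Fnl q (St s') l) {y : Sq} (hy : ∀ k, y k ∈ AA n) :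
    IntegrableOn (fun u => l (WW fun a => pull ρ (Phi q y u) (dPhi q y a u))) (Set.Icc (0 : Fin q → ℝ) 1) volume :=
  (contII h2 hn hI hs' hl hy).integrableOn_compact isCompact_Icc

theorem II_add {n q : ℕ} {ρ s M s' : ℝ} (h2 : ST_D2) (hn : 1 ≤ n) (hI : Inv n ρ s M) (hs' : s' ≤ s)
    {l m : ((Fin q → ℂ) → ℂ) → ℂ} (hl : Fnl q (St s') l) (hm : Fnl q (St s') m) {y : Sq} (hy : ∀ k, y k ∈ AA n) :
    II ρ q (fun F => l F + m F) y = II ρ q l y + II ρ q m y := by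
  unfold II cub
  exact integral_add (integrableII h2 hn hI hs' hl hy) (integrableII h2 hn hI hs' hm hy)

theorem II_smul {q : ℕ} (ρ : ℝ) (c : ℂ) (l : ((Fin q → ℂ) → ℂ) → ℂ) (y : Sq) :
    II ρ q (fun F => c * l F) y = c * II ρ q l y := by
  unfold II cub
  exact integral_const_mul c _

/-- `II` only sees the functionals on `St s` -/
theorem II_congr {n q : ℕ} {ρ s M : ℝ} (h2 : ST_D2) (hn : 1 ≤ n) (hI : Inv n ρ s M)
    {l m : ((Fin q → ℂ) → ℂ) → ℂ} (h : ∀ F, BO q (St s) F → l F = m F) {y : Sq} (hy : ∀ k, y k ∈ AA n) :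
    II ρ q l y = II ρ q m y := by
  unfold II cub
  obtain ⟨K, hK⟩ := h2.2.2.2.2.2.2.2 n hn q y hy
  refine setIntegral_congr_fun measurableSet_Icc fun u hu => ?_
  exact h _ (WWpull_BO hI (h2.2.2.2.2.2.2.1 n hn q y hy u hu) (hK u hu))

end

end Pool.Agent.Helper67.DO
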