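import Mathlib

/-!
# MP_d07457_gt: definitions used in the final statement

`DiffOmega` is the group of orientation preserving real analytic diffeomorphisms of `S^1 = ℝ/ℤ`, with the
inductive limit topology of the problem.
-/

namespace Pool.Agent.Helper67.DO

open scoped BigOperators Real

noncomputable section

/-- lifts of orientation preserving real analytic diffeomorphisms of `ℝ/ℤ` -/
structure IsLift (Φ : ℝ → ℝ) : Prop where
  an : ∀ x, AnalyticAt ℝ Φ x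
  per : ∀ x, Φ (x + 1) = Φ x + 1
  pos : ∀ x, 0 < deriv Φ x

/-- `F` is a lift of the permutation `f` of the circle `ℝ/ℤ` -/
def LiftOf (f : Equiv.Perm UnitAddCircle) (F : ℝ → ℝ) : Prop :=
  IsLift F ∧ ∀ x : ℝ, f (x : UnitAddCircle) = ((F x : ℝ) : UnitAddCircle)

theorem IsLift.cont {Φ : ℝ → ℝ} (h : IsLift Φ) : Continuous Φ :=
  continuous_iff_continuousAt.2 fun x => (h.an x).continuousAt

theorem IsLift.diff {Φ : ℝ → ℝ} (h : IsLift Φ) : Differentiable ℝ Φ :=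
  fun x => (h.an x).differentiableAt

theorem IsLift.mono {Φ : ℝ → ℝ} (h : IsLift Φ) : StrictMono Φ := strictMono_of_deriv_pos h.pos

theorem IsLift.perInt {Φ : ℝ → ℝ} (h : IsLift Φ) (k : ℤ) (x : ℝ) : Φ (x + k) = Φ x + k := by
  induction k using Int.induction_on with
  | zero => simp
  | succ i ih => push_cast at ih ⊢; rw [← add_assoc, h.per, ih]; ring
  | pred i ih =>
    have := h.per (x + ((-(i : ℤ) - 1 : ℤ) : ℝ))
    push_cast at ih this ⊢
    have e : x + (-(i : ℝ) - 1) + 1 = x + -(i : ℝ) := by ring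
    rw [e, ih] at this
    linarith

theorem isLift_id : IsLift (fun x => x) where
  an _ := analyticAt_id
  per _ := rfl
  pos x := by simp

theorem IsLift.comp {Φ Ψ : ℝ → ℝ} (h : IsLift Φ) (k : IsLift Ψ) : IsLift (fun x => Φ (Ψ x)) where
  an x := (h.an (Ψ x)).comp (k.an x)
  per x := by rw [k.per, h.per]
  pos x := by
    have := (h.diff (Ψ x)).hasDerivAt.comp x (k.diff x).hasDerivAt
    have e : deriv (fun x => Φ (Ψ x)) x = deriv Φ (Ψ x) * deriv Ψ x := this.deriv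
    rw [e]
    exact mul_pos (h.pos _) (k.pos _)

theorem IsLift.surj {Φ : ℝ → ℝ} (h : IsLift Φ) : Function.Surjective Φ := by
  intro y
  have h0 : ∃ k : ℤ, Φ 0 + k ≤ y := by
    obtain ⟨k, hk⟩ := exists_int_lt (y - Φ 0)
    exact ⟨k, by linarith⟩
  have h1 : ∃ k : ℤ, y ≤ Φ 0 + k := by
    obtain ⟨k, hk⟩ := exists_int_gt (y - Φ 0)
    exact ⟨k, by linarith⟩
  obtain ⟨a, ha⟩ := h0
  obtain ⟨b, hb⟩ := h1
  have ha' : Φ (a : ℝ) ≤ y := by
    have := h.perInt a 0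
    rw [zero_add] at this
    linarith
  have hb' : y ≤ Φ (b : ℝ) := by
    have := h.perInt b 0
    rw [zero_add] at this
    linarith
  exact mem_range_of_exists_le_of_exists_ge h.cont ⟨_, ha'⟩ ⟨_, hb'⟩

theorem IsLift.exists_inv {Φ : ℝ → ℝ} (h : IsLift Φ) :
    ∃ Ψ : ℝ → ℝ, IsLift Ψ ∧ (∀ x, Φ (Ψ x) = x) ∧ ∀ x, Ψ (Φ x) = x := by
  obtain ⟨Ψ, hΨ⟩ := h.surj.hasRightInverse
  have hr : ∀ x, Φ (Ψ x) = x := hΨ
  have hl : ∀ x, Ψ (Φ x) = x := fun x => h.mono.injective (hr _)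
  have han : ∀ x, AnalyticAt ℝ Ψ x := by
    intro x
    have h1 := (h.an (Ψ x)).analyticAt_localInverse (h.pos (Ψ x)).ne'
    rw [hr x] at h1
    refine h1.congr ?_
    have h2 := (h.an (Ψ x)).hasStrictDerivAt.eventually_right_inverse (h.pos (Ψ x)).ne'
    rw [hr x] at h2
    filter_upwards [h2] with y hy
    exact h.mono.injective (by rw [hy, hr])
  refine ⟨Ψ, ⟨han, ?_, ?_⟩, hr, hl⟩
  · intro x
    apply h.mono.injective
    rw [hr, h.per, hr]
  · intro x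
    have h1 := (h.diff (Ψ x)).hasDerivAt.comp x (han x).differentiableAt.hasDerivAt
    have h2 : HasDerivAt (Φ ∘ Ψ) 1 x := by
      have : (Φ ∘ Ψ) = fun x => x := funext hr
      rw [this]
      exact hasDerivAt_id' x
    have h3 := h1.unique h2
    have h4 := h.pos (Ψ x)
    by_contra hc
    have : deriv Φ (Ψ x) * deriv Ψ x ≤ 0 := mul_nonpos_of_nonneg_of_nonpos h4.le (not_lt.1 hc)
    linarith

/-- `Diff^ω_+(S^1)`: permutations of `ℝ/ℤ` with a real analytic lift of positive derivative -/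
def DiffOmega : Subgroup (Equiv.Perm UnitAddCircle) where
  carrier := {f | ∃ F, LiftOf f F}
  one_mem' := ⟨fun x => x, isLift_id, fun x => rfl⟩
  mul_mem' := by
    rintro f g ⟨F, hF, hf⟩ ⟨H, hH, hg⟩
    exact ⟨fun x => F (H x), hF.comp hH, fun x => by rw [Equiv.Perm.mul_apply, hg, hf]⟩
  inv_mem' := by
    rintro f ⟨F, hF, hf⟩
    obtain ⟨Ψ, hΨ, hr, -⟩ := hF.exists_inv
    refine ⟨Ψ, hΨ, fun x => ?_⟩
    rw [Equiv.Perm.inv_eq_iff_eq, hf, hr]

/-- `F` is a lift of `f` -/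
def LiftG (f : DiffOmega) (F : ℝ → ℝ) : Prop := LiftOf (f : Equiv.Perm UnitAddCircle) F

theorem exists_liftG (f : DiffOmega) : ∃ F, LiftG f F := f.2

/-- `Fc` extends `F` holomorphically to the strip `|Im z| < 1/n`, and `Fc - id` is bounded -/
def HasExt (n : ℕ) (F : ℝ → ℝ) (Fc : ℂ → ℂ) : Prop :=
  DifferentiableOn ℂ Fc {z | |z.im| < 1 / n} ∧ (∀ x : ℝ, Fc x = (F x : ℂ)) ∧
    ∃ C : ℝ, ∀ z : ℂ, |z.im| < 1 / n → ‖Fc z - z‖ ≤ C

/-- the set `G_n` -/
def Gn (n : ℕ) : Set DiffOmega := {f | ∃ F Fc, LiftG f F ∧ HasExt n F Fc}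

/-- `d_n(f,g) ≤ ε` -/
def DnLe (n : ℕ) (ε : ℝ) (f g : DiffOmega) : Prop :=
  ∃ F Fc H Hc, LiftG f F ∧ HasExt n F Fc ∧ LiftG g H ∧ HasExt n H Hc ∧
    ∀ z : ℂ, |z.im| < 1 / n → ‖Fc z - Hc z‖ ≤ ε

theorem DnLe.mono {n : ℕ} {ε ε' : ℝ} {f g : DiffOmega} (h : DnLe n ε f g) (he : ε ≤ ε') : DnLe n ε' f g := by
  obtain ⟨F, Fc, H, Hc, a, b, c, d, e⟩ := h
  exact ⟨F, Fc, H, Hc, a, b, c, d, fun z hz => (e z hz).trans he⟩

/-- the inductive limit topology: `U` is open iff `U ∩ G_n` is `d_n`-open for every `n ≥ 1` -/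
instance : TopologicalSpace DiffOmega where
  IsOpen U := ∀ n : ℕ, 1 ≤ n → ∀ f ∈ U, f ∈ Gn n → ∃ ε : ℝ, 0 < ε ∧ ∀ g ∈ Gn n, DnLe n ε f g → g ∈ U
  isOpen_univ := fun n _ f _ _ => ⟨1, one_pos, fun g _ _ => trivial⟩
  isOpen_inter := by
    intro U V hU hV n hn f hf hfn
    obtain ⟨ε, he, h1⟩ := hU n hn f hf.1 hfn
    obtain ⟨ε', he', h2⟩ := hV n hn f hf.2 hfn
    refine ⟨min ε ε', lt_min he he', fun g hg hfg => ⟨h1 g hg (hfg.mono (min_le_left _ _)), h2 g hg (hfg.mono (min_le_right _ _))⟩⟩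
  isOpen_sUnion := by
    intro S hS n hn f hf hfn
    obtain ⟨U, hU, hfU⟩ := hf
    obtain ⟨ε, he, h1⟩ := hS U hU n hn f hfU hfn
    exact ⟨ε, he, fun g hg hfg => ⟨U, hU, h1 g hg hfg⟩⟩

/-- the group coboundary on inhomogeneous real cochains with trivial action -/
def cobd (p : ℕ) (c : (Fin p → DiffOmega) → ℝ) (g : Fin (p + 1) → DiffOmega) : ℝ :=
  c (fun i => g i.succ) + ∑ j : Fin (p + 1), (-1 : ℝ) ^ ((j : ℕ) + 1) * c (Fin.contractNth j (· * ·) g)

/-- a lift of `f` -/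
def lft (f : DiffOmega) : ℝ → ℝ := (exists_liftG f).choose

/-- `τ(F) = ∫ (F(x) - x) dx` -/
def tau (F : ℝ → ℝ) : ℝ := ∫ x in (0 : ℝ)..1, (F x - x)

/-- Euler cocycle: `e(f,g) = τ(F) + τ(H) - τ(F∘H)` for lifts `F`, `H` of `f`, `g` -/
def eul (f g : DiffOmega) : ℝ := tau (lft f) + tau (lft g) - tau (fun x => lft f (lft g x))

/-- Bott-Thurston (Godbillon-Vey) cocycle: `∫ log D(f∘g) d(log Dg)` -/
def gvc (f g : DiffOmega) : ℝ :=
  ∫ x in (0 : ℝ)..1, Real.log (deriv (fun t => lft f (lft g t)) x) * deriv (fun t => Real.log (deriv (lft g) t)) x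

/-- `m`-th cup power of a 2-cochain -/
def cupPow (κ : DiffOmega → DiffOmega → ℝ) (m : ℕ) (g : Fin (2 * m) → DiffOmega) : ℝ :=
  ∏ i : Fin m, κ (g ⟨2 * i, by omega⟩) (g ⟨2 * i + 1, by omega⟩)

/-- the 2-cochain on pairs given by a function of two variables -/
def two (κ : DiffOmega → DiffOmega → ℝ) : (Fin 2 → DiffOmega) → ℝ := fun g => κ (g 0) (g 1)

/-- the final statement -/
def ST_FINAL : Prop :=
  -- the Euler cocycle is `δτ` on lifts, `τ` is equivariant for integer translations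
  (∀ (f g : DiffOmega) (F H : ℝ → ℝ), LiftG f F → LiftG g H → eul f g = tau F + tau H - tau (fun x => F (H x))) ∧
  (∀ (F : ℝ → ℝ) (k : ℤ), IsLift F → tau (fun x => F x + k) = tau F + k) ∧
  (∀ (f g : DiffOmega) (F H : ℝ → ℝ), LiftG f F → LiftG g H → gvc f g =
    ∫ x in (0 : ℝ)..1, Real.log (deriv (fun t => F (H t)) x) * deriv (fun t => Real.log (deriv H t)) x) ∧
  -- `e` and `gv` are continuous cocycles
  Continuous (two eul) ∧ Continuous (two gvc) ∧ cobd 2 (two eul) = 0 ∧ cobd 2 (two gvc) = 0 ∧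
  -- even degrees: every continuous cocycle is cohomologous to `x e^(m+1) + y gv^(m+1)`
  (∀ (m : ℕ) (c : (Fin (2 * m + 2) → DiffOmega) → ℝ), Continuous c → cobd (2 * m + 2) c = 0 →
    ∃ (x y : ℝ) (b : (Fin (2 * m + 1) → DiffOmega) → ℝ), Continuous b ∧
      ∀ g : Fin (2 * m + 2) → DiffOmega,
        c g = x * cupPow eul (m + 1) g + y * cupPow gvc (m + 1) g + cobd (2 * m + 1) b g) ∧
  -- odd degrees: every continuous cocycle is a continuous coboundary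
  (∀ (m : ℕ) (c : (Fin (2 * m + 1) → DiffOmega) → ℝ), Continuous c → cobd (2 * m + 1) c = 0 →
    ∃ b : (Fin (2 * m) → DiffOmega) → ℝ, Continuous b ∧ c = cobd (2 * m) b)

end

end Pool.Agent.Helper67.DO
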