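import Pool.Agent.Helper67.DO.DefsE
import Pool.Agent.Helper67.DO.RDefs

/-!
# MP_d07457_gt, group side: levels of diffeomorphisms, smoothing, mixed cochains
(sections 1, 3, 4, 5, 6 of h67_domega_proof.md)

Sequences `ℕ → ℝ → ℝ` are used instead of tuples: a `p`-cochain depends on the entries `0..p` only.
-/

namespace Pool.Agent.Helper67.DO

open scoped BigOperators Real
open MeasureTheory

noncomputable section

/-- Fourier coefficient of a 1-periodic real function -/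
def fco (v : ℝ → ℝ) (l : ℤ) : ℂ := ∫ x in (0 : ℝ)..1, (v x : ℂ) * Complex.exp (-(2 * π * Complex.I * l * x))

/-- complex extension of a 1-periodic real analytic function by its Fourier series -/
def four (v : ℝ → ℝ) (z : ℂ) : ℂ := ∑' l : ℤ, fco v l * Complex.exp (2 * π * Complex.I * l * z)

/-- complex extension of a lift -/
def cx (Φ : ℝ → ℝ) (z : ℂ) : ℂ := z + four (fun x => Φ x - x) z

/-- level `n` of lifts -/
def AA (n : ℕ) : Set (ℝ → ℝ) := {Φ | IsLift Φ ∧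
  (∀ l : ℤ, l ≠ 0 → ‖fco (fun x => Φ x - x) l‖ ≤ n * Real.exp (-(2 * π * |(l : ℝ)| / n))) ∧
  ∀ x, 1 / (n : ℝ) ≤ deriv Φ x}

/-- directions `K (Φ - Ψ)`, bounded by `K` -/
def VV (n : ℕ) (K : ℝ) : Set (ℝ → ℝ) :=
  {v | (∃ Φ ∈ AA n, ∃ Ψ ∈ AA n, v = fun x => K * (Φ x - Ψ x)) ∧ ∀ x, |v x| ≤ K}

/-- complex inverse of a lift on a strip (values in `St ρ`) -/
def cinv (ρ : ℝ) (Φ : ℝ → ℝ) (w : ℂ) : ℂ := Classical.epsilon fun z => z ∈ St ρ ∧ cx Φ z = w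

/-- the vector field `v Φ^{-1}` on a strip -/
def pull (ρ : ℝ) (Φ v : ℝ → ℝ) (w : ℂ) : ℂ := four v (cinv ρ Φ w)

/-- sequences of functions -/
abbrev Sq := ℕ → ℝ → ℝ

/-- omit the `i`-th entry -/
def rm (i : ℕ) (y : Sq) : Sq := fun k => if k < i then y k else y (k + 1)

/-- homogeneous coboundary of a `p`-cochain -/
def dlt (p : ℕ) (C : Sq → ℂ) (y : Sq) : ℂ := ∑ i ∈ Finset.range (p + 2), (-1 : ℂ) ^ i * C (rm i y)

/-- level `n` cochain of degree `p` (complex valued): depends on the entries `0..p`, uniformly continuous,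
invariant under integer translations in each entry and under simultaneous right translation -/
structure LC (n p : ℕ) (C : Sq → ℂ) : Prop where
  dep : ∀ y y' : Sq, (∀ k ≤ p, y k = y' k) → C y = C y'
  uc : ∀ ε : ℝ, 0 < ε → ∃ δ : ℝ, 0 < δ ∧ ∀ y y' : Sq, (∀ k, y k ∈ AA n) → (∀ k, y' k ∈ AA n) →
    (∀ k ≤ p, ∀ x, |y k x - y' k x| ≤ δ) → ‖C y - C y'‖ ≤ ε
  zinv : ∀ (y : Sq) (t : ℕ → ℤ), (∀ k, y k ∈ AA n) → C (fun k x => y k x + t k) = C y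
  rinv : ∀ (y : Sq) (g : ℝ → ℝ), IsLift g → (∀ k, y k ∈ AA n) → (∀ k, (fun x => y k (g x)) ∈ AA n) →
    C (fun k x => y k (g x)) = C y

/-- `C` is a cocycle at level `n` -/
def CocL (n p : ℕ) (C : Sq → ℂ) : Prop := ∀ y : Sq, (∀ k, y k ∈ AA n) → dlt p C y = 0

/-! ### simplices -/

/-- barycentric coordinates of the cubical parametrization of the `q`-simplex -/
def lam (q : ℕ) (i : ℕ) (u : Fin q → ℝ) : ℝ :=
  (∏ k : Fin q, if (k : ℕ) < i then u k else 1) * (∏ k : Fin q, if (k : ℕ) = i then 1 - u k else 1)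

/-- derivative of `lam` in the direction `a` -/
def dlam (q : ℕ) (i : ℕ) (a : Fin q) (u : Fin q → ℝ) : ℝ := deriv (fun t => lam q i (Function.update u a t)) (u a)

/-- the point of the simplex `[y_0..y_q]` -/
def Phi (q : ℕ) (y : Sq) (u : Fin q → ℝ) : ℝ → ℝ := fun x => ∑ i ∈ Finset.range (q + 1), lam q i u * y i x

/-- its partial derivatives -/
def dPhi (q : ℕ) (y : Sq) (a : Fin q) (u : Fin q → ℝ) : ℝ → ℝ :=
  fun x => ∑ i ∈ Finset.range (q + 1), dlam q i a u * y i x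

/-- `(x,..,x,z_0,z_1,..)` with `j+1` copies of `x` -/
def Tp (j : ℕ) (x : ℝ → ℝ) (z : Sq) : Sq := fun k => if k ≤ j then x else z (k - (j + 1))

/-- directions `d_{σ 0}Φ,..,d_{σ (j-1)}Φ` as a sequence -/
def dirs {q : ℕ} (y : Sq) (u : Fin q → ℝ) (σ : Fin q → Fin q) : Sq :=
  fun b => if h : b < q then dPhi q y (σ ⟨b, h⟩) u else 0

/-- `f_j` : the form `∑ sgn c_j(Φ_u^{(j+1)},z; d_σ Φ_u)` on the `j`-simplex of `y` -/
def fF (c : ℕ → Sq → Sq → ℂ) (j : ℕ) (y z : Sq) (u : Fin j → ℝ) : ℂ :=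
  ∑ σ : Equiv.Perm (Fin j), ((Equiv.Perm.sign σ : ℤ) : ℂ) * c j (Tp j (Phi j y u) z) (dirs y u σ)

/-- `g_{j+1}` : the form `∑ sgn c_{j+1}(Φ_u^{(j+1)},z; d_σ Φ_u)` on the `(j+1)`-simplex of `y` -/
def gF (c : ℕ → Sq → Sq → ℂ) (j : ℕ) (y z : Sq) (u : Fin (j + 1) → ℝ) : ℂ :=
  ∑ σ : Equiv.Perm (Fin (j + 1)), ((Equiv.Perm.sign σ : ℤ) : ℂ) *
    c (j + 1) (Tp j (Phi (j + 1) y u) z) (dirs y u σ)

/-- integral over the cube -/
def cub (q : ℕ) (f : (Fin q → ℝ) → ℂ) : ℂ := ∫ u in Set.Icc (0 : Fin q → ℝ) 1, f u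

/-- mixed cochain of degree `p` at level `n` (section 5) -/
structure MC (n p : ℕ) (c : ℕ → Sq → Sq → ℂ) : Prop where
  depΦ : ∀ j ≤ p, ∀ y y' v : Sq, (∀ k ≤ p, y k = y' k) → c j y v = c j y' v
  depv : ∀ j ≤ p, ∀ y v v' : Sq, (∀ b < j, v b = v' b) → c j y v = c j y v'
  uc : ∀ j ≤ p, ∀ K : ℝ, ∀ ε : ℝ, 0 < ε → ∃ δ : ℝ, 0 < δ ∧ ∀ y y' v v' : Sq, (∀ k, y k ∈ AA n) → (∀ k, y' k ∈ AA n) →
    (∀ b, v b ∈ VV n K) → (∀ b, v' b ∈ VV n K) → (∀ k ≤ p, ∀ x, |y k x - y' k x| ≤ δ) →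
    (∀ b < j, ∀ x, |v b x - v' b x| ≤ δ) → ‖c j y v - c j y' v'‖ ≤ ε
  tinv : ∀ j ≤ p, ∀ (y v : Sq) (t s : ℕ → ℝ) (K : ℝ), (∀ k, y k ∈ AA n) → (∀ b, v b ∈ VV n K) →
    c j (fun k x => y k x + t k) (fun b x => v b x + s b) = c j y v
  rinv : ∀ j ≤ p, ∀ (y v : Sq) (g : ℝ → ℝ) (K : ℝ), IsLift g → (∀ k, y k ∈ AA n) → (∀ b, v b ∈ VV n K) →
    (∀ k, (fun x => y k (g x)) ∈ AA n) → (∀ b, (fun x => v b (g x)) ∈ VV n K) →
    c j (fun k x => y k (g x)) (fun b x => v b (g x)) = c j y v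
  m2 : ∀ j ≤ p, ∀ (y v : Sq) (K : ℝ), (∀ k, y k ∈ AA n) → (∀ b, v b ∈ VV n K) →
    ∑ i ∈ Finset.Icc j (p + 1), (-1 : ℂ) ^ i * c j (rm i y) v = 0
  m3 : ∀ j < p, ∀ y z : Sq, (∀ k, y k ∈ AA n) → (∀ k, z k ∈ AA n) →
    ∑ i ∈ Finset.range (j + 2), (-1 : ℂ) ^ i * cub j (fF c j (rm i y) z) = (-1 : ℂ) ^ j * cub (j + 1) (gF c j y z)

/-- the cochain `B` of Lemma 5.1 -/
def BB (p : ℕ) (c : ℕ → Sq → Sq → ℂ) (y : Sq) : ℂ :=
  ∑ j ∈ Finset.range p, cub j (fF c j y (fun k => y (k + j)))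

/-- the integral of a Lie cochain over simplices -/
def II (ρ : ℝ) (q : ℕ) (l : ((Fin q → ℂ) → ℂ) → ℂ) (y : Sq) : ℂ :=
  cub q (fun u => l (WW fun a => pull ρ (Phi q y u) (dPhi q y a u)))

/-! ### smoothing data -/

/-- bounded holomorphic 1-periodic functions on a strip -/
structure HB (s : ℝ) (κ : ℂ → ℂ) : Prop where
  hol : DifferentiableOn ℂ κ (St s)
  per : ∀ z ∈ St s, κ (z + 1) = κ z
  bdd : ∃ B : ℝ, ∀ z ∈ St s, ‖κ z‖ ≤ B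

/-- admissible left factors: holomorphic near the real line, close to the identity -/
structure Adm (s0 : ℝ) (η : ℂ → ℂ) : Prop where
  hol : DifferentiableOn ℂ η (St (s0 / 4))
  per : ∀ z ∈ St (s0 / 4), η (z + 1) = η z + 1
  real : ∀ x : ℝ, (η x).im = 0
  near : ∀ z ∈ St (s0 / 4), ‖η z - z‖ ≤ s0 / 256

/-- smoothing data (the output of the smoothing theorem SM) -/
structure SMD (s0 : ℝ) (Ω : Type) [TopologicalSpace Ω] [MeasurableSpace Ω] (P : Measure Ω)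
    (η : Ω → ℂ → ℂ) (w : Ω → (ℂ → ℂ) → ℂ) (C : ℝ) : Prop where
  adm : ∀ ω, Adm s0 (η ω)
  cont : ContinuousOn (fun x : Ω × ℂ => η x.1 x.2) (Set.univ ×ˢ St (s0 / 4))
  lin : ∀ (κ κ' : ℂ → ℂ) (c : ℂ), HB s0 κ → HB s0 κ' →
    ∀ᵐ ω ∂P, w ω (fun z => c * κ z + κ' z) = c * w ω κ + w ω κ'
  ext : ∀ κ κ' : ℂ → ℂ, HB s0 κ → (∀ z ∈ St s0, κ z = κ' z) → ∀ᵐ ω ∂P, w ω κ = w ω κ'
  int : ∀ κ, HB s0 κ → Integrable (fun ω => w ω κ) P
  bdd : ∀ κ (B : ℝ), HB s0 κ → (∀ z ∈ St s0, ‖κ z‖ ≤ B) → ∫ ω, ‖w ω κ‖ ∂P ≤ C * B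
  ibp : ∀ κ, HB s0 κ → ∀ (K : ℕ) (y : Fin K → ℝ) (m : Fin K → ℤ),
    ∫ ω, (2 * π * Complex.I * ∑ k, (m k : ℂ) * deriv (η ω) (y k) * κ (y k)) *
        Complex.exp (2 * π * Complex.I * ∑ k, (m k : ℂ) * η ω (y k)) ∂P
      = ∫ ω, Complex.exp (2 * π * Complex.I * ∑ k, (m k : ℂ) * η ω (y k)) * w ω κ ∂P
  /-- translations of the vector field depend measurably on the translation -/
  meas : ∀ κ, HB s0 κ → Measurable (fun x : Ω × ℝ => w x.1 (fun z => κ (z - x.2)))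

/-- left multiplication by a random element followed by a rotation -/
def gg {Ω : Type} (η : Ω → ℂ → ℂ) (ω : Ω × ℝ) (Φ : ℝ → ℝ) : ℝ → ℝ := fun x => (η ω.1 ((Φ x + ω.2 : ℝ) : ℂ)).re

/-- the rotated weight -/
def ww {Ω : Type} (w : Ω → (ℂ → ℂ) → ℂ) (ω : Ω × ℝ) (κ : ℂ → ℂ) : ℂ := w ω.1 (fun z => κ (z - ω.2))

/-- the law of `(ω,c)` -/
def PP {Ω : Type} [MeasurableSpace Ω] (P : Measure Ω) : Measure (Ω × ℝ) := P.prod (volume.restrict (Set.Icc 0 1))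

/-- the smoothed cochains `C_j` of section 4 -/
def CJ {Ω : Type} [MeasurableSpace Ω] (P : Measure Ω) (η : Ω → ℂ → ℂ) (w : Ω → (ℂ → ℂ) → ℂ)
    (ρ : ℝ) (p : ℕ) (C : Sq → ℂ) (j : ℕ) (y v : Sq) : ℂ :=
  ∫ ω : Fin (p + 1) → Ω × ℝ, C (fun k => if h : k < p + 1 then gg η (ω ⟨k, h⟩) (y k) else y k) *
    ∏ b : Fin (p + 1), (if (b : ℕ) < j then ww w (ω b) (pull ρ (y b) (v b)) else 1) ∂(Measure.pi fun _ => PP P)

/-! ### the two basic cocycles -/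

def thH (Φ Ψ : ℝ → ℝ) : ℝ := (1 / 2) * ∫ x in (0 : ℝ)..1, (Φ x - Ψ x) * (deriv Φ x + deriv Ψ x)

def eH (a b c : ℝ → ℝ) : ℝ := thH a b + thH b c - thH a c

def gvH (a b c : ℝ → ℝ) : ℝ := ∫ x in (0 : ℝ)..1, (Real.log (deriv a x) - Real.log (deriv c x)) *
  deriv (fun t => Real.log (deriv b t) - Real.log (deriv c t)) x

/-- homogeneous cup powers -/
def ePow (m : ℕ) (y : Sq) : ℂ := ∏ i ∈ Finset.range m, (eH (y (2 * i)) (y (2 * i + 1)) (y (2 * i + 2)) : ℂ)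

def gvPow (m : ℕ) (y : Sq) : ℂ := ∏ i ∈ Finset.range m, (gvH (y (2 * i)) (y (2 * i + 1)) (y (2 * i + 2)) : ℂ)

end

end Pool.Agent.Helper67.DO
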