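import Mathlib

/-!
# MP_d07457_gt, Lie side: functions and functionals (sections 6-12 of h67_domega_proof.md)

`PU q U` = points of `U^q`; `BO q U F` : `F` is bounded holomorphic, 1-periodic in each variable and
alternating on `U^q`; `Fnl q U α` : `α` is a bounded linear functional on these functions.
-/

namespace Pool.Agent.Helper67.DO

open scoped BigOperators Real

noncomputable section

/-- points of `U^q` -/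
def PU (q : ℕ) (U : Set ℂ) : Set (Fin q → ℂ) := {z | ∀ i, z i ∈ U}

/-- bounded alternating 1-periodic holomorphic functions of `q` variables in `U` -/
structure BO (q : ℕ) (U : Set ℂ) (F : (Fin q → ℂ) → ℂ) : Prop where
  hol : DifferentiableOn ℂ F (PU q U)
  per : ∀ z ∈ PU q U, ∀ i, F (Function.update z i (z i + 1)) = F z
  alt : ∀ z ∈ PU q U, ∀ σ : Equiv.Perm (Fin q), F (fun i => z (σ i)) = ((Equiv.Perm.sign σ : ℤ) : ℂ) * F z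
  bdd : ∃ C : ℝ, ∀ z ∈ PU q U, ‖F z‖ ≤ C

/-- bounded linear functionals on `BO q U` -/
structure Fnl (q : ℕ) (U : Set ℂ) (α : ((Fin q → ℂ) → ℂ) → ℂ) : Prop where
  add : ∀ F G, BO q U F → BO q U G → α (fun z => F z + G z) = α F + α G
  smul : ∀ (c : ℂ) F, BO q U F → α (fun z => c * F z) = c * α F
  bdd : ∃ C : ℝ, 0 ≤ C ∧ ∀ F, BO q U F → ∀ M : ℝ, (∀ z ∈ PU q U, ‖F z‖ ≤ M) → 0 ≤ M → ‖α F‖ ≤ C * M

/-- the Lie algebra differential on chains: `(∂F)(z) = ∑ (-1)^i ∂_t F(z_0..z_i,t,z_{i+1}..)` at `t = z_i` -/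
def dd (q : ℕ) (F : (Fin (q + 1) → ℂ) → ℂ) (z : Fin q → ℂ) : ℂ :=
  ∑ i : Fin q, (-1 : ℂ) ^ (i : ℕ) * deriv (fun t : ℂ => F (i.succ.insertNth t z)) (z i)

/-- `(a ∧ F)(z) = ∑ (-1)^i a(z_i) F(z without z_i)` -/
def wd (a : ℂ → ℂ) (q : ℕ) (F : (Fin q → ℂ) → ℂ) (z : Fin (q + 1) → ℂ) : ℂ :=
  ∑ i : Fin (q + 1), (-1 : ℂ) ^ (i : ℕ) * a (z i) * F (i.removeNth z)

/-- `W(v_1..v_q)(z) = det (v_i (z_j))` -/
def WW {q : ℕ} (v : Fin q → ℂ → ℂ) (z : Fin q → ℂ) : ℂ := Matrix.det (Matrix.of fun i j => v i (z j))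

/-- translation of all variables -/
def shf (t : ℝ) {q : ℕ} (F : (Fin q → ℂ) → ℂ) (z : Fin q → ℂ) : ℂ := F (fun i => z i + t)

/-- the strip `|Im z| < s` -/
def St (s : ℝ) : Set ℂ := {z | |z.im| < s}

/-- `θ ⌟ F` -/
def tc (q : ℕ) (F : (Fin (q + 1) → ℂ) → ℂ) (v : Fin q → ℂ) : ℂ :=
  ∫ x in (0 : ℝ)..1, F (Fin.cons (x : ℂ) v)

/-- `E ⌟ F` -/
def ec (q : ℕ) (F : (Fin (q + 2) → ℂ) → ℂ) (v : Fin q → ℂ) : ℂ :=
  ∫ x in (0 : ℝ)..1, deriv (fun t : ℂ => F (Fin.cons (x : ℂ) (Fin.cons t v : Fin (q + 1) → ℂ))) (x : ℂ)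

/-- `GV ⌟ F` -/
def gc (q : ℕ) (F : (Fin (q + 2) → ℂ) → ℂ) (v : Fin q → ℂ) : ℂ :=
  ∫ x in (0 : ℝ)..1, deriv (fun a : ℂ => iteratedDeriv 2
    (fun t : ℂ => F (Fin.cons a (Fin.cons t v : Fin (q + 1) → ℂ))) (x : ℂ)) (x : ℂ)

/-- `Ω ⌟ F` -/
def oc (q : ℕ) (F : (Fin (q + 3) → ℂ) → ℂ) (v : Fin q → ℂ) : ℂ :=
  ∫ x in (0 : ℝ)..1, deriv (fun a : ℂ => iteratedDeriv 2
    (fun t : ℂ => F (Fin.cons (x : ℂ) (Fin.cons a (Fin.cons t v : Fin (q + 1) → ℂ) : Fin (q + 2) → ℂ))) (x : ℂ)) (x : ℂ)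

/-- `E_m` -/
def Em : (m : ℕ) → ((Fin (2 * m) → ℂ) → ℂ) → ℂ
  | 0, F => F (fun _ => 0)
  | (m + 1), F => Em m (ec (2 * m) F)

/-- `GV_m` -/
def GVm : (m : ℕ) → ((Fin (2 * m) → ℂ) → ℂ) → ℂ
  | 0, F => F (fun _ => 0)
  | (m + 1), F => GVm m (gc (2 * m) F)

/-- `Ω_{m+1}`, of degree `2m+3`: contract `m` times with `GV`, then with `Ω` -/
def Omm : (m : ℕ) → ((Fin (2 * m + 3) → ℂ) → ℂ) → ℂ
  | 0, F => oc 0 F (fun _ => 0)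
  | (m + 1), F => Omm m (gc (2 * m + 3) F)

/-- `dα = 0` at level `s` -/
def Clo (q : ℕ) (s : ℝ) (α : ((Fin q → ℂ) → ℂ) → ℂ) : Prop :=
  ∀ s1, s < s1 → ∀ F, BO (q + 1) (St s1) F → α (dd q F) = 0

/-- rotation invariance at level `s` -/
def Rot (q : ℕ) (s : ℝ) (α : ((Fin q → ℂ) → ℂ) → ℂ) : Prop :=
  ∀ s1, s < s1 → ∀ F, BO q (St s1) F → ∀ t : ℝ, α (shf t F) = α F

/-- `ι_1 α = 0` at level `s` (`α` of degree `q+1`) -/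
def Io (q : ℕ) (s : ℝ) (α : ((Fin (q + 1) → ℂ) → ℂ) → ℂ) : Prop :=
  ∀ s1, s < s1 → ∀ F, BO q (St s1) F → α (wd (fun _ => 1) q F) = 0

end

end Pool.Agent.Helper67.DO
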