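import Pool.Agent.Helper67.DO.DefsE

/-!
# MP_d07457_gt, Lie side: shapes, window operators (sections 8-10 of h67_domega_proof.md)
-/

namespace Pool.Agent.Helper67.DO

open scoped BigOperators Real

noncomputable section

/-- `N`-periodic closure of a set of grid indices -/
def pcl (N : ℕ) (I : Set ℤ) : Set ℤ := {k | ∃ t : ℤ, k - t * N ∈ I}

/-- a removed set: grid points `P`, grid intervals `G` (interval `k` is `[k/N,(k+1)/N]`) -/
structure Shape (N : ℕ) (P G : Set ℤ) : Prop where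
  perP : ∀ k, k ∈ P ↔ k + N ∈ P
  perG : ∀ k, k ∈ G ↔ k + N ∈ G
  c0 : ∀ k ∈ G, k ∈ P
  c1 : ∀ k ∈ G, k + 1 ∈ P

/-- `U(A;w,h)` for the removed set `A` given by `P`, `G` -/
def US (N : ℕ) (P G : Set ℤ) (w h : ℝ) : Set ℂ :=
  {z | |z.im| < h ∧ (∀ k ∈ P, w < |z.re - k / N|) ∧ (∀ k ∈ G, z.re < k / N ∨ (k + 1) / N < z.re)}

/-- with losses: `Φ w' h' w h` holds for `w' < w`, `h < h'`, `h'` small depending on `w', w` -/
def Loss (N : ℕ) (Φ : ℝ → ℝ → ℝ → ℝ → Prop) : Prop :=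
  ∀ w' w : ℝ, 0 < w' → w' < w → w < 1 / (4 * N) → ∃ h0 : ℝ, 0 < h0 ∧
    ∀ h h' : ℝ, 0 < h → h < h' → h' < h0 → Φ w' h' w h

/-! ### contour pieces -/

/-- integral over the gap piece `l` -/
def gapI (N : ℕ) (r σ : ℝ) (l : ℤ) (f : ℂ → ℂ) : ℂ :=
  ∫ x in ((l : ℝ) / N + r)..(((l : ℝ) + 1) / N - r), (f (x - σ * Complex.I) - f (x + σ * Complex.I))

/-- integral over the caps of the window `l` -/
def capI (N : ℕ) (r σ : ℝ) (l : ℤ) (f : ℂ → ℂ) : ℂ :=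
  ∫ x in ((l : ℝ) / N - r)..((l : ℝ) / N + r), (f (x - σ * Complex.I) - f (x + σ * Complex.I))

/-- vertical side left of the window `l`, upwards -/
def verL (N : ℕ) (r σ : ℝ) (l : ℤ) (f : ℂ → ℂ) : ℂ :=
  Complex.I * ∫ y in (-σ)..σ, f (((l : ℝ) / N - r : ℝ) + y * Complex.I)

/-- vertical side right of the window `l`, upwards -/
def verR (N : ℕ) (r σ : ℝ) (l : ℤ) (f : ℂ → ℂ) : ℂ :=
  Complex.I * ∫ y in (-σ)..σ, f (((l : ℝ) / N + r : ℝ) + y * Complex.I)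

/-- pieces: `inl l` = gap `l`, `inr l` = window `l` -/
abbrev Pc (N : ℕ) := Fin N ⊕ Fin N

open Classical in
/-- integral over a piece of the contour of the shape `(P,G)` -/
def pI (N : ℕ) (P G : Set ℤ) (r σ : ℝ) : Pc N → (ℂ → ℂ) → ℂ
  | Sum.inl l, f => if ((l : ℕ) : ℤ) ∈ G then 0 else gapI N r σ (l : ℕ) f
  | Sum.inr l, f => if ((l : ℕ) : ℤ) ∈ P then
      (if (((l : ℕ) : ℤ) - 1) ∈ G then 0 else verL N r σ (l : ℕ) f)
        - (if ((l : ℕ) : ℤ) ∈ G then 0 else verR N r σ (l : ℕ) f)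
      else capI N r σ (l : ℕ) f

/-- iterated integral over a tuple of pieces -/
def itI (N : ℕ) (P G : Set ℤ) (r σ : ℝ) : (q : ℕ) → (Fin q → Pc N) → ((Fin q → ℂ) → ℂ) → ℂ
  | 0, _, F => F (fun i => i.elim0)
  | (q + 1), τ, F => pI N P G r σ (τ 0)
      (fun ζ => itI N P G r σ q (fun i => τ i.succ) (fun v => F (Fin.cons ζ v)))

/-- periodic Cauchy kernel `(1/2i) cot (π ζ)` -/
def kap (ζ : ℂ) : ℂ := Complex.cot (π * ζ) / (2 * Complex.I)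

/-- `sin^2 (π z)` -/
def sn (z : ℂ) : ℂ := (Complex.sin (π * z)) ^ 2

open Classical in
/-- `P_l` -/
def Pw {N q : ℕ} (l : Fin N) (τ : Fin q → Pc N) (z ζ : Fin q → ℂ) : ℂ :=
  ∏ j, if τ j = Sum.inr l then sn (z j - ζ j) else 1

open Classical in
/-- `S = ∑_{l<M} P_l` -/
def Sw {N q : ℕ} (M : ℕ) (τ : Fin q → Pc N) (z ζ : Fin q → ℂ) : ℂ :=
  ∑ l : Fin N, if (l : ℕ) < M then Pw l τ z ζ else 0

/-- the window operator `e_k`, contour of the shape `(P,G)`, distinguished windows `0..M-1` -/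
def eop (N : ℕ) (P G : Set ℤ) (r σ : ℝ) (M : ℕ) (k : Fin N) (q : ℕ) (F : (Fin q → ℂ) → ℂ) (z : Fin q → ℂ) : ℂ :=
  ∑ τ : Fin q → Pc N, itI N P G r σ q τ
    (fun ζ => F ζ * (Pw k τ z ζ / Sw M τ z ζ) * ∏ j, kap (ζ j - z j))

/-! ### functionals modulo sums -/

/-- `α ∈ ∑_{i<m} D(A + a_i)` at level `(w,h)`; equality is tested on functions of a slightly larger domain -/
def SumX (N m q : ℕ) (P G : Set ℤ) (w h : ℝ) (α : ((Fin q → ℂ) → ℂ) → ℂ) : Prop :=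
  ∃ β : ℕ → ((Fin q → ℂ) → ℂ) → ℂ,
    (∀ i < m, Fnl q (US N (P ∪ pcl N {(i : ℤ)}) G w h) (β i)) ∧
    ∀ w1 h1 : ℝ, 0 < w1 → w1 < w → h < h1 → ∀ F, BO q (US N P G w1 h1) F →
      α F = ∑ i ∈ Finset.range m, β i F

/-- `α` is a cocycle modulo `X_m` -/
def CocX (N m q : ℕ) (P G : Set ℤ) (w h : ℝ) (α : ((Fin q → ℂ) → ℂ) → ℂ) : Prop :=
  SumX N m (q + 1) P G w h (fun F => α (dd q F))

/-- `α` is exact modulo `X_m` -/
def ExX (N m : ℕ) : (q : ℕ) → (P G : Set ℤ) → (w h : ℝ) → (((Fin q → ℂ) → ℂ) → ℂ) → Prop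
  | 0, P, G, w, h, α => SumX N m 0 P G w h α
  | (q + 1), P, G, w, h, α => ∃ γ, Fnl q (US N P G w h) γ ∧
      SumX N m (q + 1) P G w h (fun F => α F - γ (dd q F))

/-- removed points of the interval `(b/N,e/N)` with the slits `I` -/
def PI (N : ℕ) (b e : ℤ) (I : Set ℤ) : Set ℤ := pcl N ({k | e ≤ k ∧ k ≤ b + N} ∪ I)

/-- removed gaps of the interval `(b/N,e/N)` -/
def GI (N : ℕ) (b e : ℤ) : Set ℤ := pcl N {k | e ≤ k ∧ k < b + N}

end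

end Pool.Agent.Helper67.DO
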