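import Pool.Agent.Helper67.DO.BaseE

/-!
# E20: the annulus (10.4)
-/

namespace Pool.Agent.Helper67.DO

open scoped BigOperators Real

noncomputable section

theorem e20_dist {N m : ℕ} (hm : m < N) : Dist N (m + 1) ∅ ∅ :=
  ⟨by omega, by omega, Shape.empty N, fun i _ => by simp⟩

theorem e20_extract (h1 : ST_E1) (h9 : ST_W9) {N m q : ℕ} (hm : m < N) : Loss N fun w' h' w h =>
    ∀ α : ((Fin q → ℂ) → ℂ) → ℂ, CocX N 0 q ∅ ∅ w h α → SumX N (m + 1) q ∅ ∅ w h α →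
      ∃ β, Fnl q (US N (∅ ∪ pcl N {(m : ℤ)}) ∅ w h) β ∧ CocX N m q (∅ ∪ pcl N {(m : ℤ)}) ∅ w' h' β ∧
        SumX N m q ∅ ∅ w h (fun F => α F - β F) := by
  have hN : 0 < N := by omega
  refine (Loss.of (Φ := fun w' h' w h : ℝ => 0 < w' ∧ w' < w ∧ h < h')
    (fun w' h' w h a b _ _ c => ⟨a, b, c⟩)).comp (h9 N m (q + 1) ∅ ∅ (e20_dist hm)) ?_
  intro w' h' w1 k1 w h _ _ _ _ _ _ _ ⟨a1, a2, a3⟩ H α hcoc hsum
  obtain ⟨β, b1, b2⟩ := hsum.split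
  refine ⟨β, b1, ?_, b2⟩
  refine H (fun F => β (dd q F)) (b1.dd h1 hN ((Shape.empty N).union _) a1.le a2 a3) ?_
  have c1 : SumX N m (q + 1) ∅ ∅ w1 k1 (fun F => α (dd q F) - β (dd q F)) :=
    b2.dd h1 hN (Shape.empty N) a1 a2 a3
  have c2 : SumX N m (q + 1) ∅ ∅ w1 k1 (fun F => α (dd q F)) :=
    SumX.mono hcoc (Nat.zero_le m) le_rfl le_rfl a2.le a3.le
  exact (c2.sub c1).congr fun _ _ _ _ _ F _ => by ring

theorem e20_PI (N m : ℕ) : PI N ((m : ℤ) - N) m ∅ = ∅ ∪ pcl N {(m : ℤ)} := by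
  unfold PI
  rw [Set.union_empty, Set.empty_union]
  congr 1
  ext k
  simp only [Set.mem_ofPred_eq, Set.mem_singleton_iff]
  constructor
  · rintro ⟨a, b⟩
    omega
  · rintro rfl
    omega

theorem e20_GI (N m : ℕ) : GI N ((m : ℤ) - N) m = ∅ := by
  unfold GI
  have : {k : ℤ | (m : ℤ) ≤ k ∧ k < (m : ℤ) - N + N} = ∅ := by
    ext k
    simp only [Set.mem_ofPred_eq, Set.mem_empty_iff_false, iff_false]
    rintro ⟨a, b⟩
    omega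
  rw [this, pcl_empty]

/-- a good step -/
theorem e20_A (h1 : ST_E1) (h2 : ST_E2) (h9 : ST_W9) (x9 : ST_X9) {N m q : ℕ} (hm : m < N) (g1 : q + 1 ≠ 2 * m)
    (g2 : q + 1 ≠ 2 * m + 3) : Loss N fun w' h' w h =>
    ∀ α : ((Fin (q + 1) → ℂ) → ℂ) → ℂ, CocX N 0 (q + 1) ∅ ∅ w h α → ExX N (m + 1) (q + 1) ∅ ∅ w h α →
      ExX N m (q + 1) ∅ ∅ w' h' α := by
  have hN : 0 < N := by omega
  have hDB := (x9 m N (q + 1) ((m : ℤ) - N) m hN (by omega) le_rfl (by omega)).1 g1 g2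
  rw [e20_PI, e20_GI] at hDB
  refine (e20_extract h1 h9 (q := q + 1) hm).comp hDB ?_
  intro w' h' w1 k1 w h p0 p1 p2 _ _ p3 p4 H1 H2 α hcoc hex
  obtain ⟨γ, g1, g2⟩ := hex
  have c0 : CocX N 0 (q + 1) ∅ ∅ w h (fun F => γ (dd q F)) := CocX.dd h1 h2 hN (Shape.empty N) g1
  obtain ⟨β, b1, b2, b3⟩ := H1 (fun F => α F - γ (dd q F)) (hcoc.sub c0) g2
  have e1 := H2 β (b1.mono' (US_mono le_rfl le_rfl p2.le p3.le)) b2
  have e2 : ExX N m (q + 1) ∅ ∅ w' h' β :=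
    e1.mono le_rfl (Set.empty_subset _) le_rfl le_rfl le_rfl
  have e3 : ExX N m (q + 1) ∅ ∅ w h (fun F => γ (dd q F)) := ExX.dd g1
  have e4 : ExX N m (q + 1) ∅ ∅ w h (fun F => (α F - γ (dd q F)) - β F) := ExX.of_SumX b3
  have e5 := (e2.add (e3.mono le_rfl le_rfl le_rfl (p1.trans p2).le (p3.trans p4).le)).add
    (e4.mono le_rfl le_rfl le_rfl (p1.trans p2).le (p3.trans p4).le)
  exact e5.congr fun _ _ _ _ _ F _ => by ring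

/-- any step, for a pair -/
theorem e20_B (h1 : ST_E1) (h2 : ST_E2) (h9 : ST_W9) (x9 : ST_X9) {N m q : ℕ} (hm : m < N) : Loss N fun w' h' w h =>
    ∀ α α' : ((Fin (q + 1) → ℂ) → ℂ) → ℂ, CocX N 0 (q + 1) ∅ ∅ w h α → ExX N (m + 1) (q + 1) ∅ ∅ w h α →
      CocX N 0 (q + 1) ∅ ∅ w h α' → ExX N (m + 1) (q + 1) ∅ ∅ w h α' →
      ∃ c c' : ℂ, ¬ (c = 0 ∧ c' = 0) ∧ ExX N m (q + 1) ∅ ∅ w' h' (fun F => c * α F + c' * α' F) := by
  have hN : 0 < N := by omega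
  have hDB := (x9 m N (q + 1) ((m : ℤ) - N) m hN (by omega) le_rfl (by omega)).2
  rw [e20_PI, e20_GI] at hDB
  refine (e20_extract h1 h9 (q := q + 1) hm).comp hDB ?_
  intro w' h' w1 k1 w h p0 p1 p2 _ _ p3 p4 H1 H2 α α' hcoc hex hcoc' hex'
  obtain ⟨γ, g1, g2⟩ := hex
  obtain ⟨γ', g1', g2'⟩ := hex'
  have c0 : CocX N 0 (q + 1) ∅ ∅ w h (fun F => γ (dd q F)) := CocX.dd h1 h2 hN (Shape.empty N) g1
  have c0' : CocX N 0 (q + 1) ∅ ∅ w h (fun F => γ' (dd q F)) := CocX.dd h1 h2 hN (Shape.empty N) g1'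
  obtain ⟨β, b1, b2, b3⟩ := H1 (fun F => α F - γ (dd q F)) (hcoc.sub c0) g2
  obtain ⟨β', b1', b2', b3'⟩ := H1 (fun F => α' F - γ' (dd q F)) (hcoc'.sub c0') g2'
  obtain ⟨c, c', hcc, e1⟩ := H2 β β' (b1.mono' (US_mono le_rfl le_rfl p2.le p3.le)) b2
    (b1'.mono' (US_mono le_rfl le_rfl p2.le p3.le)) b2'
  refine ⟨c, c', hcc, ?_⟩
  have e2 : ExX N m (q + 1) ∅ ∅ w' h' (fun F => c * β F + c' * β' F) :=
    e1.mono le_rfl (Set.empty_subset _) le_rfl le_rfl le_rfl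
  have e3 : ExX N m (q + 1) ∅ ∅ w h (fun F => γ (dd q F)) := ExX.dd g1
  have e3' : ExX N m (q + 1) ∅ ∅ w h (fun F => γ' (dd q F)) := ExX.dd g1'
  have e4 : ExX N m (q + 1) ∅ ∅ w h (fun F => (α F - γ (dd q F)) - β F) := ExX.of_SumX b3
  have e4' : ExX N m (q + 1) ∅ ∅ w h (fun F => (α' F - γ' (dd q F)) - β' F) := ExX.of_SumX b3'
  have e5 := (((e3.smul c).add (e3'.smul c')).add ((e4.smul c).add (e4'.smul c'))).mono (le_refl m)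
    (le_refl (∅ : Set ℤ)) (le_refl (∅ : Set ℤ)) (p1.trans p2).le (p3.trans p4).le
  exact (e2.add e5).congr fun _ _ _ _ _ F _ => by ring

theorem e20_chain (h1 : ST_E1) (h2 : ST_E2) (h9 : ST_W9) (x9 : ST_X9) {N q : ℕ} (a k : ℕ) (hk : a + k ≤ N)
    (hg : ∀ m, a ≤ m → m < a + k → q + 1 ≠ 2 * m ∧ q + 1 ≠ 2 * m + 3) : Loss N fun w' h' w h =>
    ∀ α : ((Fin (q + 1) → ℂ) → ℂ) → ℂ, CocX N 0 (q + 1) ∅ ∅ w h α → ExX N (a + k) (q + 1) ∅ ∅ w h α →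
      ExX N a (q + 1) ∅ ∅ w' h' α := by
  induction k with
  | zero =>
    exact Loss.of fun w' h' w h _ b _ _ c α _ hex => hex.mono le_rfl le_rfl le_rfl b.le c.le
  | succ k ih =>
    refine (e20_A h1 h2 h9 x9 (N := N) (m := a + k) (q := q) (by omega) (hg _ (by omega) (by omega)).1
      (hg _ (by omega) (by omega)).2).comp (ih (by omega) fun m p1 p2 => hg m p1 (by omega)) ?_
    intro w' h' w1 k1 w h _ p1 p2 _ _ p3 p4 H1 H2 α hcoc hex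
    exact H2 α (hcoc.mono le_rfl le_rfl le_rfl p2.le p3.le) (H1 α hcoc hex)

theorem st_E20 (h1 : ST_E1) (h2 : ST_E2) (h9 : ST_W9) (h10 : ST_W10) (x9 : ST_X9) : ST_E20 := by
  intro n
  -- the bad index
  obtain ⟨m0, hm0, hgood⟩ : ∃ m0 : ℕ, m0 < n + 2 ∧ ∀ m, m ≠ m0 → n + 1 ≠ 2 * m ∧ n + 1 ≠ 2 * m + 3 := by
    rcases Nat.even_or_odd' (n + 1) with ⟨k, hk | hk⟩
    · exact ⟨k, by omega, fun m hm => by omega⟩
    · exact ⟨k - 1, by omega, fun m hm => by omega⟩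
  have hN : 0 < n + 2 := by omega
  -- SUM
  have L0 : Loss (n + 2) fun w' h' w h => ∀ α : ((Fin (n + 1) → ℂ) → ℂ) → ℂ, Fnl (n + 1) (US (n + 2) ∅ ∅ w h) α →
      ExX (n + 2) (n + 2) (n + 1) ∅ ∅ w' h' α :=
    (h10 (n + 2) (n + 1) (by omega)).imp fun w' h' w h _ _ _ _ _ H α hα => ExX.of_SumX (H α hα)
  have L1 := e20_chain h1 h2 h9 x9 (N := n + 2) (q := n) (m0 + 1) (n + 2 - (m0 + 1)) (by omega)
    fun m p1 p2 => hgood m (by omega)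
  rw [show m0 + 1 + (n + 2 - (m0 + 1)) = n + 2 by omega] at L1
  have L2 := e20_B h1 h2 h9 x9 (N := n + 2) (m := m0) (q := n) hm0
  have L3 := e20_chain h1 h2 h9 x9 (N := n + 2) (q := n) 0 m0 (by omega) fun m p1 p2 => hgood m (by omega)
  rw [Nat.zero_add] at L3
  have L01 : Loss (n + 2) fun w' h' w h => ∀ α : ((Fin (n + 1) → ℂ) → ℂ) → ℂ, Fnl (n + 1) (US (n + 2) ∅ ∅ w h) α →
      CocX (n + 2) 0 (n + 1) ∅ ∅ w h α → ExX (n + 2) (m0 + 1) (n + 1) ∅ ∅ w' h' α :=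
    L0.comp L1 fun w' h' w1 k1 w h _ _ p2 _ _ p3 _ H1 H2 α hα hc =>
      H2 α (hc.mono le_rfl le_rfl le_rfl p2.le p3.le) (H1 α hα)
  have L012 : Loss (n + 2) fun w' h' w h => ∀ α α' : ((Fin (n + 1) → ℂ) → ℂ) → ℂ,
      Fnl (n + 1) (US (n + 2) ∅ ∅ w h) α → CocX (n + 2) 0 (n + 1) ∅ ∅ w h α →
      Fnl (n + 1) (US (n + 2) ∅ ∅ w h) α' → CocX (n + 2) 0 (n + 1) ∅ ∅ w h α' →
      ∃ c c' : ℂ, ¬ (c = 0 ∧ c' = 0) ∧ ExX (n + 2) m0 (n + 1) ∅ ∅ w' h' (fun F => c * α F + c' * α' F) :=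
    L01.comp L2 fun w' h' w1 k1 w h _ _ p2 _ _ p3 _ H1 H2 α α' hα hc hα' hc' =>
      H2 α α' (hc.mono le_rfl le_rfl le_rfl p2.le p3.le) (H1 α hα hc) (hc'.mono le_rfl le_rfl le_rfl p2.le p3.le)
        (H1 α' hα' hc')
  have LP : Loss (n + 2) fun w' h' w h => ∀ α α' : ((Fin (n + 1) → ℂ) → ℂ) → ℂ,
      Fnl (n + 1) (US (n + 2) ∅ ∅ w h) α → CocX (n + 2) 0 (n + 1) ∅ ∅ w h α →
      Fnl (n + 1) (US (n + 2) ∅ ∅ w h) α' → CocX (n + 2) 0 (n + 1) ∅ ∅ w h α' →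
      ∃ c c' : ℂ, ¬ (c = 0 ∧ c' = 0) ∧ ExX (n + 2) 0 (n + 1) ∅ ∅ w' h' (fun F => c * α F + c' * α' F) :=
    L012.comp L3 fun w' h' w1 k1 w h _ _ p2 _ _ p3 _ H1 H2 α α' hα hc hα' hc' => by
      obtain ⟨c, c', hcc, hex⟩ := H1 α α' hα hc hα' hc'
      refine ⟨c, c', hcc, H2 _ ?_ hex⟩
      exact ((hc.smul c).add (hc'.smul c')).mono le_rfl le_rfl le_rfl p2.le p3.le
  have LS : Loss (n + 2) fun w' h' w h => n = 0 → ∀ α : ((Fin (n + 1) → ℂ) → ℂ) → ℂ,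
      Fnl (n + 1) (US (n + 2) ∅ ∅ w h) α → CocX (n + 2) 0 (n + 1) ∅ ∅ w h α → ExX (n + 2) 0 (n + 1) ∅ ∅ w' h' α := by
    by_cases hn : n = 0
    · have L4 := e20_chain h1 h2 h9 x9 (N := n + 2) (q := n) 0 (n + 2) (by omega) fun m p1 p2 => by omega
      rw [Nat.zero_add] at L4
      exact L0.comp L4 fun w' h' w1 k1 w h _ _ p2 _ _ p3 _ H1 H2 _ α hα hc =>
        H2 α (hc.mono le_rfl le_rfl le_rfl p2.le p3.le) (H1 α hα)
    · exact Loss.of fun w' h' w h _ _ _ _ _ hn' => absurd hn' hn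
  have hNr : (0 : ℝ) < 4 * ((n + 2 : ℕ) : ℝ) := by positivity
  have hNr' : (0 : ℝ) < 1 / (4 * ((n + 2 : ℕ) : ℝ)) := by positivity
  obtain ⟨s0, hs0, K⟩ := (LP.and LS) (1 / (4 * ((n + 2 : ℕ) : ℝ)) / 3) (1 / (4 * ((n + 2 : ℕ) : ℝ)) / 2) (by positivity)
    (by linarith) (by linarith)
  refine ⟨s0, hs0, fun s' s a b c => ?_⟩
  obtain ⟨K1, K2⟩ := K s' s a b c
  rw [US_empty] at K1 K2
  have hcl : ∀ α, Clo (n + 1) s' α → CocX (n + 2) 0 (n + 1) ∅ ∅ (1 / (4 * ((n + 2 : ℕ) : ℝ)) / 2) s' α := by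
    intro α hα
    refine (SumX.zero _ _ _ _ _ _ _).congr fun w1 k1 _ _ hk F hF => ?_
    rw [US_empty] at hF
    exact hα k1 hk F hF
  refine ⟨fun α α' f1 f2 f3 f4 => ?_, fun hn α f1 f2 s1 hs1 F hF => ?_⟩
  · obtain ⟨d, d', hdd, γ, g1, g2⟩ := K1 α α' f1 (hcl α f2) f3 (hcl α' f4)
    rw [US_empty] at g1
    refine ⟨d, d', hdd, γ, g1, fun s1 hs1 F hF => ?_⟩
    obtain ⟨β, _, g3⟩ := g2
    have := g3 (1 / (4 * ((n + 2 : ℕ) : ℝ)) / 4) s1 (by positivity) (by linarith) hs1 F (by rw [US_empty]; exact hF)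
    rw [Finset.range_zero, Finset.sum_empty] at this
    exact sub_eq_zero.1 this
  · obtain ⟨γ, g1, g2⟩ := K2 hn α f1 (hcl α f2)
    rw [US_empty] at g1
    obtain ⟨β, _, g3⟩ := g2
    have := g3 (1 / (4 * ((n + 2 : ℕ) : ℝ)) / 4) s1 (by positivity) (by linarith) hs1 F (by rw [US_empty]; exact hF)
    rw [Finset.range_zero, Finset.sum_empty] at this
    have e := sub_eq_zero.1 this
    have e2 : dd n F = fun _ => 0 := by
      subst hn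
      funext z
      unfold dd
      simp
    rw [e, e2, g1.zero']

end

end Pool.Agent.Helper67.DO
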