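import Pool.Agent.Helper67.DO.StmtsE2
import Pool.Agent.Helper67.DO.BaseE

/-!
# Section 12: the Gysin induction
-/

namespace Pool.Agent.Helper67.DO

open scoped BigOperators Real

noncomputable section

/-! ### algebra -/

theorem gy_wd_wd (q : ℕ) (F : (Fin q → ℂ) → ℂ) (z : Fin (q + 2) → ℂ) :
    wd (fun _ => 1) (q + 1) (wd (fun _ => 1) q F) z = 0 := by
  have e0 : wd (fun _ => 1) (q + 1) (wd (fun _ => 1) q F) z = ∑ p : Fin (q + 2) × Fin (q + 1),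
      (-1 : ℂ) ^ ((p.1 : ℕ) + (p.2 : ℕ)) * F (p.2.removeNth (p.1.removeNth z)) := by
    unfold wd
    rw [Fintype.sum_prod_type]
    refine Finset.sum_congr rfl fun i _ => ?_
    rw [Finset.mul_sum]
    refine Finset.sum_congr rfl fun j _ => ?_
    rw [pow_add]
    ring
  rw [e0]
  refine Finset.sum_involution (fun ij _ => (ij.1.succAbove ij.2, ij.2.predAbove ij.1)) ?_ ?_ ?_ ?_
  · rintro ⟨i, j⟩ -
    have e1 : j.removeNth (i.removeNth z) = (j.predAbove i).removeNth ((i.succAbove j).removeNth z) :=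
      Fin.removeNth_removeNth_eq_swap z j i
    have e2 : (-1 : ℂ) ^ (((i.succAbove j : Fin (q + 2)) : ℕ) + ((j.predAbove i : Fin (q + 1)) : ℕ))
        = - (-1 : ℂ) ^ ((i : ℕ) + (j : ℕ)) := Fin.neg_one_pow_succAbove_add_predAbove (R := ℂ) i j
    simp only
    rw [← e1, e2]
    ring
  · rintro ⟨i, j⟩ - _ h
    have h1 := congrArg Prod.fst h
    exact Fin.succAbove_ne i j h1
  · intro _ _
    exact Finset.mem_univ _
  · rintro ⟨i, j⟩ -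
    simp only [Prod.mk.injEq]
    exact ⟨Fin.succAbove_succAbove_predAbove i j, Fin.predAbove_predAbove_succAbove i j⟩

theorem gy_Per_St (s : ℝ) : Per (St s) := fun z => by simp [St]

theorem gy_ball {s s1 : ℝ} {z : ℂ} (hz : z ∈ St s) : Metric.ball z (s1 - s) ⊆ St s1 := by
  intro x hx
  rw [Metric.mem_ball, dist_eq_norm] at hx
  have h2 : |x.im - z.im| < s1 - s := by
    have := Complex.abs_im_le_norm (x - z)
    rw [Complex.sub_im] at this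
    exact this.trans_lt hx
  show |x.im| < s1
  have h3 : |z.im| < s := hz
  calc |x.im| = |z.im + (x.im - z.im)| := by congr 1; ring
    _ ≤ |z.im| + |x.im - z.im| := abs_add_le _ _
    _ < s1 := by linarith

theorem gy_dd_BO (h1 : ST_E1) {q : ℕ} {s s1 : ℝ} (hs : s < s1) {F : (Fin (q + 1) → ℂ) → ℂ}
    (hF : BO (q + 1) (St s1) F) : BO q (St s) (dd q F) :=
  (h1 q _ _ (s1 - s) (isOpen_St s) (isOpen_St s1) (gy_Per_St s1) (by linarith) (fun _ hz => gy_ball hz) F hF).1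

theorem gy_wd_BO (h4 : ST_E4) {q : ℕ} {s : ℝ} {F : (Fin q → ℂ) → ℂ} (hF : BO q (St s) F) :
    BO (q + 1) (St s) (wd (fun _ => 1) q F) :=
  (h4 q _ (fun _ => 1) 1 (isOpen_St s) (gy_Per_St s) (differentiableOn_const 1) (fun _ _ => rfl)
    (fun _ _ => by simp) F hF).1

theorem gy_wd_lin (q : ℕ) (F G : (Fin q → ℂ) → ℂ) (c : ℂ) (z : Fin (q + 1) → ℂ) :
    wd (fun _ => 1) q (fun x => c * F x + G x) z = c * wd (fun _ => 1) q F z + wd (fun _ => 1) q G z := by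
  unfold wd
  rw [Finset.mul_sum, ← Finset.sum_add_distrib]
  exact Finset.sum_congr rfl fun i _ => by ring

/-- build a functional from `c * F + G` linearity -/
theorem Fnl.mk' {q p : ℕ} {s : ℝ} {α : ((Fin q → ℂ) → ℂ) → ℂ} (hα : Fnl q (St s) α)
    (T : ((Fin p → ℂ) → ℂ) → (Fin q → ℂ) → ℂ) (hT : ∀ F, BO p (St s) F → BO q (St s) (T F))
    (hlin : ∀ (F G : (Fin p → ℂ) → ℂ) (c : ℂ), BO p (St s) F → BO p (St s) G → ∀ z ∈ PU q (St s),
      T (fun x => c * F x + G x) z = c * T F z + T G z)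
    (hb : ∃ C : ℝ, 0 ≤ C ∧ ∀ F, BO p (St s) F → ∀ M : ℝ, 0 ≤ M → (∀ z ∈ PU p (St s), ‖F z‖ ≤ M) →
      ∀ z ∈ PU q (St s), ‖T F z‖ ≤ C * M) : Fnl p (St s) (fun F => α (T F)) := by
  have h1 : ∀ (F G : (Fin p → ℂ) → ℂ) (c : ℂ), BO p (St s) F → BO p (St s) G →
      α (T (fun x => c * F x + G x)) = c * α (T F) + α (T G) := by
    intro F G c hF hG
    have e := hα.ext' (hT _ ((hF.smul c).add hG)) (((hT F hF).smul c).add (hT G hG)) (hlin F G c hF hG)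
    rw [e, hα.add _ _ ((hT F hF).smul c) (hT G hG), hα.smul c _ (hT F hF)]
  refine ⟨fun F G hF hG => ?_, fun c F hF => ?_, ?_⟩
  · have := h1 F G 1 hF hG
    simpa using this
  · have z1 := h1 F (fun _ => 0) c hF (BO.zero p _)
    have z2 := h1 (fun _ => 0) (fun _ => 0) 1 (BO.zero p _) (BO.zero p _)
    have z3 : α (T fun _ => 0) = 0 := by
      simp only [one_mul, add_zero] at z2
      have := add_eq_left.1 z2.symm
      exact this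
    rw [z3, add_zero] at z1
    simpa using z1
  · obtain ⟨C, hC, H⟩ := hb
    obtain ⟨D, hD, K⟩ := hα.bdd
    refine ⟨D * C, mul_nonneg hD hC, fun F hF M hM hM0 => ?_⟩
    have := K _ (hT F hF) (C * M) (H F hF M hM0 hM) (mul_nonneg hC hM0)
    linarith [this, mul_assoc D C M]

theorem gy_io_fnl (h4 : ST_E4) {q : ℕ} {s : ℝ} {β : ((Fin (q + 1) → ℂ) → ℂ) → ℂ} (hβ : Fnl (q + 1) (St s) β) :
    Fnl q (St s) (fun F => β (wd (fun _ => 1) q F)) := by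
  refine hβ.mk' (fun F => wd (fun _ => 1) q F) (fun F hF => gy_wd_BO h4 hF) (fun F G c _ _ z _ => gy_wd_lin q F G c z)
    ⟨(q : ℝ) + 1, by positivity, fun F hF M _ hM z hz => ?_⟩
  have := (h4 q _ (fun _ => 1) 1 (isOpen_St s) (gy_Per_St s) (differentiableOn_const 1) (fun _ _ => rfl)
    (fun _ _ => by simp) F hF).2 M hM z hz
  simpa using this

theorem gy_av_fnl (h14 : ST_E14) {q : ℕ} {s : ℝ} (hs : 0 < s) {β : ((Fin q → ℂ) → ℂ) → ℂ} (hβ : Fnl q (St s) β) :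
    Fnl q (St s) (fun F => β (Av q F)) := by
  obtain ⟨a1, a2, -, -, -, -, -⟩ := h14 q s hs
  refine hβ.mk' (fun F => Av q F) (fun F hF => (a1 F hF).1) (fun F G c hF hG => a2 F G c hF hG)
    ⟨1, zero_le_one, fun F hF M _ hM z hz => ?_⟩
  rw [one_mul]
  exact (a1 F hF).2 M hM z hz

theorem gy_av_rot (h9 : ST_E9) (h14 : ST_E14) {q : ℕ} {s : ℝ} (hs : 0 < s) {β : ((Fin q → ℂ) → ℂ) → ℂ}
    (hβ : Fnl q (St s) β) : Rot q s (fun F => β (Av q F)) := by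
  intro s1 hs1 F hF t
  have hs10 : 0 < s1 := hs.trans hs1
  obtain ⟨a1, -, -, -, a5, -, -⟩ := h14 q s1 hs10
  have b1 := (a1 F hF).1
  have b2 := (a1 _ ((h9 q s1 t hs10).1 F hF)).1
  exact hβ.ext' (b2.mono (St_mono hs1.le)) (b1.mono (St_mono hs1.le)) fun z hz =>
    (a5 F hF t z (PU_mono (St_mono hs1.le) hz)).1

/-- `β(Av(1∧∂F)) = -β(Av(∂(1∧F)))` -/
theorem gy_closed (h1 : ST_E1) (h4 : ST_E4) (h14 : ST_E14) {q : ℕ} {s s1 : ℝ} (hs : 0 < s) (hs1 : s < s1)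
    {β : ((Fin (q + 1) → ℂ) → ℂ) → ℂ} (hβ : Fnl (q + 1) (St s) β) {F : (Fin (q + 1) → ℂ) → ℂ}
    (hF : BO (q + 1) (St s1) F) :
    β (Av (q + 1) (wd (fun _ => 1) q (dd q F))) = - β (Av (q + 1) (dd (q + 1) (wd (fun _ => 1) (q + 1) F))) := by
  obtain ⟨m, hm1, hm2⟩ : ∃ m, s < m ∧ m < s1 := exists_between hs1
  have hm0 : 0 < m := hs.trans hm1
  have A : BO (q + 1) (St m) (dd (q + 1) (wd (fun _ => 1) (q + 1) F)) := gy_dd_BO h1 hm2 (gy_wd_BO h4 hF)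
  have B : BO (q + 1) (St m) (wd (fun _ => 1) q (dd q F)) := gy_wd_BO h4 (gy_dd_BO h1 hm2 hF)
  obtain ⟨a1, a2, -, -, -, -, -⟩ := h14 (q + 1) m hm0
  have A' := ((a1 _ A).1).mono (St_mono hm1.le)
  have B' := ((a1 _ B).1).mono (St_mono hm1.le)
  have e := hβ.add _ _ A' B'
  have e2 : β (fun z => Av (q + 1) (dd (q + 1) (wd (fun _ => 1) (q + 1) F)) z
      + Av (q + 1) (wd (fun _ => 1) q (dd q F)) z) = 0 := by
    rw [hβ.ext' (A'.add B') (BO.zero _ _) fun z hz => ?_, hβ.zero']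
    have hz' : z ∈ PU (q + 1) (St m) := PU_mono (St_mono hm1.le) hz
    have l := a2 _ _ 1 A B z hz'
    have k := (h14 q s1 (hs.trans hs1)).2.2.2.2.2.1 F hF z (PU_mono (St_mono hs1.le) hz)
    simp only [one_mul] at l
    rw [← l, k]
  rw [e2] at e
  linear_combination -e

/-! ### contractions -/

theorem gy_cons_mem {q : ℕ} {U : Set ℂ} {v : Fin q → ℂ} (hv : v ∈ PU q U) {t : ℂ} (ht : t ∈ U) :
    (Fin.cons t v : Fin (q + 1) → ℂ) ∈ PU (q + 1) U := by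
  intro j
  refine Fin.cases ?_ (fun k => ?_) j
  · exact ht
  · exact hv k

theorem gy_cons_cont {q : ℕ} (v : Fin q → ℂ) : Continuous fun x : ℝ => (Fin.cons (x : ℂ) v : Fin (q + 1) → ℂ) := by
  refine continuous_pi fun j => ?_
  refine Fin.cases ?_ (fun k => ?_) j
  · exact Complex.continuous_ofReal
  · exact continuous_const

theorem gy_real_mem {s : ℝ} (hs : 0 < s) (x : ℝ) : (x : ℂ) ∈ St s := by
  show |((x : ℂ)).im| < s
  simpa using hs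

theorem gy_tc_int {q : ℕ} {s : ℝ} (hs : 0 < s) {F : (Fin (q + 1) → ℂ) → ℂ} (hF : BO (q + 1) (St s) F)
    {v : Fin q → ℂ} (hv : v ∈ PU q (St s)) :
    IntervalIntegrable (fun x : ℝ => F (Fin.cons (x : ℂ) v)) MeasureTheory.volume 0 1 := by
  apply Continuous.intervalIntegrable
  exact hF.hol.continuousOn.comp_continuous (gy_cons_cont v) fun x => gy_cons_mem hv (gy_real_mem hs x)

theorem gy_tc_lin {q : ℕ} {s : ℝ} (hs : 0 < s) {F G : (Fin (q + 1) → ℂ) → ℂ} (hF : BO (q + 1) (St s) F)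
    (hG : BO (q + 1) (St s) G) (c : ℂ) {v : Fin q → ℂ} (hv : v ∈ PU q (St s)) :
    tc q (fun x => c * F x + G x) v = c * tc q F v + tc q G v := by
  unfold tc
  rw [intervalIntegral.integral_add ((gy_tc_int hs hF hv).const_mul c) (gy_tc_int hs hG hv),
    intervalIntegral.integral_const_mul]

theorem gy_tc_congr {q : ℕ} {s : ℝ} (hs : 0 < s) {F G : (Fin (q + 1) → ℂ) → ℂ}
    (h : ∀ z ∈ PU (q + 1) (St s), F z = G z) {v : Fin q → ℂ} (hv : v ∈ PU q (St s)) : tc q F v = tc q G v := by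
  unfold tc
  congr 1
  funext x
  exact h _ (gy_cons_mem hv (gy_real_mem hs x))

theorem gy_tc_fnl (h5 : ST_E5) {q : ℕ} {s : ℝ} (hs : 0 < s) {β : ((Fin q → ℂ) → ℂ) → ℂ} (hβ : Fnl q (St s) β) :
    Fnl (q + 1) (St s) (fun F => β (tc q F)) := by
  obtain ⟨a1, -, -, -⟩ := h5 q s hs
  refine hβ.mk' (fun F => tc q F) (fun F hF => (a1 F hF).1) (fun F G c hF hG v hv => gy_tc_lin hs hF hG c hv)
    ⟨1, zero_le_one, fun F hF M _ hM z hz => ?_⟩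
  rw [one_mul]
  exact (a1 F hF).2 M hM z hz

theorem gy_PU_inner {q : ℕ} {s : ℝ} (hs : 0 < s) {v : Fin q → ℂ} (hv : v ∈ PU q (St s)) :
    ∃ t, 0 < t ∧ t < s ∧ v ∈ PU q (St t) := by
  obtain ⟨B, hB, hB'⟩ : ∃ B : ℝ, B < s ∧ ∀ j, |(v j).im| ≤ B := by
    rcases Nat.eq_zero_or_pos q with hq | hq
    · subst hq
      exact ⟨0, hs, fun j => j.elim0⟩
    · have : Nonempty (Fin q) := ⟨⟨0, hq⟩⟩
      refine ⟨Finset.univ.sup' Finset.univ_nonempty (fun j => |(v j).im|), ?_, fun j =>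
        Finset.le_sup' (fun j => |(v j).im|) (Finset.mem_univ j)⟩
      rw [Finset.sup'_lt_iff]
      exact fun j _ => hv j
  obtain ⟨t, h1, h2⟩ := exists_between (max_lt hB hs)
  exact ⟨t, (le_max_right _ _).trans_lt h1, h2, fun j => (hB' j).trans_lt ((le_max_left _ _).trans_lt h1)⟩

theorem gy_ec_lin (h1 : ST_E1) (h5 : ST_E5) {q : ℕ} {s : ℝ} (hs : 0 < s) {F G : (Fin (q + 2) → ℂ) → ℂ}
    (hF : BO (q + 2) (St s) F) (hG : BO (q + 2) (St s) G) (c : ℂ) {v : Fin q → ℂ} (hv : v ∈ PU q (St s)) :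
    ec q (fun x => c * F x + G x) v = c * ec q F v + ec q G v := by
  obtain ⟨t, ht0, hts, hvt⟩ := gy_PU_inner hs hv
  have key : ∀ H, BO (q + 2) (St s) H → ec q H v = tc q (dd (q + 1) H) v + dd q (tc (q + 1) H) v := by
    intro H hH
    rw [(h5 q s hs).2.1 H hH v hv]
    ring
  rw [key _ ((hF.smul c).add hG), key F hF, key G hG]
  have e1 : tc q (dd (q + 1) (fun x => c * F x + G x)) v = c * tc q (dd (q + 1) F) v + tc q (dd (q + 1) G) v := by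
    rw [← gy_tc_lin ht0 (gy_dd_BO h1 hts hF) (gy_dd_BO h1 hts hG) c hvt]
    exact gy_tc_congr ht0 (fun z hz => dd_lin (isOpen_St s) hF.hol hG.hol c (PU_mono (St_mono hts.le) hz)) hvt
  have e2 : dd q (tc (q + 1) (fun x => c * F x + G x)) v = c * dd q (tc (q + 1) F) v + dd q (tc (q + 1) G) v := by
    rw [← dd_lin (isOpen_St s) ((h5 (q + 1) s hs).1 F hF).1.hol ((h5 (q + 1) s hs).1 G hG).1.hol c hv]
    exact dd_congr (isOpen_St s) (fun z hz => gy_tc_lin hs hF hG c hz) hv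
  rw [e1, e2]
  ring

theorem gy_ec_fnl (h1 : ST_E1) (h5 : ST_E5) (h6 : ST_E6) {q : ℕ} {s : ℝ} (hs : 0 < s)
    {β : ((Fin q → ℂ) → ℂ) → ℂ} (hβ : Fnl q (St s) β) : Fnl (q + 2) (St s) (fun F => β (ec q F)) := by
  obtain ⟨a1, ⟨C, a2⟩, -, -, -⟩ := h6 q s hs
  refine hβ.mk' (fun F => ec q F) (fun F hF => a1 F hF) (fun F G c hF hG v hv => gy_ec_lin h1 h5 hs hF hG c hv)
    ⟨|C|, abs_nonneg C, fun F hF M hM0 hM z hz => ?_⟩
  exact (a2 F hF M hM z hz).trans (mul_le_mul_of_nonneg_right (le_abs_self C) hM0)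

/-! ### the Gysin step -/

theorem gy_mono_Clo {q : ℕ} {s t : ℝ} (h : s ≤ t) {α : ((Fin q → ℂ) → ℂ) → ℂ} (hα : Clo q s α) : Clo q t α :=
  fun s1 hs1 F hF => hα s1 (h.trans_lt hs1) F hF

theorem gy_mono_Rot {q : ℕ} {s t : ℝ} (h : s ≤ t) {α : ((Fin q → ℂ) → ℂ) → ℂ} (hα : Rot q s α) : Rot q t α :=
  fun s1 hs1 F hF => hα s1 (h.trans_lt hs1) F hF

theorem gy_mono_Io {q : ℕ} {s t : ℝ} (h : s ≤ t) {α : ((Fin (q + 1) → ℂ) → ℂ) → ℂ} (hα : Io q s α) : Io q t α :=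
  fun s1 hs1 F hF => hα s1 (h.trans_lt hs1) F hF

/-- contraction of an averaged functional -/
structure GyI (q : ℕ) (t : ℝ) (β1 : ((Fin (q + 1) → ℂ) → ℂ) → ℂ) : Prop where
  fnl : Fnl (q + 1) (St t) β1
  rot : Rot (q + 1) t β1
  clo : ∀ s1, t < s1 → ∀ F, BO (q + 1) (St s1) F → β1 (wd (fun _ => 1) q (dd q F)) = 0

theorem gy_iota (h4 : ST_E4) (h9 : ST_E9) {q : ℕ} {t : ℝ} (ht : 0 < t)
    {β1 : ((Fin (q + 1) → ℂ) → ℂ) → ℂ} (h : GyI q t β1) :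
    Fnl q (St t) (fun F => β1 (wd (fun _ => 1) q F)) ∧ Clo q t (fun F => β1 (wd (fun _ => 1) q F)) ∧
      Rot q t (fun F => β1 (wd (fun _ => 1) q F)) := by
  refine ⟨gy_io_fnl h4 h.fnl, h.clo, fun s1 hs1 F hF u => ?_⟩
  have e := (h9 q s1 u (ht.trans hs1)).2.2.1 F
  show β1 (wd (fun _ => 1) q (shf u F)) = β1 (wd (fun _ => 1) q F)
  rw [e]
  exact h.rot s1 hs1 _ (gy_wd_BO h4 hF) u

theorem gy_iota_io {q : ℕ} {t : ℝ} {β1 : ((Fin (q + 2) → ℂ) → ℂ) → ℂ} (h : GyI (q + 1) t β1) :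
    Io q t (fun F => β1 (wd (fun _ => 1) (q + 1) F)) := by
  intro s1 _ F _
  have e : wd (fun _ => 1) (q + 1) (wd (fun _ => 1) q F) = fun _ => 0 := funext fun z => gy_wd_wd q F z
  show β1 (wd (fun _ => 1) (q + 1) (wd (fun _ => 1) q F)) = 0
  rw [e, h.fnl.zero']

theorem gy_tc_wd (h4 : ST_E4) (h5 : ST_E5) {q : ℕ} {t : ℝ} (ht : 0 < t)
    {β1 : ((Fin (q + 1) → ℂ) → ℂ) → ℂ} (h : GyI q t β1) {s1 : ℝ} (hs1 : t < s1) {F : (Fin q → ℂ) → ℂ}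
    (hF : BO q (St s1) F) :
    β1 (wd (fun _ => 1) q (tc q (wd (fun _ => 1) q F))) = β1 (wd (fun _ => 1) q F) := by
  have hs10 : 0 < s1 := ht.trans hs1
  have hι := gy_io_fnl h4 h.fnl
  have hm : St t ⊆ St s1 := St_mono hs1.le
  have b1 : BO q (St s1) (tc q (wd (fun _ => 1) q F)) := ((h5 q s1 hs10).1 _ (gy_wd_BO h4 hF)).1
  cases q with
  | zero =>
    exact hι.ext' (b1.mono hm) (hF.mono hm) fun z _ => (h5 0 s1 hs10).2.2.2 F hF z
  | succ q =>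
    have b2 : BO q (St s1) (tc q F) := ((h5 q s1 hs10).1 F hF).1
    have e := hι.ext' (b1.mono hm) ((hF.sub (gy_wd_BO h4 b2)).mono hm) fun z hz =>
      (h5 q s1 hs10).2.2.1 F hF z (PU_mono hm hz)
    have e2 := hι.sub' (hF.mono hm) ((gy_wd_BO h4 b2).mono hm)
    have e3 := gy_iota_io h s1 hs1 (tc q F) b2
    simp only at e e2 e3
    rw [e, e2, e3, sub_zero]

/-- the corrected primitive -/
theorem gy_step (h1 : ST_E1) (h4 : ST_E4) (h5 : ST_E5) (h6 : ST_E6) (h9 : ST_E9) {q : ℕ} {t : ℝ} (ht : 0 < t)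
    {β1 : ((Fin (q + 1) → ℂ) → ℂ) → ℂ} (h : GyI q t β1) :
    ∃ β, Fnl (q + 1) (St t) β ∧ Rot (q + 1) t β ∧ Io q t β ∧
      ∀ s1, t < s1 → ∀ F, BO (q + 2) (St s1) F →
        β1 (dd (q + 1) F) = β (dd (q + 1) F) + β1 (wd (fun _ => 1) q (ec q F)) := by
  have hι := gy_iota h4 h9 ht h
  refine ⟨fun F => β1 F - β1 (wd (fun _ => 1) q (tc q F)), h.fnl.subF (gy_tc_fnl h5 ht hι.1), ?_, ?_, ?_⟩
  · intro s1 hs1 F hF u
    have hs10 : 0 < s1 := ht.trans hs1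
    have hm : St t ⊆ St s1 := St_mono hs1.le
    have b0 := ((h5 q s1 hs10).1 F hF).1
    have b1 := ((h5 q s1 hs10).1 _ ((h9 (q + 1) s1 u hs10).1 F hF)).1
    have b2 := (h9 q s1 u hs10).1 _ b0
    have e := hι.1.ext' (b1.mono hm) (b2.mono hm) fun z hz => (h9 q s1 u hs10).2.2.2.1 F hF z (PU_mono hm hz)
    have e2 := hι.2.2 s1 hs1 _ b0 u
    simp only at e e2
    show β1 (shf u F) - β1 (wd (fun _ => 1) q (tc q (shf u F))) = β1 F - β1 (wd (fun _ => 1) q (tc q F))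
    rw [h.rot s1 hs1 F hF u, e, e2]
  · intro s1 hs1 F hF
    show β1 (wd (fun _ => 1) q F) - β1 (wd (fun _ => 1) q (tc q (wd (fun _ => 1) q F))) = 0
    rw [gy_tc_wd h4 h5 ht h hs1 hF, sub_self]
  · intro s1 hs1 F hF
    have hs10 : 0 < s1 := ht.trans hs1
    have hm : St t ⊆ St s1 := St_mono hs1.le
    have b1 : BO q (St s1) (ec q F) := (h6 q s1 hs10).1 F hF
    have b2 : BO (q + 1) (St s1) (tc (q + 1) F) := ((h5 (q + 1) s1 hs10).1 F hF).1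
    obtain ⟨m, hm1, hm2⟩ : ∃ m, t < m ∧ m < s1 := exists_between hs1
    have hm0 : 0 < m := ht.trans hm1
    have b3 : BO q (St m) (tc q (dd (q + 1) F)) := ((h5 q m hm0).1 _ (gy_dd_BO h1 hm2 hF)).1
    have b4 : BO q (St m) (dd q (tc (q + 1) F)) := gy_dd_BO h1 hm2 b2
    have hmt : St t ⊆ St m := St_mono hm1.le
    have e := hι.1.ext' (b3.mono hmt) ((b1.mono hm).sub (b4.mono hmt)) fun z hz =>
      (h5 q s1 hs10).2.1 F hF z (PU_mono hm hz)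
    have e2 := hι.1.sub' (b1.mono hm) (b4.mono hmt)
    have e3 := hι.2.1 s1 hs1 _ b2
    simp only at e e2 e3
    show β1 (dd (q + 1) F) = β1 (dd (q + 1) F) - β1 (wd (fun _ => 1) q (tc q (dd (q + 1) F)))
      + β1 (wd (fun _ => 1) q (ec q F))
    rw [e, e2, e3]
    ring

/-- averaged primitives -/
theorem gy_avg (h1 : ST_E1) (h14 : ST_E14) {q : ℕ} {s' t : ℝ} (hs' : 0 < s') (ht : s' < t)
    {α : ((Fin (q + 1) → ℂ) → ℂ) → ℂ} {γ : ((Fin q → ℂ) → ℂ) → ℂ} (hα : Fnl (q + 1) (St s') α)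
    (hr : Rot (q + 1) s' α) (hγ : Fnl q (St t) γ)
    (he : ∀ s1, t < s1 → ∀ F, BO (q + 1) (St s1) F → α F = γ (dd q F)) :
    ∀ s1, t < s1 → ∀ F, BO (q + 1) (St s1) F → α F = γ (Av q (dd q F)) := by
  intro s1 hs1 F hF
  have ht0 : 0 < t := hs'.trans ht
  have hs10 : 0 < s1 := ht0.trans hs1
  have e1 := (h14 (q + 1) s' hs').2.2.2.2.2.2 α hα hr s1 (ht.trans hs1) F hF
  have b1 := ((h14 (q + 1) s1 hs10).1 F hF).1
  rw [← e1, he s1 hs1 _ b1]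
  obtain ⟨m, hm1, hm2⟩ : ∃ m, t < m ∧ m < s1 := exists_between hs1
  have b2 : BO q (St t) (dd q (Av (q + 1) F)) := gy_dd_BO h1 hs1 b1
  have b3 : BO q (St t) (Av q (dd q F)) := ((h14 q t ht0).1 _ (gy_dd_BO h1 hs1 hF)).1
  exact hγ.ext' b2 b3 fun z hz => (h14 q s1 hs10).2.2.1 F hF z (PU_mono (St_mono hs1.le) hz)

/-- from a primitive to an averaged primitive whose contraction is closed -/
theorem gy_prim (h1 : ST_E1) (h4 : ST_E4) (h9 : ST_E9) (h14 : ST_E14) {q : ℕ} {s' t : ℝ} (hs' : 0 < s') (ht : s' < t)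
    {α : ((Fin (q + 2) → ℂ) → ℂ) → ℂ} {γ : ((Fin (q + 1) → ℂ) → ℂ) → ℂ} (hα : Fnl (q + 2) (St s') α)
    (hr : Rot (q + 2) s' α) (hi : Io (q + 1) s' α) (hγ : Fnl (q + 1) (St t) γ)
    (he : ∀ s1, t < s1 → ∀ F, BO (q + 2) (St s1) F → α F = γ (dd (q + 1) F)) :
    GyI q t (fun F => γ (Av (q + 1) F)) ∧
      ∀ s1, t < s1 → ∀ F, BO (q + 2) (St s1) F → α F = γ (Av (q + 1) (dd (q + 1) F)) := by
  have ht0 : 0 < t := hs'.trans ht
  have key := gy_avg h1 h14 hs' ht hα hr hγ he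
  refine ⟨⟨gy_av_fnl h14 ht0 hγ, gy_av_rot h9 h14 ht0 hγ, fun s1 hs1 F hF => ?_⟩, key⟩
  show γ (Av (q + 1) (wd (fun _ => 1) q (dd q F))) = 0
  rw [gy_closed h1 h4 h14 ht0 hs1 hγ hF, ← key s1 hs1 _ (gy_wd_BO h4 hF), hi s1 (ht.trans hs1) F hF, neg_zero]

theorem gy_even (h1 : ST_E1) (h4 : ST_E4) (h9 : ST_E9) (h10 : ST_E10) (h13 : ST_E13) (h14 : ST_E14) (h20 : ST_E20)
    (k : ℕ) : ∃ s0 : ℝ, 0 < s0 ∧ ∀ s' t, 0 < s' → s' < t → t < s0 →
      ∀ α, Fnl (2 * k + 2) (St s') α → Clo (2 * k + 2) s' α → Rot (2 * k + 2) s' α → Io (2 * k + 1) s' α →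
      ∃ (y : ℂ) (β1 : ((Fin (2 * k + 1) → ℂ) → ℂ) → ℂ), GyI (2 * k) t β1 ∧
        ∀ s1, t < s1 → ∀ F, BO (2 * k + 2) (St s1) F → α F = y * GVm (k + 1) F + β1 (dd (2 * k + 1) F) := by
  obtain ⟨sA, hsA, HA⟩ := h20 (2 * k + 1)
  obtain ⟨sB, hsB, HB⟩ := h13 k
  refine ⟨min sA sB, lt_min hsA hsB, fun s' t a b c α f1 f2 f3 f4 => ?_⟩
  have ht0 : 0 < t := a.trans b
  obtain ⟨-, -, -, g1, g2, g3, -, -, -, -, -⟩ := h10 (k + 1) s' a
  have g4 : Io (2 * k + 1) s' (GVm (k + 1)) := (h10 k s' a).2.2.2.2.2.2.2.2.2.1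
  obtain ⟨d, d', hdd, γ, hγ, hE⟩ := (HA s' t a b (c.trans_le (min_le_left _ _))).1 α (GVm (k + 1)) f1 f2 g1 g2
  have hd : d ≠ 0 := by
    intro hd
    have hd' : d' ≠ 0 := fun h => hdd ⟨hd, h⟩
    refine HB t ht0 (c.trans_le (min_le_right _ _)) ⟨fun F => d'⁻¹ * γ F, hγ.smulF _, fun s1 hs1 F hF => ?_⟩
    have e := hE s1 hs1 F hF
    rw [hd, zero_mul, zero_add] at e
    show GVm (k + 1) F = d'⁻¹ * γ (dd (2 * k + 1) F)
    rw [← e]
    field_simp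
  have key := gy_prim h1 h4 h9 h14 a b (α := fun F => α F - (-d' / d) * GVm (k + 1) F) (γ := fun F => d⁻¹ * γ F)
    (f1.subF (g1.smulF _)) (fun s1 hs1 F hF u => by
      show α (shf u F) - (-d' / d) * GVm (k + 1) (shf u F) = α F - (-d' / d) * GVm (k + 1) F
      rw [f3 s1 hs1 F hF u]
      congr 2
      exact g3 s1 hs1 F hF u) (fun s1 hs1 F hF => by
      show α (wd (fun _ => 1) (2 * k + 1) F) - (-d' / d) * GVm (k + 1) (wd (fun _ => 1) (2 * k + 1) F) = 0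
      rw [f4 s1 hs1 F hF, g4 s1 hs1 F hF]
      ring) (hγ.smulF _) (fun s1 hs1 F hF => by
      have e := hE s1 hs1 F hF
      show α F - (-d' / d) * GVm (k + 1) F = d⁻¹ * γ (dd (2 * k + 1) F)
      rw [← e]
      field_simp
      ring)
  refine ⟨-d' / d, _, key.1, fun s1 hs1 F hF => ?_⟩
  have e := key.2 s1 hs1 F hF

  linear_combination e

theorem gy_odd (h1 : ST_E1) (h4 : ST_E4) (h9 : ST_E9) (h10 : ST_E10) (h13 : ST_E13) (h14 : ST_E14) (h20 : ST_E20)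
    (k : ℕ) : ∃ s0 : ℝ, 0 < s0 ∧ ∀ s' t, 0 < s' → s' < t → t < s0 →
      ∀ α, Fnl (2 * k + 3) (St s') α → Clo (2 * k + 3) s' α → Rot (2 * k + 3) s' α → Io (2 * k + 2) s' α →
      ∃ β1 : ((Fin (2 * k + 2) → ℂ) → ℂ) → ℂ, GyI (2 * k + 1) t β1 ∧
        ∀ s1, t < s1 → ∀ F, BO (2 * k + 3) (St s1) F → α F = β1 (dd (2 * k + 2) F) := by
  obtain ⟨sA, hsA, HA⟩ := h20 (2 * k + 2)
  obtain ⟨sB, hsB, HB⟩ := h13 k
  refine ⟨min sA sB, lt_min hsA hsB, fun s' t a b c α f1 f2 f3 f4 => ?_⟩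
  have ht0 : 0 < t := a.trans b
  obtain ⟨-, -, -, -, -, -, g1, g2, -, -, g3⟩ := h10 k s' a
  obtain ⟨-, -, -, v1, -, v3, -, -, -, -, -⟩ := h10 (k + 1) s' a
  obtain ⟨d, d', hdd, γ, hγ, hE⟩ := (HA s' t a b (c.trans_le (min_le_left _ _))).1 α (Omm k) f1 f2 g1 g2
  have hd' : d' = 0 := by
    by_contra hd'
    refine HB t ht0 (c.trans_le (min_le_right _ _))
      ⟨fun G => -d'⁻¹ * γ (Av (2 * k + 2) (wd (fun _ => 1) (2 * k + 1) G)),
        (gy_io_fnl h4 (gy_av_fnl h14 ht0 hγ)).smulF _, fun s1 hs1 F hF => ?_⟩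
    have hs10 : 0 < s1 := ht0.trans hs1
    have b1 := ((h14 (2 * k + 2) s1 hs10).1 F hF).1
    have e := hE s1 hs1 _ (gy_wd_BO h4 b1)
    rw [f4 s1 (b.trans hs1) _ b1, mul_zero, zero_add, g3 s1 (b.trans hs1) _ b1] at e
    have e2 : GVm (k + 1) (Av (2 * k + 2) F) = GVm (k + 1) F :=
      (h14 (2 * k + 2) s' a).2.2.2.2.2.2 (GVm (k + 1)) v1 v3 s1 (b.trans hs1) F hF
    rw [e2] at e
    -- `dd (1 ∧ Av F) = Av (dd (1 ∧ F))`
    have hm : St t ⊆ St s1 := St_mono hs1.le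
    obtain ⟨m, hm1, hm2⟩ : ∃ m, t < m ∧ m < s1 := exists_between hs1
    have b2 : BO (2 * k + 2) (St t) (dd (2 * k + 2) (wd (fun _ => 1) (2 * k + 2) (Av (2 * k + 2) F))) :=
      gy_dd_BO h1 hs1 (gy_wd_BO h4 b1)
    have b3 : BO (2 * k + 2) (St t) (Av (2 * k + 2) (dd (2 * k + 2) (wd (fun _ => 1) (2 * k + 2) F))) :=
      ((h14 (2 * k + 2) t ht0).1 _ (gy_dd_BO h1 hs1 (gy_wd_BO h4 hF))).1
    have e3 := hγ.ext' b2 b3 fun z hz => by
      have hz' : z ∈ PU (2 * k + 2) (St s1) := PU_mono hm hz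
      rw [← (h14 (2 * k + 2) s1 hs10).2.2.1 _ (gy_wd_BO h4 hF) z hz']
      exact dd_congr (isOpen_St s1) (fun x hx => ((h14 (2 * k + 2) s1 hs10).2.2.2.1 F hF x hx).symm) hz'
    rw [e3] at e
    have e4 := gy_closed h1 h4 h14 ht0 hs1 hγ hF
    show GVm (k + 1) F = -d'⁻¹ * γ (Av (2 * k + 2) (wd (fun _ => 1) (2 * k + 1) (dd (2 * k + 1) F)))
    rw [e4, neg_mul_neg, ← e]
    field_simp
  have hd : d ≠ 0 := fun h => hdd ⟨h, hd'⟩
  have key := gy_prim h1 h4 h9 h14 a b (γ := fun F => d⁻¹ * γ F) f1 f3 f4 (hγ.smulF _) (fun s1 hs1 F hF => by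
    have e := hE s1 hs1 F hF
    show α F = d⁻¹ * γ (dd (2 * k + 2) F)
    rw [← e, hd', zero_mul, add_zero]
    field_simp)
  exact ⟨_, key.1, key.2⟩

/-- `E ∧ β` -/
theorem gy_ecβ (h1 : ST_E1) (h4 : ST_E4) (h5 : ST_E5) (h6 : ST_E6) (h9 : ST_E9) {q : ℕ} {t : ℝ} (ht : 0 < t)
    {β2 : ((Fin (q + 1) → ℂ) → ℂ) → ℂ} (hf : Fnl (q + 1) (St t) β2) (hr : Rot (q + 1) t β2) (hi : Io q t β2) :
    Fnl (q + 3) (St t) (fun F => β2 (ec (q + 1) F)) ∧ Rot (q + 3) t (fun F => β2 (ec (q + 1) F)) ∧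
      Io (q + 2) t (fun F => β2 (ec (q + 1) F)) ∧
      ∀ s1, t < s1 → ∀ F, BO (q + 4) (St s1) F →
        β2 (dd (q + 1) (ec (q + 2) F)) = β2 (ec (q + 1) (dd (q + 3) F)) := by
  refine ⟨gy_ec_fnl h1 h5 h6 ht hf, fun s1 hs1 F hF u => ?_, fun s1 hs1 F hF => ?_, fun s1 hs1 F hF => ?_⟩
  · have hs10 : 0 < s1 := ht.trans hs1
    have hm : St t ⊆ St s1 := St_mono hs1.le
    have b0 := (h6 (q + 1) s1 hs10).1 F hF
    have b1 := (h6 (q + 1) s1 hs10).1 _ ((h9 (q + 3) s1 u hs10).1 F hF)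
    have b2 := (h9 (q + 1) s1 u hs10).1 _ b0
    have e := hf.ext' (b1.mono hm) (b2.mono hm) fun z hz => (h9 (q + 1) s1 u hs10).2.2.2.2.1 F hF z (PU_mono hm hz)
    show β2 (ec (q + 1) (shf u F)) = β2 (ec (q + 1) F)
    rw [e]
    exact hr s1 hs1 _ b0 u
  · have hs10 : 0 < s1 := ht.trans hs1
    have hm : St t ⊆ St s1 := St_mono hs1.le
    have b0 := (h6 q s1 hs10).1 F hF
    have b1 := (h6 (q + 1) s1 hs10).1 _ (gy_wd_BO h4 hF)
    have e := hf.ext' (b1.mono hm) ((gy_wd_BO h4 b0).mono hm) fun z hz =>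
      (h6 q s1 hs10).2.2.2.1 F hF z (PU_mono hm hz)
    show β2 (ec (q + 1) (wd (fun _ => 1) (q + 2) F)) = 0
    rw [e]
    exact hi s1 hs1 _ b0
  · have hs10 : 0 < s1 := ht.trans hs1
    have hm : St t ⊆ St s1 := St_mono hs1.le
    have b0 : BO (q + 1) (St t) (dd (q + 1) (ec (q + 2) F)) := gy_dd_BO h1 hs1 ((h6 (q + 2) s1 hs10).1 F hF)
    have b1 : BO (q + 1) (St t) (ec (q + 1) (dd (q + 3) F)) := (h6 (q + 1) t ht).1 _ (gy_dd_BO h1 hs1 hF)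
    exact hf.ext' b0 b1 fun z hz => ((h6 (q + 1) s1 hs10).2.2.1 F hF z (PU_mono hm hz)).symm

/-- `E ∧ GV_{j+1}` is exact, with a relative primitive -/
theorem gy_rho (h1 : ST_E1) (h4 : ST_E4) (h5 : ST_E5) (h6 : ST_E6) (h9 : ST_E9) (h10 : ST_E10) (h14 : ST_E14)
    (j : ℕ) {t : ℝ} (ht : 0 < t) : ∃ ρ : ((Fin (2 * j + 3) → ℂ) → ℂ) → ℂ, Fnl (2 * j + 3) (St t) ρ ∧
      Rot (2 * j + 3) t ρ ∧ Io (2 * j + 2) t ρ ∧
      ∀ s1, t < s1 → ∀ F, BO (2 * j + 4) (St s1) F → GVm (j + 1) (ec (2 * j + 2) F) = ρ (dd (2 * j + 3) F) := by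
  obtain ⟨-, -, -, -, -, -, o1, o2, -, v4, o3⟩ := h10 j t ht
  obtain ⟨-, -, -, v1, v2, v3, -, -, -, -, -⟩ := h10 (j + 1) t ht
  have w1 : Fnl (2 * j + 3) (St t) (fun F => GVm (j + 1) (tc (2 * j + 2) F)) := gy_tc_fnl h5 ht v1
  have hρ0 : Fnl (2 * j + 3) (St t) (fun F => GVm (j + 1) (tc (2 * j + 2) F) - Omm j F) := w1.subF o1
  refine ⟨fun F => GVm (j + 1) (tc (2 * j + 2) (Av (2 * j + 3) F)) - Omm j (Av (2 * j + 3) F),
    gy_av_fnl h14 ht hρ0, gy_av_rot h9 h14 ht hρ0, fun s1 hs1 F hF => ?_, fun s1 hs1 F hF => ?_⟩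
  · have hs10 : 0 < s1 := ht.trans hs1
    have hm : St t ⊆ St s1 := St_mono hs1.le
    have b1 := ((h14 (2 * j + 2) s1 hs10).1 F hF).1
    have b2 := gy_wd_BO h4 b1
    have b3 := ((h14 (2 * j + 3) s1 hs10).1 _ (gy_wd_BO h4 hF)).1
    have e := hρ0.ext' (b3.mono hm) (b2.mono hm) fun z hz =>
      (h14 (2 * j + 2) s1 hs10).2.2.2.1 F hF z (PU_mono hm hz)
    show GVm (j + 1) (tc (2 * j + 2) (Av (2 * j + 3) (wd (fun _ => 1) (2 * j + 2) F)))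
      - Omm j (Av (2 * j + 3) (wd (fun _ => 1) (2 * j + 2) F)) = 0
    rw [e, o3 s1 hs1 _ b1]
    -- `tc (1 ∧ G) = G - 1 ∧ tc G`
    have b4 : BO (2 * j + 2) (St s1) (tc (2 * j + 2) (wd (fun _ => 1) (2 * j + 2) (Av (2 * j + 2) F))) :=
      ((h5 (2 * j + 2) s1 hs10).1 _ b2).1
    have b5 : BO (2 * j + 1) (St s1) (tc (2 * j + 1) (Av (2 * j + 2) F)) := ((h5 (2 * j + 1) s1 hs10).1 _ b1).1
    have b6 := gy_wd_BO h4 b5
    have e2 : GVm (j + 1) (tc (2 * j + 2) (wd (fun _ => 1) (2 * j + 2) (Av (2 * j + 2) F)))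
        = GVm (j + 1) (fun z => Av (2 * j + 2) F z - wd (fun _ => 1) (2 * j + 1) (tc (2 * j + 1) (Av (2 * j + 2) F)) z) :=
      v1.ext' (b4.mono hm) ((b1.sub b6).mono hm) fun z hz => (h5 (2 * j + 1) s1 hs10).2.2.1 _ b1 z (PU_mono hm hz)
    have e3 : GVm (j + 1) (fun z => Av (2 * j + 2) F z - wd (fun _ => 1) (2 * j + 1) (tc (2 * j + 1) (Av (2 * j + 2) F)) z)
        = GVm (j + 1) (Av (2 * j + 2) F) - GVm (j + 1) (wd (fun _ => 1) (2 * j + 1) (tc (2 * j + 1) (Av (2 * j + 2) F))) :=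
      v1.sub' (b1.mono hm) (b6.mono hm)
    rw [e2, e3, v4 s1 hs1 _ b5]
    ring
  · have hs10 : 0 < s1 := ht.trans hs1
    have hm : St t ⊆ St s1 := St_mono hs1.le
    obtain ⟨m, hm1, hm2⟩ : ∃ m, t < m ∧ m < s1 := exists_between hs1
    have hm0 : 0 < m := ht.trans hm1
    have hmt : St t ⊆ St m := St_mono hm1.le
    have b1 := ((h14 (2 * j + 4) s1 hs10).1 F hF).1
    have b2 : BO (2 * j + 3) (St t) (dd (2 * j + 3) (Av (2 * j + 4) F)) := gy_dd_BO h1 hs1 b1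
    have b3 : BO (2 * j + 3) (St t) (Av (2 * j + 3) (dd (2 * j + 3) F)) :=
      ((h14 (2 * j + 3) t ht).1 _ (gy_dd_BO h1 hs1 hF)).1
    have e := hρ0.ext' b3 b2 fun z hz =>
      ((h14 (2 * j + 3) s1 hs10).2.2.1 F hF z (PU_mono hm hz)).symm
    show GVm (j + 1) (ec (2 * j + 2) F) = GVm (j + 1) (tc (2 * j + 2) (Av (2 * j + 3) (dd (2 * j + 3) F)))
      - Omm j (Av (2 * j + 3) (dd (2 * j + 3) F))
    rw [e]
    have e2 : Omm j (dd (2 * j + 3) (Av (2 * j + 4) F)) = 0 := o2 s1 hs1 _ b1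
    -- `tc (dd G) = ec G - dd (tc G)`
    have c1 : BO (2 * j + 2) (St s1) (ec (2 * j + 2) (Av (2 * j + 4) F)) := (h6 (2 * j + 2) s1 hs10).1 _ b1
    have c2 : BO (2 * j + 3) (St s1) (tc (2 * j + 3) (Av (2 * j + 4) F)) := ((h5 (2 * j + 3) s1 hs10).1 _ b1).1
    have c3 : BO (2 * j + 2) (St m) (tc (2 * j + 2) (dd (2 * j + 3) (Av (2 * j + 4) F))) :=
      ((h5 (2 * j + 2) m hm0).1 _ (gy_dd_BO h1 hm2 b1)).1
    have c4 : BO (2 * j + 2) (St m) (dd (2 * j + 2) (tc (2 * j + 3) (Av (2 * j + 4) F))) := gy_dd_BO h1 hm2 c2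
    have e3 : GVm (j + 1) (tc (2 * j + 2) (dd (2 * j + 3) (Av (2 * j + 4) F)))
        = GVm (j + 1) (fun z => ec (2 * j + 2) (Av (2 * j + 4) F) z - dd (2 * j + 2) (tc (2 * j + 3) (Av (2 * j + 4) F)) z) :=
      v1.ext' (c3.mono hmt) ((c1.mono hm).sub (c4.mono hmt)) fun z hz =>
        (h5 (2 * j + 2) s1 hs10).2.1 _ b1 z (PU_mono hm hz)
    have e4 : GVm (j + 1) (fun z => ec (2 * j + 2) (Av (2 * j + 4) F) z - dd (2 * j + 2) (tc (2 * j + 3) (Av (2 * j + 4) F)) z)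
        = GVm (j + 1) (ec (2 * j + 2) (Av (2 * j + 4) F)) - GVm (j + 1) (dd (2 * j + 2) (tc (2 * j + 3) (Av (2 * j + 4) F))) :=
      v1.sub' (c1.mono hm) (c4.mono hmt)
    have e5 : GVm (j + 1) (dd (2 * j + 2) (tc (2 * j + 3) (Av (2 * j + 4) F))) = 0 := v2 s1 hs1 _ c2
    -- `GV (ec (Av F)) = GV (ec F)`
    have r1 : Fnl (2 * j + 4) (St t) (fun F => GVm (j + 1) (ec (2 * j + 2) F)) := gy_ec_fnl h1 h5 h6 ht v1
    have r2 : Rot (2 * j + 4) t (fun F => GVm (j + 1) (ec (2 * j + 2) F)) := by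
      intro s2 hs2 G hG u
      have hs20 : 0 < s2 := ht.trans hs2
      have hm' : St t ⊆ St s2 := St_mono hs2.le
      have d0 := (h6 (2 * j + 2) s2 hs20).1 G hG
      have d1 := (h6 (2 * j + 2) s2 hs20).1 _ ((h9 (2 * j + 4) s2 u hs20).1 G hG)
      have d2 := (h9 (2 * j + 2) s2 u hs20).1 _ d0
      have f : GVm (j + 1) (ec (2 * j + 2) (shf u G)) = GVm (j + 1) (shf u (ec (2 * j + 2) G)) :=
        v1.ext' (d1.mono hm') (d2.mono hm') fun z hz => (h9 (2 * j + 2) s2 u hs20).2.2.2.2.1 G hG z (PU_mono hm' hz)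
      show GVm (j + 1) (ec (2 * j + 2) (shf u G)) = GVm (j + 1) (ec (2 * j + 2) G)
      rw [f]
      exact v3 s2 hs2 _ d0 u
    have e6 := (h14 (2 * j + 4) t ht).2.2.2.2.2.2 _ r1 r2 s1 hs1 F hF
    rw [e2, e3, e4, e5, e6]
    ring

theorem st_E21 (h1 : ST_E1) (h4 : ST_E4) (h5 : ST_E5) (h6 : ST_E6) (h9 : ST_E9) (h10 : ST_E10) (h13 : ST_E13)
    (h14 : ST_E14) (h20 : ST_E20) : ST_E21 := by
  intro k
  induction k with
  | zero =>
    obtain ⟨sA, hsA, HA⟩ := gy_even h1 h4 h9 h10 h13 h14 h20 0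
    refine ⟨sA, hsA, fun s' s a b c α f1 f2 f3 f4 => ?_⟩
    have hs0 : 0 < s := a.trans b
    obtain ⟨y, β1, hG, hE⟩ := HA s' s a b c α f1 f2 f3 f4
    obtain ⟨β, g1, g2, g3, g4⟩ := gy_step h1 h4 h5 h6 h9 hs0 hG
    have hι := (gy_iota h4 h9 hs0 hG).1
    refine ⟨β1 (wd (fun _ => 1) 0 fun _ => 1), y, β, g1, g2, g3, fun s1 hs1 F hF => ?_⟩
    have one_BO : BO 0 (St s) (fun _ => 1) := by
      refine ⟨differentiableOn_const 1, fun _ _ _ => rfl, fun _ _ σ => ?_, ⟨1, fun _ _ => by simp⟩⟩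
      have : σ = 1 := Subsingleton.elim _ _
      rw [this]
      simp
    have e1 := hι.smul (Em (0 + 1) F) (fun _ => 1) one_BO
    have e2 : (fun z : Fin (2 * 0) → ℂ => Em (0 + 1) F * 1) = ec (2 * 0) F := by
      funext z
      rw [mul_one]
      show ec (2 * 0) F (fun _ => 0) = ec (2 * 0) F z
      congr 1
      funext i
      exact i.elim0
    have e3 := hE s1 hs1 F hF
    have e4 := g4 s1 hs1 F hF
    have e5 : β1 (wd (fun _ => 1) (2 * 0) (ec (2 * 0) F)) = Em (0 + 1) F * β1 (wd (fun _ => 1) 0 fun _ => 1) := by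
      rw [← e2]
      exact e1
    rw [e3, e4, e5]
    ring
  | succ j ih =>
    obtain ⟨sA, hsA, HA⟩ := gy_even h1 h4 h9 h10 h13 h14 h20 (j + 1)
    obtain ⟨sB, hsB, HB⟩ := ih
    refine ⟨min sA sB, lt_min hsA hsB, fun s' s a b c α f1 f2 f3 f4 => ?_⟩
    have cA := c.trans_le (min_le_left sA sB)
    have cB := c.trans_le (min_le_right sA sB)
    obtain ⟨t, ht1, ht2⟩ := exists_between b
    have ht0 : 0 < t := a.trans ht1
    have hs0 : 0 < s := a.trans b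
    obtain ⟨y, β1, hG, hE⟩ := HA s' t a ht1 (ht2.trans cA) α f1 f2 f3 f4
    obtain ⟨β, g1, g2, g3, g4⟩ := gy_step h1 h4 h5 h6 h9 ht0 hG
    obtain ⟨i1, i2, i3⟩ := gy_iota h4 h9 ht0 hG
    have i4 := gy_iota_io (q := 2 * j + 1) hG
    obtain ⟨x', y', β2, k1, k2, k3, k4⟩ := HB t s ht0 ht2 cB (fun F => β1 (wd (fun _ => 1) (2 * j + 2) F)) i1 i2 i3 i4
    obtain ⟨l1, l2, l3, l4⟩ := gy_ecβ h1 h4 h5 h6 h9 hs0 k1 k2 k3
    obtain ⟨ρ, m1, m2, m3, m4⟩ := gy_rho h1 h4 h5 h6 h9 h10 h14 j hs0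
    refine ⟨x', y, fun F => β F + (y' * ρ F + β2 (ec (2 * j + 1) F)),
      (g1.mono' (St_mono ht2.le)).addF ((m1.smulF y').addF l1), ?_, ?_, ?_⟩
    · intro s1 hs1 F hF u
      show β (shf u F) + (y' * ρ (shf u F) + β2 (ec (2 * j + 1) (shf u F))) = β F + (y' * ρ F + β2 (ec (2 * j + 1) F))
      rw [g2 s1 (ht2.trans hs1) F hF u]
      congr 1
      have p1 := m2 s1 hs1 F hF u
      have p2 := l2 s1 hs1 F hF u
      simp only at p2
      exact congrArg₂ (· + ·) (congrArg (y' * ·) p1) p2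
    · intro s1 hs1 F hF
      have p1 := g3 s1 (ht2.trans hs1) F hF
      have p2 := m3 s1 hs1 F hF
      have p3 := l3 s1 hs1 F hF
      simp only at p3
      show β (wd (fun _ => 1) (2 * (j + 1)) F) + (y' * ρ (wd (fun _ => 1) (2 * j + 2) F)
        + β2 (ec (2 * j + 1) (wd (fun _ => 1) (2 * j + 2) F))) = 0
      rw [p1, p2, p3]
      ring
    · intro s1 hs1 F hF
      have hs10 : 0 < s1 := hs0.trans hs1
      have p1 := hE s1 (ht2.trans hs1) F hF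
      have p2 := g4 s1 (ht2.trans hs1) F hF
      have b1 : BO (2 * j + 2) (St s1) (ec (2 * j + 2) F) := (h6 (2 * j + 2) s1 hs10).1 F hF
      have p3 := k4 s1 hs1 _ b1
      have p4 := l4 s1 hs1 F hF
      have p5 := m4 s1 hs1 F hF
      change β1 (dd (2 * j + 3) F) = β (dd (2 * j + 3) F) + β1 (wd (fun _ => 1) (2 * j + 2) (ec (2 * j + 2) F)) at p2
      change α F = y * GVm (j + 1 + 1) F + β1 (dd (2 * j + 3) F) at p1
      have p6 : Em (j + 1 + 1) F = Em (j + 1) (ec (2 * j + 2) F) := rfl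
      show α F = x' * Em (j + 1 + 1) F + y * GVm (j + 1 + 1) F
        + (β (dd (2 * j + 3) F) + (y' * ρ (dd (2 * j + 3) F) + β2 (ec (2 * j + 1) (dd (2 * j + 3) F))))
      rw [p1, p2, p3, p4, p5, p6]
      ring

theorem st_E22 (h1 : ST_E1) (h4 : ST_E4) (h5 : ST_E5) (h6 : ST_E6) (h9 : ST_E9) (h10 : ST_E10) (h13 : ST_E13)
    (h14 : ST_E14) (h20 : ST_E20) : ST_E22 := by
  have hone : ∃ s0 : ℝ, 0 < s0 ∧ ∀ s' s, 0 < s' → s' < s → s < s0 →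
      ∀ α, Fnl 1 (St s') α → Clo 1 s' α → ∀ s1, s < s1 → ∀ F, BO 1 (St s1) F → α F = 0 := by
    obtain ⟨s0, hs0, H⟩ := h20 0
    exact ⟨s0, hs0, fun s' s a b c α f1 f2 s1 hs1 F hF => (H s' s a b c).2 rfl α f1 f2 s1 hs1 F hF⟩
  refine ⟨hone, fun k => ?_⟩
  induction k with
  | zero =>
    obtain ⟨sA, hsA, HA⟩ := gy_odd h1 h4 h9 h10 h13 h14 h20 0
    obtain ⟨sB, hsB, HB⟩ := hone
    refine ⟨min sA sB, lt_min hsA hsB, fun s' s a b c α f1 f2 f3 f4 => ?_⟩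
    have cA := c.trans_le (min_le_left sA sB)
    have cB := c.trans_le (min_le_right sA sB)
    obtain ⟨t, ht1, ht2⟩ := exists_between b
    have ht0 : 0 < t := a.trans ht1
    have hs0 : 0 < s := a.trans b
    obtain ⟨β1, hG, hE⟩ := HA s' t a ht1 (ht2.trans cA) α f1 f2 f3 f4
    obtain ⟨β, g1, g2, g3, g4⟩ := gy_step h1 h4 h5 h6 h9 ht0 hG
    obtain ⟨i1, i2, i3⟩ := gy_iota h4 h9 ht0 hG
    refine ⟨β, g1.mono' (St_mono ht2.le), gy_mono_Rot ht2.le g2, gy_mono_Io ht2.le g3, fun s1 hs1 F hF => ?_⟩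
    have hs10 : 0 < s1 := hs0.trans hs1
    have p1 := hE s1 (ht2.trans hs1) F hF
    have p2 := g4 s1 (ht2.trans hs1) F hF
    have b1 : BO 1 (St s1) (ec 1 F) := (h6 1 s1 hs10).1 F hF
    have p3 : β1 (wd (fun _ => 1) 1 (ec 1 F)) = 0 := HB t s ht0 ht2 cB _ i1 i2 s1 hs1 _ b1
    rw [p1, p2]
    change β (dd (2 * 0 + 2) F) + β1 (wd (fun _ => 1) 1 (ec 1 F)) = β (dd (2 * 0 + 2) F)
    rw [p3, add_zero]
  | succ j ih =>
    obtain ⟨sA, hsA, HA⟩ := gy_odd h1 h4 h9 h10 h13 h14 h20 (j + 1)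
    obtain ⟨sB, hsB, HB⟩ := ih
    refine ⟨min sA sB, lt_min hsA hsB, fun s' s a b c α f1 f2 f3 f4 => ?_⟩
    have cA := c.trans_le (min_le_left sA sB)
    have cB := c.trans_le (min_le_right sA sB)
    obtain ⟨t, ht1, ht2⟩ := exists_between b
    have ht0 : 0 < t := a.trans ht1
    have hs0 : 0 < s := a.trans b
    obtain ⟨β1, hG, hE⟩ := HA s' t a ht1 (ht2.trans cA) α f1 f2 f3 f4
    obtain ⟨β, g1, g2, g3, g4⟩ := gy_step h1 h4 h5 h6 h9 ht0 hG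
    obtain ⟨i1, i2, i3⟩ := gy_iota h4 h9 ht0 hG
    have i4 := gy_iota_io (q := 2 * j + 2) hG
    obtain ⟨β2, k1, k2, k3, k4⟩ := HB t s ht0 ht2 cB (fun F => β1 (wd (fun _ => 1) (2 * j + 3) F)) i1 i2 i3 i4
    obtain ⟨l1, l2, l3, l4⟩ := gy_ecβ h1 h4 h5 h6 h9 hs0 k1 k2 k3
    refine ⟨fun F => β F + β2 (ec (2 * j + 2) F), (g1.mono' (St_mono ht2.le)).addF l1, ?_, ?_, ?_⟩
    · intro s1 hs1 F hF u
      show β (shf u F) + β2 (ec (2 * j + 2) (shf u F)) = β F + β2 (ec (2 * j + 2) F)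
      rw [g2 s1 (ht2.trans hs1) F hF u]
      congr 1
      exact l2 s1 hs1 F hF u
    · intro s1 hs1 F hF
      have p1 := g3 s1 (ht2.trans hs1) F hF
      have p3 := l3 s1 hs1 F hF
      simp only at p3
      show β (wd (fun _ => 1) (2 * (j + 1) + 1) F) + β2 (ec (2 * j + 2) (wd (fun _ => 1) (2 * j + 3) F)) = 0
      rw [p1, p3, add_zero]
    · intro s1 hs1 F hF
      have hs10 : 0 < s1 := hs0.trans hs1
      have p1 := hE s1 (ht2.trans hs1) F hF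
      have p2 := g4 s1 (ht2.trans hs1) F hF
      have b1 : BO (2 * j + 3) (St s1) (ec (2 * j + 3) F) := (h6 (2 * j + 3) s1 hs10).1 F hF
      have p3 := k4 s1 hs1 _ b1
      have p4 := l4 s1 hs1 F hF
      change β1 (dd (2 * j + 4) F) = β (dd (2 * j + 4) F) + β1 (wd (fun _ => 1) (2 * j + 3) (ec (2 * j + 3) F)) at p2
      change α F = β1 (dd (2 * j + 4) F) at p1
      show α F = β (dd (2 * j + 4) F) + β2 (ec (2 * j + 2) (dd (2 * j + 4) F))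
      rw [p1, p2, p3]
      congr 1

end

end Pool.Agent.Helper67.DO
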