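import Pool.Agent.Helper67.DO.BaseD2

/-!
# `(*)_p` (section 13 of h67_domega_proof.md)
-/

namespace Pool.Agent.Helper67.DO

open scoped BigOperators Real
open MeasureTheory

noncomputable section

/-- from a group cocycle to a Lie cocycle -/
theorem star_common (hSM : ST_SM) (h2 : ST_D2) (h4 : ST_D4) (h5 : ST_D5) (h7 : ST_D7) (h11 : ST_D11)
    (h12 : ST_D12) (h13 : ST_D13) (h14 : ST_D14) (h19 : ST_D19) (n : ℕ) (hn : 2 ≤ n) (ρ s M s' : ℝ)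
    (hI : Inv n ρ s M) (hs'0 : 0 < s') (hs' : s' < s) :
    ∃ n' : ℕ, n ≤ n' ∧ ∀ (p : ℕ) (C : Sq → ℂ), LC n' (p + 1) C → CocL n' (p + 1) C →
      ∃ α B, Fnl (p + 1) (St s') α ∧ Clo (p + 1) s' α ∧ Rot (p + 1) s' α ∧ Io p s' α ∧ LC n p B ∧
        ∀ y : Sq, (∀ k, y k ∈ AA n) → C y = (-1 : ℂ) ^ (p + 1) * II ρ (p + 1) α y + dlt p B y := by
  have hn1 : 1 ≤ n := by omega
  have hs1 : s ≤ 1 := hI.pos.2.2.1
  have hs00 : 0 < s' / 2 := by linarith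
  obtain ⟨n', hnn', hg⟩ := h4 n (s' / 2) hn1 hs00 (by linarith)
  obtain ⟨Ω, iT, iC, iH, iS, iM, iB, P, iP, η, w, Cw, hsmd⟩ := hSM (s' / 2) hs00 (by linarith)
  refine ⟨n', hnn', fun p C hC hcoc => ?_⟩
  have ctx : Ctx n n' ρ s M (s' / 2) Ω P η w Cw := ⟨hI, hs00, by linarith, ⟨hn1, hnn', hg⟩, hsmd⟩
  obtain ⟨-, -, d3, d4, d5⟩ := h5 n n' (p + 1) ρ s M (s' / 2) Ω P η w Cw ctx C hC
  obtain ⟨m2, h, hh, hpr⟩ := h12 n n' p ρ s M (s' / 2) Ω P η w Cw ctx C hC hcoc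
  have mc : MC n (p + 1) (CJ P η w ρ (p + 1) C) := by
    refine ⟨?_, ?_, d3, ?_, d4, m2, ?_⟩
    · intro j _ y y' v hy
      unfold CJ
      congr 1
      funext ω
      congr 1
      · refine hC.dep _ _ fun k hk => ?_
        have hk' : k < p + 1 + 1 := by omega
        rw [dif_pos hk', dif_pos hk', hy k hk]
      · refine Finset.prod_congr rfl fun b _ => ?_
        rw [hy b (by omega)]
    · intro j _ y v v' hv
      unfold CJ
      congr 1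
      funext ω
      congr 1
      refine Finset.prod_congr rfl fun b _ => ?_
      split_ifs with hb
      · rw [hv b hb]
      · rfl
    · intro j hj y v t t' K hy hv
      have hy' : ∀ k, (fun x => y k x + t k) ∈ AA n := fun k => (h2.2.2.2.2.1 n hn1 (y k) (hy k) (t k)).1
      rw [h7 n n' (p + 1) ρ s M (s' / 2) Ω P η w Cw ctx C hC j hj (fun k x => y k x + t k) v t' K hy' hv]
      exact d5 j hj y v t K hy hv
    · exact fun j hj y z hy hz => h11 n n' (p + 1) ρ s M (s' / 2) Ω P η w Cw ctx C hC j hj y z hy hz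
  obtain ⟨α, a1, a2, a3, a4, a5⟩ := h19 n n' p ρ s M (s' / 2) s' Ω P η w Cw ctx hn (by linarith) hs' C hC hcoc
  refine ⟨α, fun y => BB (p + 1) (CJ P η w ρ (p + 1) C) y + h y, a1, a2, a3, a4,
    (h14 n p _ hn1 mc).1.add hh, fun y hy => ?_⟩
  rw [hpr y (fun _ _ => 0) hy, h13 n p _ hn1 mc y y hy, a5 y y hy, dlt_add]
  ring

theorem star_zero_mem {n : ℕ} {K : ℝ} {Φ : ℝ → ℝ} (hΦ : Φ ∈ AA n) (hK : 0 ≤ K) : (0 : ℝ → ℝ) ∈ VV n K := by
  refine ⟨⟨Φ, hΦ, Φ, hΦ, ?_⟩, fun x => by simpa using hK⟩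
  funext x
  simp

theorem star_dirs_mem {n q : ℕ} {K : ℝ} {y : Sq} {u : Fin q → ℝ} (hq : 0 < q) (hy : ∀ k, y k ∈ AA n)
    (hK : ∀ a, dPhi q y a u ∈ VV n K) (σ : Fin q → Fin q) (b : ℕ) : dirs y u σ b ∈ VV n K := by
  unfold dirs
  split_ifs with h
  · exact hK _
  · exact star_zero_mem (hy 0) (VV_nonneg (hK ⟨0, hq⟩))

/-- `e^m` and `gv^m` are cohomologous to the integrals of `E_m`, `GV_m` -/
theorem star_class (h2 : ST_D2) (h13 : ST_D13) (h14 : ST_D14) (n : ℕ) (hn : 1 ≤ n) (ρ : ℝ) (k : ℕ) (c : ℕ → Sq → Sq → ℂ) (hc : MC n (2 * k + 1 + 1) c) (W : Sq → ℂ)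
    (l : ((Fin (2 * k + 2) → ℂ) → ℂ) → ℂ)
    (hW : ∀ y v : Sq, (∀ k, y k ∈ AA n) → c 0 y v = W y)
    (hv : ∀ Φ ∈ AA n, ∀ (K : ℝ) (v : Fin (2 * k + 2) → ℝ → ℝ), (∀ a, v a ∈ VV n K) →
      l (WW fun a => pull ρ Φ (v a)) = ∑ σ : Equiv.Perm (Fin (2 * k + 2)), ((Equiv.Perm.sign σ : ℤ) : ℂ) *
        c (2 * k + 2) (fun _ => Φ) (fun b => if h : b < 2 * k + 2 then v (σ ⟨b, h⟩) else 0)) :
    ∃ B, LC n (2 * k + 1) B ∧ ∀ y : Sq, (∀ k, y k ∈ AA n) → W y = II ρ (2 * k + 2) l y + dlt (2 * k + 1) B y := by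
  refine ⟨BB (2 * k + 1 + 1) c, (h14 n (2 * k + 1) c hn hc).1, fun y hy => ?_⟩
  have e := h13 n (2 * k + 1) c hn hc y y hy
  rw [hW y _ hy] at e
  rw [e]
  congr 1
  have h1 : (-1 : ℂ) ^ (2 * k + 1 + 1) = 1 := by
    rw [show 2 * k + 1 + 1 = 2 * (k + 1) by ring, pow_mul]
    simp
  rw [h1, one_mul]
  unfold II cub
  obtain ⟨K, hK⟩ := h2.2.2.2.2.2.2.2 n hn (2 * k + 2) y hy
  refine setIntegral_congr_fun measurableSet_Icc fun u hu => ?_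
  have hΦ := h2.2.2.2.2.2.2.1 n hn (2 * k + 2) y hy u hu
  show fF c (2 * k + 1 + 1) y y u = l (WW fun a => pull ρ (Phi (2 * k + 2) y u) (dPhi (2 * k + 2) y a u))
  rw [hv _ hΦ K (fun a => dPhi (2 * k + 2) y a u) (hK u hu)]
  unfold fF
  refine Finset.sum_congr rfl fun σ _ => ?_
  congr 1
  have h3 : c (2 * k + 1 + 1) (Tp (2 * k + 1 + 1) (Phi (2 * k + 1 + 1) y u) y) (dirs y u σ)
      = c (2 * k + 2) (fun _ => Phi (2 * k + 2) y u) (dirs y u σ) := by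
    refine hc.depΦ (2 * k + 2) le_rfl _ _ _ fun i hi => ?_
    unfold Tp
    rw [if_pos (show i ≤ 2 * k + 1 + 1 from hi)]
  rw [h3]
  rfl

theorem st_STARe (hSM : ST_SM) (h1 : ST_D1) (h2 : ST_D2) (h4 : ST_D4) (h5 : ST_D5) (h7 : ST_D7)
    (h11 : ST_D11) (h12 : ST_D12) (h13 : ST_D13) (h14 : ST_D14) (h15 : ST_D15) (h16 : ST_D16) (h17 : ST_D17)
    (h18 : ST_D18) (h19 : ST_D19) (e10 : ST_E10) (e11 : ST_E11) (e21 : ST_E21) : ST_STARe := by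
  intro k n0 hn0
  -- pass to a level at least 2
  obtain ⟨n, hn2, hn0n⟩ : ∃ n, 2 ≤ n ∧ n0 ≤ n := ⟨max n0 2, le_max_right _ _, le_max_left _ _⟩
  have hn : 1 ≤ n := by omega
  have hsub := h2.1 n0 n hn0 hn0n
  obtain ⟨ρ, s, M, hI⟩ := h1 n hn
  obtain ⟨sG, hsG, hG⟩ := e21 k
  have hs : 0 < s := hI.pos.1
  -- strips
  obtain ⟨t, ht0, hts, htG⟩ : ∃ t, 0 < t ∧ t < s ∧ t < sG := ⟨min s sG / 2, by positivity, by
    have := min_le_left s sG
    linarith, by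
    have := min_le_right s sG
    linarith⟩
  obtain ⟨n', hnn', H⟩ := star_common hSM h2 h4 h5 h7 h11 h12 h13 h14 h19 n hn2 ρ s M (t / 2) hI (by linarith)
    (by linarith)
  refine ⟨n', hn0n.trans hnn', fun C hC hcoc => ?_⟩
  obtain ⟨α, B0, a1, a2, a3, a4, hB0, hCy⟩ := H (2 * k + 1) C hC hcoc
  obtain ⟨x, y, β, b1, b2, b3, b4⟩ := hG (t / 2) t (by linarith) (by linarith) htG α a1 a2 a3 a4
  -- the classes
  have hst : 0 < s := hs
  obtain ⟨ce, hce, hce0, hce1⟩ := h15 n (k + 1) hn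
  obtain ⟨cg, hcg, hcg0, hcg1⟩ := h16 n (k + 1) hn
  have key : ∀ Φ ∈ AA n, ∀ (K : ℝ) (v : Fin (2 * k + 2) → ℝ → ℝ), (∀ a, v a ∈ VV n K) →
      (∀ i, DifferentiableOn ℂ (pull ρ Φ (v i)) (St s)) ∧ (∀ i, ∀ z ∈ St s, pull ρ Φ (v i) (z + 1) = pull ρ Φ (v i) z) :=
    fun Φ hΦ K v hv => ⟨fun i => (pull_prop hI hΦ (hv i)).1, fun i => (pull_prop hI hΦ (hv i)).2.1⟩
  have hmem : ∀ Φ ∈ AA n, ∀ (K : ℝ) (v : Fin (2 * k + 2) → ℝ → ℝ), (∀ a, v a ∈ VV n K) →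
      ∀ σ : Equiv.Perm (Fin (2 * k + 2)), ∀ b : ℕ,
        (fun b => if h : b < 2 * k + 2 then v (σ ⟨b, h⟩) else 0 : Sq) b ∈ VV n K := by
    intro Φ hΦ K v hv σ b
    simp only
    split_ifs with h
    · exact hv _
    · exact star_zero_mem hΦ (VV_nonneg (hv 0))
  obtain ⟨Be, hBe, hBe'⟩ := star_class h2 h13 h14 n hn ρ k ce hce (ePow (k + 1)) (Em (k + 1)) hce0 (by
    intro Φ hΦ K v hv
    have e := (e11 (k + 1) s hst (fun a => pull ρ Φ (v a)) (key Φ hΦ K v hv).1 (key Φ hΦ K v hv).2).1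
    refine e.trans (Finset.sum_congr rfl fun σ _ => ?_)
    rw [show ce (2 * k + 2) = ce (2 * (k + 1)) from rfl, hce1 Φ hΦ K _ (hmem Φ hΦ K v hv σ), Finset.prod_range]
    congr 1
    refine Finset.prod_congr rfl fun i _ => ?_
    have i1 : 2 * (i : ℕ) < 2 * k + 2 := by omega
    have i2 : 2 * (i : ℕ) + 1 < 2 * k + 2 := by omega
    rw [dif_pos i1, dif_pos i2]
    exact (h17 n ρ s M K hI Φ hΦ _ (hv _) _ (hv _)).1)
  obtain ⟨Bg, hBg, hBg'⟩ := star_class h2 h13 h14 n hn ρ k cg hcg (gvPow (k + 1)) (GVm (k + 1)) hcg0 (by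
    intro Φ hΦ K v hv
    have e := (e11 (k + 1) s hst (fun a => pull ρ Φ (v a)) (key Φ hΦ K v hv).1 (key Φ hΦ K v hv).2).2
    refine e.trans (Finset.sum_congr rfl fun σ _ => ?_)
    rw [show cg (2 * k + 2) = cg (2 * (k + 1)) from rfl, hcg1 Φ hΦ K _ (hmem Φ hΦ K v hv σ), Finset.prod_range]
    congr 1
    refine Finset.prod_congr rfl fun i _ => ?_
    have i1 : 2 * (i : ℕ) < 2 * k + 2 := by omega
    have i2 : 2 * (i : ℕ) + 1 < 2 * k + 2 := by omega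
    rw [dif_pos i1, dif_pos i2]
    exact (h17 n ρ s M K hI Φ hΦ _ (hv _) _ (hv _)).2)
  -- the primitive
  obtain ⟨hLβ, hdβ⟩ := h18 n (2 * k) ρ s M t hn hI ht0 hts β b1 b2 b3
  have hE : Fnl (2 * k + 2) (St t) (Em (k + 1)) := (e10 (k + 1) t ht0).1
  have hGV : Fnl (2 * k + 2) (St t) (GVm (k + 1)) := (e10 (k + 1) t ht0).2.2.2.1
  refine ⟨x, y, fun Y => B0 Y + (-1 * II ρ (2 * k + 1) β Y + ((-x) * Be Y + (-y) * Bg Y)), ?_, fun Y hY0 => ?_⟩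
  · exact ((hB0.add ((hLβ.smul (-1)).add ((hBe.smul (-x)).add (hBg.smul (-y)))))).mono hsub
  have hY : ∀ k, Y k ∈ AA n := fun k => hsub (hY0 k)
  -- the functional `β ∘ ∂` on `St s` is `α - x E - y GV`
  have hsplit : II ρ (2 * k + 2) α Y = x * II ρ (2 * k + 2) (Em (k + 1)) Y + y * II ρ (2 * k + 2) (GVm (k + 1)) Y
      + II ρ (2 * k + 2) (fun F => β (dd (2 * k + 1) F)) Y := by
    have c1 : II ρ (2 * k + 2) (fun F => β (dd (2 * k + 1) F)) Y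
        = II ρ (2 * k + 2) (fun F => α F + ((-x) * Em (k + 1) F + (-y) * GVm (k + 1) F)) Y := by
      refine II_congr h2 hn hI (fun F hF => ?_) hY
      have := b4 s hts F hF
      show β (dd (2 * k + 1) F) = α F + ((-x) * Em (k + 1) F + (-y) * GVm (k + 1) F)
      rw [this]
      ring
    have a1' : Fnl (2 * k + 2) (St t) α := a1.mono' (St_mono (by linarith))
    rw [c1, II_add h2 hn hI hts.le a1' ((hE.smulF (-x)).addF (hGV.smulF (-y))) hY,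
      II_add h2 hn hI hts.le (hE.smulF (-x)) (hGV.smulF (-y)) hY, II_smul, II_smul]
    ring
  have hsgn : (-1 : ℂ) ^ (2 * k + 1 + 1) = 1 := by
    rw [show 2 * k + 1 + 1 = 2 * (k + 1) by ring, pow_mul]
    simp
  have e1 := hBe' Y hY
  have e2 := hBg' Y hY
  have e3 := hdβ Y hY
  have e4 := hCy Y hY
  rw [hsgn, one_mul] at e4
  have e5 : II ρ (2 * k + 2) (fun F => β (dd (2 * k + 1) F)) Y = - dlt (2 * k + 1) (II ρ (2 * k + 1) β) Y := by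
    rw [e3, neg_neg]
  rw [e4]
  change II ρ (2 * k + 2) α Y + _ = _
  rw [hsplit, dlt_add, dlt_add, dlt_add, dlt_smul, dlt_smul, dlt_smul, e1, e2, e5]
  have e6 : (fun Y => II ρ (2 * k + 1) β Y) = II ρ (2 * k + 1) β := rfl
  ring

theorem st_STARo (hSM : ST_SM) (h1 : ST_D1) (h2 : ST_D2) (h4 : ST_D4) (h5 : ST_D5) (h7 : ST_D7)
    (h11 : ST_D11) (h12 : ST_D12) (h13 : ST_D13) (h14 : ST_D14)
    (h18 : ST_D18) (h19 : ST_D19) (e22 : ST_E22) : ST_STARo := by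
  intro k n0 hn0
  obtain ⟨n, hn2, hn0n⟩ : ∃ n, 2 ≤ n ∧ n0 ≤ n := ⟨max n0 2, le_max_right _ _, le_max_left _ _⟩
  have hn : 1 ≤ n := by omega
  have hsub := h2.1 n0 n hn0 hn0n
  obtain ⟨ρ, s, M, hI⟩ := h1 n hn
  have hs : 0 < s := hI.pos.1
  cases k with
  | zero =>
    obtain ⟨sG, hsG, hG⟩ := e22.1
    obtain ⟨t, ht0, hts, htG⟩ : ∃ t, 0 < t ∧ t < s ∧ t < sG := ⟨min s sG / 2, by positivity, by
      have := min_le_left s sG
      linarith, by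
      have := min_le_right s sG
      linarith⟩
    obtain ⟨n', hnn', H⟩ := star_common hSM h2 h4 h5 h7 h11 h12 h13 h14 h19 n hn2 ρ s M (t / 2) hI (by linarith)
      (by linarith)
    refine ⟨n', hn0n.trans hnn', fun C hC hcoc => ?_⟩
    obtain ⟨α, B0, a1, a2, a3, a4, hB0, hCy⟩ := H 0 C hC hcoc
    refine ⟨B0, hB0.mono hsub, fun Y hY0 => ?_⟩
    have hY : ∀ k, Y k ∈ AA n := fun k => hsub (hY0 k)
    have h0 : II ρ 1 α Y = 0 := by
      have e := II_congr h2 hn hI (l := α) (m := fun _ => 0)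
        (fun F hF => hG (t / 2) t (by linarith) (by linarith) htG α a1 a2 s hts F hF) hY
      rw [e]
      unfold II cub
      simp
    have := hCy Y hY
    change C Y = (-1 : ℂ) ^ (0 + 1) * II ρ 1 α Y + dlt 0 B0 Y at this
    rw [h0, mul_zero, zero_add] at this
    exact this
  | succ k =>
    obtain ⟨sG, hsG, hG⟩ := e22.2 k
    obtain ⟨t, ht0, hts, htG⟩ : ∃ t, 0 < t ∧ t < s ∧ t < sG := ⟨min s sG / 2, by positivity, by
      have := min_le_left s sG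
      linarith, by
      have := min_le_right s sG
      linarith⟩
    obtain ⟨n', hnn', H⟩ := star_common hSM h2 h4 h5 h7 h11 h12 h13 h14 h19 n hn2 ρ s M (t / 2) hI (by linarith)
      (by linarith)
    refine ⟨n', hn0n.trans hnn', fun C hC hcoc => ?_⟩
    obtain ⟨α, B0, a1, a2, a3, a4, hB0, hCy⟩ := H (2 * k + 2) C hC hcoc
    obtain ⟨β, b1, b2, b3, b4⟩ := hG (t / 2) t (by linarith) (by linarith) htG α a1 a2 a3 a4
    obtain ⟨hLβ, hdβ⟩ := h18 n (2 * k + 1) ρ s M t hn hI ht0 hts β b1 b2 b3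
    refine ⟨fun Y => B0 Y + II ρ (2 * k + 2) β Y, (hB0.add hLβ).mono hsub, fun Y hY0 => ?_⟩
    have hY : ∀ k, Y k ∈ AA n := fun k => hsub (hY0 k)
    have hsgn : (-1 : ℂ) ^ (2 * k + 2 + 1) = -1 := by
      rw [show 2 * k + 2 + 1 = 2 * (k + 1) + 1 by ring, pow_succ, pow_mul]
      simp
    have e4 := hCy Y hY
    have e3 := hdβ Y hY
    have c1 : II ρ (2 * k + 3) (fun F => β (dd (2 * k + 2) F)) Y = II ρ (2 * k + 3) α Y :=
      II_congr h2 hn hI (fun F hF => (b4 s hts F hF).symm) hY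
    show C Y = dlt (2 * k + 2) (fun Y => B0 Y + II ρ (2 * k + 2) β Y) Y
    rw [e4, hsgn, dlt_add]
    have e3' : dlt (2 * k + 2) (II ρ (2 * k + 2) β) Y = - II ρ (2 * k + 3) α Y := by
      rw [← c1]
      exact e3
    change -1 * II ρ (2 * k + 3) α Y + dlt (2 * k + 2) B0 Y = dlt (2 * k + 2) B0 Y + dlt (2 * k + 2) (II ρ (2 * k + 2) β) Y
    rw [e3']
    ring

end

end Pool.Agent.Helper67.DO
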