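import Pool.Agent.Helper67.DO.X7

/-!
# X9: the dimension bound (10.3)
-/

namespace Pool.Agent.Helper67.DO

open scoped BigOperators Real

noncomputable section

/-- extraction of the functional with the slit `m` -/
theorem x9_A (e1 : ST_E1) (e2 : ST_E2) (w9 : ST_W9) {N m n : ℕ} {b e : ℤ} (hN : 0 < N) (hb : b < 0)
    (hm : ((m + 1 : ℕ) : ℤ) ≤ e) (he : e ≤ b + N) : Loss N fun w' h' w h =>
    ∀ α, Fnl n (US N (PI N b e ∅) (GI N b e) w h) α → CocX N (m + 1) n (PI N b e ∅) (GI N b e) w h α →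
      ∃ αm : ((Fin (n + 1) → ℂ) → ℂ) → ℂ, Fnl (n + 1) (US N (PI N b e {(m : ℤ)}) (GI N b e) w' h') αm ∧
        CocX N m (n + 1) (PI N b e {(m : ℤ)}) (GI N b e) w' h' αm ∧
        SumX N m (n + 1) (PI N b e ∅) (GI N b e) w' h' (fun F => α (dd n F) - αm F) := by
  set P := PI N b e ∅ with hP
  set G := GI N b e with hG
  set Q := PI N b e {(m : ℤ)} with hQ
  have hS : Shape N P G := Shape_PI N b e ∅
  have hT : Shape N Q G := Shape_PI N b e {(m : ℤ)}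
  refine (Loss.of (Φ := fun w' h' w h : ℝ => 0 < w' ∧ w' < w ∧ h < h')
    (fun w' h' w h a b _ _ c => ⟨a, b, c⟩)).comp (x7_D w9 (N := N) (m := m) (q := n + 2) (b := b) (e := e) hN hb hm he) ?_
  intro w' h' w1 k1 w h _ q1 q2 _ _ q3 q4 ⟨p1, p2, p3⟩ D α hα hc
  obtain ⟨αm, a1, a2⟩ := SumX.split hc
  rw [hP, x7_PI, ← hQ] at a1
  have c1 : CocX N m (n + 1) P G w1 k1 (fun F => α (dd n F) - αm F) := CocX.of_SumX e1 hN hS p1 p2 p3 a2
  have c2 : CocX N m (n + 1) P G w h (fun F => α (dd n F)) := CocX.dd e1 e2 hN hS hα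
  have c3 : CocX N m (n + 1) P G w1 k1 αm :=
    ((c2.mono le_rfl le_rfl le_rfl p2.le p3.le).sub c1).congr e1 hN hS fun _ _ _ _ _ F _ => by ring
  have c4 : Fnl (n + 2) (US N Q G w1 k1) (fun F => αm (dd (n + 1) F)) := a1.dd e1 hN hT p1.le p2 p3
  exact ⟨αm, a1.mono' (US_mono le_rfl le_rfl (q1.trans q2).le (q3.trans q4).le), D _ c4 c3,
    a2.mono le_rfl le_rfl le_rfl (q1.trans q2).le (q3.trans q4).le⟩

/-- the end of the argument -/
theorem x9_B {N m n : ℕ} {b e : ℤ} (hN : 0 < N) (hb : b < 0) (hs : QIs m) (hi : QIi m)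
    (hm : ((m + 1 : ℕ) : ℤ) ≤ e) (he : e ≤ b + N) : Loss N fun w' h' w h =>
    ∀ (α : ((Fin n → ℂ) → ℂ) → ℂ) (αm β0 : ((Fin (n + 1) → ℂ) → ℂ) → ℂ) (γ : ((Fin n → ℂ) → ℂ) → ℂ),
      Fnl n (US N (PI N b e ∅) (GI N b e) w h) α →
      SumX N m (n + 1) (PI N b e ∅) (GI N b e) w h (fun F => α (dd n F) - αm F) →
      Fnl (n + 1) (US N (PI N b m ∅) (GI N b m) w h) β0 →
      CocX N m (n + 1) (PI N b m ∅) (GI N b m) w h β0 →
      Fnl n (US N (PI N b e {(m : ℤ)}) (GI N b e) w h) γ →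
      SumX N m (n + 1) (PI N b e {(m : ℤ)}) (GI N b e) w h (fun F => (αm F - β0 F) - γ (dd n F)) →
      ExX N (m + 1) n (PI N b e ∅) (GI N b e) w' h' α := by
  have hm' : ((m + 1 : ℕ) : ℤ) = (m : ℤ) + 1 := by push_cast; ring
  have hme : (m : ℤ) < e := by linarith
  set P := PI N b e ∅ with hP
  set G := GI N b e with hG
  set Q := PI N b e {(m : ℤ)} with hQ
  set P' := PI N b m ∅ with hP'
  set G' := GI N b m with hG'
  have sP : P ⊆ P' := PI_anti hme.le le_rfl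
  have sG : G ⊆ G' := GI_anti hme.le
  have sPQ : P ⊆ Q := PI_anti le_rfl (Set.empty_subset _)
  have sQ : Q ⊆ P' := by
    refine pcl_mono N ?_
    rintro k (⟨h1, h2⟩ | h)
    · exact Or.inl ⟨hme.le.trans h1, h2⟩
    · have hk : k = (m : ℤ) := h
      subst hk
      exact Or.inl ⟨le_rfl, by linarith⟩
  have LI := hi N (n + 1) b m e hN hb le_rfl hme.le he
  have LS := hs N n b m e hN hb le_rfl hme.le he
  refine LI.comp LS ?_
  intro w' h' w1 k1 w h _ q1 q2 _ _ q3 q4 HI HS α αm β0 γ hα h1 f1 f2 hγ h2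
  have d1 : Fnl n (US N P G w h) (fun F => α F - γ F) := hα.subF (hγ.mono' (US_mono sPQ le_rfl le_rfl le_rfl))
  have d3 : SumX N m (n + 1) P G w h (fun F => (αm F - β0 F) - γ (dd n F)) := h2.mono le_rfl sPQ le_rfl le_rfl le_rfl
  have d4 : SumX N m (n + 1) P G w h (fun F => β0 F - (α (dd n F) - γ (dd n F))) :=
    ((h1.add d3).smul (-1)).congr fun _ _ _ _ _ F _ => by ring
  have d5 : ExX N m (n + 1) P G w h β0 := ⟨fun F => α F - γ F, d1, d4⟩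
  obtain ⟨η, g1, g2⟩ := HI β0 f1 f2 d5
  have l1 : Fnl n (US N P G w1 k1) (fun F => (α F - γ F) - η F) :=
    (d1.mono' (US_mono le_rfl le_rfl q2.le q3.le)).subF (g1.mono' (US_mono sP sG le_rfl le_rfl))
  have l2 : CocX N m n P G w1 k1 (fun F => (α F - γ F) - η F) :=
    (((h1.add d3).mono le_rfl le_rfl le_rfl q2.le q3.le).add (g2.mono le_rfl sP sG le_rfl le_rfl)).congr
      fun _ _ _ _ _ F _ => by ring
  obtain ⟨β'', k1', -, k3⟩ := HS _ l1 l2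
  have r1 : Fnl n (US N (P ∪ pcl N {(m : ℤ)}) G w' h') (fun F => γ F + (η F + β'' F)) := by
    rw [hP, x7_PI, ← hQ]
    exact (hγ.mono' (US_mono le_rfl le_rfl (q1.trans q2).le (q3.trans q4).le)).addF
      ((g1.mono' (US_mono sQ sG q1.le q4.le)).addF (k1'.mono' (US_mono sQ sG le_rfl le_rfl)))
  have r2 : ExX N (m + 1) n P G w' h' (fun F => γ F + (η F + β'' F)) := ExX.of_SumX (SumX.of (Nat.lt_succ_self m) r1)
  exact ((k3.mono (Nat.le_succ m) le_rfl le_rfl le_rfl le_rfl).add r2).congr fun _ _ _ _ _ F _ => by ring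

/-- a decomposition of a cocycle modulo `X_{m+1}` -/
structure X9D (N m n : ℕ) (b e : ℤ) (w h : ℝ) (α : ((Fin (n + 2) → ℂ) → ℂ) → ℂ)
    (αm β0 : ((Fin (n + 3) → ℂ) → ℂ) → ℂ) (β3 : ((Fin n → ℂ) → ℂ) → ℂ) : Prop where
  fα : Fnl (n + 2) (US N (PI N b e ∅) (GI N b e) w h) α
  sα : SumX N m (n + 3) (PI N b e ∅) (GI N b e) w h (fun F => α (dd (n + 2) F) - αm F)
  f0 : Fnl (n + 3) (US N (PI N b m ∅) (GI N b m) w h) β0
  c0 : CocX N m (n + 3) (PI N b m ∅) (GI N b m) w h β0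
  f3 : Fnl n (US N (PI N b m ∅) (GI N b m) w h) β3
  c3' : CocX N m n (PI N b m ∅) (GI N b m) w h β3
  ex : ExX N m (n + 3) (PI N b e {(m : ℤ)}) (GI N b e) w h (fun F => αm F - β0 F - β3 (c3 (yy N m) n F))

theorem X9D.mono {N m n : ℕ} {b e : ℤ} {w h w' h' : ℝ} {α : ((Fin (n + 2) → ℂ) → ℂ) → ℂ}
    {αm β0 : ((Fin (n + 3) → ℂ) → ℂ) → ℂ} {β3 : ((Fin n → ℂ) → ℂ) → ℂ} (D : X9D N m n b e w h α αm β0 β3)
    (hw : w' ≤ w) (hh : h ≤ h') : X9D N m n b e w' h' α αm β0 β3 where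
  fα := D.fα.mono' (US_mono le_rfl le_rfl hw hh)
  sα := D.sα.mono le_rfl le_rfl le_rfl hw hh
  f0 := D.f0.mono' (US_mono le_rfl le_rfl hw hh)
  c0 := D.c0.mono le_rfl le_rfl le_rfl hw hh
  f3 := D.f3.mono' (US_mono le_rfl le_rfl hw hh)
  c3' := D.c3'.mono le_rfl le_rfl le_rfl hw hh
  ex := D.ex.mono le_rfl le_rfl le_rfl hw hh

theorem X9D.comb {N m n : ℕ} {b e : ℤ} {w h : ℝ} {α α' : ((Fin (n + 2) → ℂ) → ℂ) → ℂ}
    {αm β0 αm' β0' : ((Fin (n + 3) → ℂ) → ℂ) → ℂ} {β3 β3' : ((Fin n → ℂ) → ℂ) → ℂ}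
    (D : X9D N m n b e w h α αm β0 β3) (D' : X9D N m n b e w h α' αm' β0' β3') (c c' : ℂ) :
    X9D N m n b e w h (fun F => c * α F + c' * α' F) (fun F => c * αm F + c' * αm' F)
      (fun F => c * β0 F + c' * β0' F) (fun F => c * β3 F + c' * β3' F) where
  fα := (D.fα.smulF c).addF (D'.fα.smulF c')
  sα := ((D.sα.smul c).add (D'.sα.smul c')).congr fun _ _ _ _ _ F _ => by ring
  f0 := (D.f0.smulF c).addF (D'.f0.smulF c')
  c0 := (D.c0.smul c).add (D'.c0.smul c')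
  f3 := (D.f3.smulF c).addF (D'.f3.smulF c')
  c3' := (D.c3'.smul c).add (D'.c3'.smul c')
  ex := ((D.ex.smul c).add (D'.ex.smul c')).congr fun _ _ _ _ _ F _ => by ring

theorem x9_dec (e1 : ST_E1) (e2 : ST_E2) (w9 : ST_W9) (x4b : ST_X4b) {N m n : ℕ} {b e : ℤ} (hN : 0 < N) (hb : b < 0)
    (hm : ((m + 1 : ℕ) : ℤ) ≤ e) (he : e ≤ b + N) : Loss N fun w' h' w h =>
    ∀ α, Fnl (n + 2) (US N (PI N b e ∅) (GI N b e) w h) α → CocX N (m + 1) (n + 2) (PI N b e ∅) (GI N b e) w h α →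
      ∃ αm β0 β3, X9D N m n b e w' h' α αm β0 β3 := by
  have hm' : ((m + 1 : ℕ) : ℤ) = (m : ℤ) + 1 := by push_cast; ring
  have hme : (m : ℤ) < e := by linarith
  refine (x9_A e1 e2 w9 (N := N) (m := m) (n := n + 2) hN hb hm he).comp (x4b N m n b m e hN hb le_rfl hme he) ?_
  intro w' h' w1 k1 w h _ q1 q2 _ _ q3 q4 HA HX α hα hc
  obtain ⟨αm, a1, a2, a3⟩ := HA α hα hc
  obtain ⟨β0, β3, b1, b2, b3, b4, b5⟩ := HX αm a1 a2
  exact ⟨αm, β0, β3, hα.mono' (US_mono le_rfl le_rfl (q1.trans q2).le (q3.trans q4).le),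
    a3.mono le_rfl le_rfl le_rfl q1.le q4.le, b1, b2, b3, b4, b5⟩

theorem x9_fin {N m n : ℕ} {b e : ℤ} (hN : 0 < N) (hb : b < 0) (hs : QIs m) (hi : QIi m) (x4c : ST_X4c)
    (hm : ((m + 1 : ℕ) : ℤ) ≤ e) (he : e ≤ b + N) : Loss N fun w' h' w h =>
    ∀ α αm β0 β3, X9D N m n b e w h α αm β0 β3 → ExX N m n (PI N b m ∅) (GI N b m) w h β3 →
      ExX N (m + 1) (n + 2) (PI N b e ∅) (GI N b e) w' h' α := by
  have hm' : ((m + 1 : ℕ) : ℤ) = (m : ℤ) + 1 := by push_cast; ring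
  have hme : (m : ℤ) < e := by linarith
  refine (x4c N m n b m e hN hb le_rfl hme he).comp (x9_B (n := n + 2) hN hb hs hi hm he) ?_
  intro w' h' w1 k1 w h _ q1 q2 _ _ q3 q4 HX HB α αm β0 β3 D hex
  have D1 := D.mono q2.le q3.le
  have x1 := HX β3 D.f3 hex
  obtain ⟨γ, g1, g2⟩ := (D1.ex.add x1 : ExX N m (n + 3) (PI N b e {(m : ℤ)}) (GI N b e) w1 k1
    (fun F => (αm F - β0 F - β3 (c3 (yy N m) n F)) + β3 (c3 (yy N m) n F)))
  exact HB α αm β0 γ D1.fα D1.sα D1.f0 D1.c0 g1 (g2.congr fun _ _ _ _ _ F _ => by ring)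

theorem x9_small (e1 : ST_E1) (e2 : ST_E2) (w9 : ST_W9) (x4a : ST_X4a) {N m n : ℕ} {b e : ℤ} (hN : 0 < N) (hb : b < 0)
    (hs : QIs m) (hi : QIi m) (hn : n + 1 < 3)
    (hm : ((m + 1 : ℕ) : ℤ) ≤ e) (he : e ≤ b + N) : Loss N fun w' h' w h =>
    ∀ α, Fnl n (US N (PI N b e ∅) (GI N b e) w h) α → CocX N (m + 1) n (PI N b e ∅) (GI N b e) w h α →
      ExX N (m + 1) n (PI N b e ∅) (GI N b e) w' h' α := by
  have hm' : ((m + 1 : ℕ) : ℤ) = (m : ℤ) + 1 := by push_cast; ring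
  have hme : (m : ℤ) < e := by linarith
  have L1 : Loss N fun w' h' w h =>
      ∀ α, Fnl n (US N (PI N b e ∅) (GI N b e) w h) α → CocX N (m + 1) n (PI N b e ∅) (GI N b e) w h α →
      ∃ (αm β0 : ((Fin (n + 1) → ℂ) → ℂ) → ℂ) (γ : ((Fin n → ℂ) → ℂ) → ℂ),
      Fnl n (US N (PI N b e ∅) (GI N b e) w' h') α ∧
      SumX N m (n + 1) (PI N b e ∅) (GI N b e) w' h' (fun F => α (dd n F) - αm F) ∧
      Fnl (n + 1) (US N (PI N b m ∅) (GI N b m) w' h') β0 ∧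
      CocX N m (n + 1) (PI N b m ∅) (GI N b m) w' h' β0 ∧
      Fnl n (US N (PI N b e {(m : ℤ)}) (GI N b e) w' h') γ ∧
      SumX N m (n + 1) (PI N b e {(m : ℤ)}) (GI N b e) w' h' (fun F => (αm F - β0 F) - γ (dd n F)) := by
    refine (x9_A e1 e2 w9 (N := N) (m := m) (n := n) hN hb hm he).comp (x4a N m (n + 1) b m e hN hb le_rfl hme he hn) ?_
    intro w' h' w1 k1 w h _ q1 q2 _ _ q3 q4 HA HX α hα hc
    obtain ⟨αm, a1, a2, a3⟩ := HA α hα hc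
    obtain ⟨β0, b1, b2, γ, b3, b4⟩ := HX αm a1 a2
    exact ⟨αm, β0, γ, hα.mono' (US_mono le_rfl le_rfl (q1.trans q2).le (q3.trans q4).le),
      a3.mono le_rfl le_rfl le_rfl q1.le q4.le, b1, b2, b3, b4⟩
  refine L1.comp (x9_B (n := n) hN hb hs hi hm he) ?_
  intro w' h' w1 k1 w h _ q1 q2 _ _ q3 q4 H1 HB α hα hc
  obtain ⟨αm, β0, γ, r1, r2, r3, r4, r5, r6⟩ := H1 α hα hc
  exact HB α αm β0 γ r1 r2 r3 r4 r5 r6

theorem x9_step (e1 : ST_E1) (e2 : ST_E2) (w9 : ST_W9) (x4a : ST_X4a) (x4b : ST_X4b) (x4c : ST_X4c) (x7 : ST_X7)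
    {m : ℕ} (hD : DB m) : DB (m + 1) := by
  obtain ⟨hs, hi⟩ := x7 m
  intro N n b e hN hb hm he
  have hm' : ((m + 1 : ℕ) : ℤ) = (m : ℤ) + 1 := by push_cast; ring
  have hme : (m : ℤ) < e := by linarith
  have part1 : n ≠ 2 * (m + 1) → n ≠ 2 * (m + 1) + 3 → Loss N fun w' h' w h =>
      ∀ α, Fnl n (US N (PI N b e ∅) (GI N b e) w h) α → CocX N (m + 1) n (PI N b e ∅) (GI N b e) w h α →
        ExX N (m + 1) n (PI N b e ∅) (GI N b e) w' h' α := by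
    intro g1 g2
    by_cases hn : n + 1 < 3
    · exact x9_small e1 e2 w9 x4a hN hb hs hi hn hm he
    · obtain ⟨k, rfl⟩ : ∃ k, n = k + 2 := ⟨n - 2, by omega⟩
      have hDk := (hD N k b m hN hb le_rfl (hme.le.trans he)).1 (by omega) (by omega)
      refine ((x9_dec e1 e2 w9 x4b (n := k) hN hb hm he).comp (Ψ := fun w' h' w h =>
        ∀ α, Fnl (k + 2) (US N (PI N b e ∅) (GI N b e) w h) α →
          CocX N (m + 1) (k + 2) (PI N b e ∅) (GI N b e) w h α → ∃ αm β0 β3, X9D N m k b e w' h' α αm β0 β3 ∧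
          ExX N m k (PI N b m ∅) (GI N b m) w' h' β3) hDk ?_).comp (x9_fin (n := k) hN hb hs hi x4c hm he) ?_
      · intro w' h' w1 k1 w h _ q1 q2 _ _ q3 q4 H1 H2 α hα hc
        obtain ⟨αm, β0, β3, D⟩ := H1 α hα hc
        exact ⟨αm, β0, β3, D.mono q1.le q4.le, H2 β3 D.f3 D.c3'⟩
      · intro w' h' w1 k1 w h _ q1 q2 _ _ q3 q4 H1 H2 α hα hc
        obtain ⟨αm, β0, β3, D, hex⟩ := H1 α hα hc
        exact H2 α αm β0 β3 D hex
  refine ⟨part1, ?_⟩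
  by_cases hn : n + 1 < 3
  · exact (part1 (by omega) (by omega)).imp fun w' h' w h _ _ _ _ _ H α α' h1 h2 h3 h4 =>
      ⟨1, 0, by simp, (H α h1 h2).congr fun _ _ _ _ _ F _ => by ring⟩
  · obtain ⟨k, rfl⟩ : ∃ k, n = k + 2 := ⟨n - 2, by omega⟩
    have hDk := (hD N k b m hN hb le_rfl (hme.le.trans he)).2
    refine ((x9_dec e1 e2 w9 x4b (n := k) hN hb hm he).comp (Ψ := fun w' h' w h =>
      ∀ α α', Fnl (k + 2) (US N (PI N b e ∅) (GI N b e) w h) α →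
        CocX N (m + 1) (k + 2) (PI N b e ∅) (GI N b e) w h α →
        Fnl (k + 2) (US N (PI N b e ∅) (GI N b e) w h) α' →
        CocX N (m + 1) (k + 2) (PI N b e ∅) (GI N b e) w h α' →
        ∃ c c' : ℂ, ¬ (c = 0 ∧ c' = 0) ∧ ∃ αm β0 β3, X9D N m k b e w' h' (fun F => c * α F + c' * α' F) αm β0 β3 ∧
        ExX N m k (PI N b m ∅) (GI N b m) w' h' β3) hDk ?_).comp (x9_fin (n := k) hN hb hs hi x4c hm he) ?_
    · intro w' h' w1 k1 w h _ q1 q2 _ _ q3 q4 H1 H2 α α' hα hc hα' hc'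
      obtain ⟨αm, β0, β3, D⟩ := H1 α hα hc
      obtain ⟨αm', β0', β3', D'⟩ := H1 α' hα' hc'
      obtain ⟨c, c', hcc, hex⟩ := H2 β3 β3' D.f3 D.c3' D'.f3 D'.c3'
      exact ⟨c, c', hcc, _, _, _, (D.mono q1.le q4.le).comb (D'.mono q1.le q4.le) c c', hex⟩
    · intro w' h' w1 k1 w h _ q1 q2 _ _ q3 q4 H1 H2 α α' hα hc hα' hc'
      obtain ⟨c, c', hcc, αm, β0, β3, D, hex⟩ := H1 α α' hα hc hα' hc'
      exact ⟨c, c', hcc, H2 _ αm β0 β3 D hex⟩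

theorem st_X9 (e1 : ST_E1) (e2 : ST_E2) (w9 : ST_W9) (x4a : ST_X4a) (x4b : ST_X4b) (x4c : ST_X4c) (x7 : ST_X7)
    (x8 : ST_X8) : ST_X9 := by
  intro m
  induction m with
  | zero => exact x8.1
  | succ m ih => exact x9_step e1 e2 w9 x4a x4b x4c x7 ih

end

end Pool.Agent.Helper67.DO
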