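import Pool.Agent.Helper1.DO.C6
import Pool.Agent.Helper1.DO.W5l
import Pool.Agent.Helper11.DO.E11
import Pool.Agent.Helper17.DO.E12
import Pool.Agent.Helper17.DO.E14
import Pool.Agent.Helper17.DO.E2
import Pool.Agent.Helper17.DO.T11
import Pool.Agent.Helper2.DO.D18
import Pool.Agent.Helper21.DO.D8
import Pool.Agent.Helper22.DO.T8
import Pool.Agent.Helper23.DO.E4
import Pool.Agent.Helper23.DO.X8
import Pool.Agent.Helper26.DO.E8
import Pool.Agent.Helper26.DO.X1W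
import Pool.Agent.Helper26.DO.X2
import Pool.Agent.Helper27.DO.D6
import Pool.Agent.Helper27.DO.T3
import Pool.Agent.Helper3.DO.W4
import Pool.Agent.Helper30.DO.W7
import Pool.Agent.Helper34.DO.D11
import Pool.Agent.Helper35.DO.D16
import Pool.Agent.Helper37.DO.C1
import Pool.Agent.Helper38.DO.E1
import Pool.Agent.Helper39.DO.T7
import Pool.Agent.Helper39.DO.W2
import Pool.Agent.Helper41.DO.D2
import Pool.Agent.Helper41.DO.E3
import Pool.Agent.Helper41.DO.X4b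
import Pool.Agent.Helper42.DO.D14
import Pool.Agent.Helper45.DO.C3
import Pool.Agent.Helper45.DO.C7
import Pool.Agent.Helper50.DO.D1
import Pool.Agent.Helper50.DO.SM
import Pool.Agent.Helper51.DO.E6
import Pool.Agent.Helper52.DO.E5
import Pool.Agent.Helper53.DO.D13
import Pool.Agent.Helper53.DO.ItI
import Pool.Agent.Helper53.DO.W8
import Pool.Agent.Helper55.DO.C4
import Pool.Agent.Helper55.DO.D5
import Pool.Agent.Helper57.DO.D9
import Pool.Agent.Helper57.DO.E10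
import Pool.Agent.Helper57.DO.T10
import Pool.Agent.Helper57.DO.W1
import Pool.Agent.Helper58.DO.T5
import Pool.Agent.Helper59.DO.D7
import Pool.Agent.Helper59.DO.T1
import Pool.Agent.Helper59.DO.T2
import Pool.Agent.Helper60.DO.C2
import Pool.Agent.Helper60.DO.T6
import Pool.Agent.Helper60.DO.T9
import Pool.Agent.Helper63.DO.W1b
import Pool.Agent.Helper67.DO.E20
import Pool.Agent.Helper67.DO.Gysin
import Pool.Agent.Helper67.DO.STAR
import Pool.Agent.Helper67.DO.X7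
import Pool.Agent.Helper67.DO.X9
import Pool.Agent.Helper68.DO.D19
import Pool.Agent.Helper70.DO.X5
import Pool.Agent.Helper70.DO.X6
import Pool.Agent.Helper71.DO.W10
import Pool.Agent.Helper74.DO.D10
import Pool.Agent.Helper74.DO.D17
import Pool.Agent.Helper74.DO.E9
import Pool.Agent.Helper75.DO.D12
import Pool.Agent.Helper75.DO.E13
import Pool.Agent.Helper77.DO.T4
import Pool.Agent.Helper77.DO.W6
import Pool.Agent.Helper79.DO.D4
import Pool.Agent.Helper85.DO.W9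
import Pool.Agent.Helper89.DO.E7c
import Pool.Agent.Helper90.DO.W3
import Pool.Agent.Helper91.DO.D15
import Pool.Agent.Helper91.DO.X4a
import Pool.Agent.Helper95.DO.X3
import Pool.Agent.Helper96.DO.C5
import Pool.Agent.Helper96.DO.X4c
import Pool.Agent.Helper97.DO.D3
import Pool.Agent.Helper97.DO.W5
import Pool.Agent.Helper59.DO.X1d

/-! # MP_d07457_gt: assembly -/

namespace Pool.Agent.Helper67.DO

noncomputable section

theorem m_C1 : ST_C1 := st_C1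

theorem m_C2 : ST_C2 := st_C2

theorem m_C3 : ST_C3 := st_C3 m_C2

theorem m_C4 : ST_C4 := st_C4 m_C2 m_C3

theorem m_C5 : ST_C5 := st_C5 m_C2

theorem m_C6 : ST_C6 := st_C6 m_C2 m_C3

theorem m_C7 : ST_C7 := st_C7 m_C2 m_C3 m_C4 m_C5 m_C6

theorem m_D1 : ST_D1 := st_D1

theorem m_D10 : ST_D10 := st_D10

theorem m_D17 : ST_D17 := st_D17

theorem m_D2 : ST_D2 := st_D2

theorem m_D3 : ST_D3 := st_D3 m_D1 m_D2

theorem m_D4 : ST_D4 := st_D4 m_D1 m_D2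

theorem m_D5 : ST_D5 := st_D5 m_D1 m_D2 m_D3

theorem m_D6 : ST_D6 := st_D6 m_D2

theorem m_D8 : ST_D8 := st_D8 m_D1 m_D2

theorem m_D9 : ST_D9 := st_D9

theorem m_E1 : ST_E1 := st_E1

theorem m_E11 : ST_E11 := st_E11

theorem m_E12 : ST_E12 := st_E12

theorem m_E2 : ST_E2 := st_E2

theorem m_E3 : ST_E3 := st_E3

theorem m_E4 : ST_E4 := st_E4

theorem m_E5 : ST_E5 := st_E5

theorem m_E6 : ST_E6 := st_E6

theorem m_E7 : ST_E7 := st_E7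

theorem m_E8 : ST_E8 := st_E8

theorem m_E9 : ST_E9 := st_E9

theorem m_SM : ST_SM := st_SM m_C1 m_C3 m_C4 m_C5 m_C7

theorem m_T1 : ST_T1 := st_T1

theorem m_T2 : ST_T2 := st_T2 m_T1

theorem m_T3 : ST_T3 := st_T3 m_T1 m_T2

theorem m_T4 : ST_T4 := st_T4 m_T1 m_D1

theorem m_T5 : ST_T5 := st_T5 m_T1 m_T4 m_D2 m_D3

theorem m_T6 : ST_T6 := st_T6

theorem m_T7 : ST_T7 := st_T7 m_T1 m_D2 m_T4 m_T5 m_T6

theorem m_T8 : ST_T8 := st_T8 m_T1 m_T4 m_T5 m_D2 m_D3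

theorem m_W1 : ST_W1 := st_W1

theorem m_W1b : ST_W1b := st_W1b

theorem m_W3 : ST_W3 := st_W3

theorem m_W4 : ST_W4 := st_W4

theorem m_W4b : ST_W4b := st_W4b

theorem m_W5 : ST_W5 := st_W5 m_W3 m_W4 m_W4b

theorem m_W5l : ST_W5l := st_W5l m_W3

theorem m_W7 : ST_W7 := st_W7 m_W1b m_W3 m_W4

theorem m_W8 : ST_W8 := st_W8 m_W3 m_W4

theorem m_X1W : ST_X1W := st_X1W

theorem m_X2 : ST_X2 := st_X2 m_E3 m_E4

theorem m_X3 : ST_X3 := st_X3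

theorem m_X4c : ST_X4c := st_X4c m_E1 m_X2 m_X3

theorem m_D11 : ST_D11 := st_D11 m_D2 m_D5 m_D6 m_D8 m_D9 m_D10

theorem m_D12 : ST_D12 := st_D12 m_D2 m_D5

theorem m_D13 : ST_D13 := st_D13 m_D2

theorem m_D14 : ST_D14 := st_D14 m_D2

theorem m_D15 : ST_D15 := st_D15 m_D1 m_D9 m_D10

theorem m_D16 : ST_D16 := st_D16 m_D1 m_D2 m_D9 m_D10

theorem m_D18 : ST_D18 := st_D18 m_D2 m_D10 m_E12

theorem m_D7 : ST_D7 := st_D7 m_D2 m_D5 m_D6 m_D8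

theorem m_E10 : ST_E10 := st_E10 m_E1 m_E4 m_E6 m_E7 m_E8 m_E9

theorem m_E13 : ST_E13 := st_E13 m_E1 m_E10 m_E11 m_E12

theorem m_E14 : ST_E14 := st_E14 m_E3 m_E9

theorem m_T10 : ST_T10 := st_T10 m_T3 m_T8

theorem m_T9 : ST_T9 := st_T9 m_T1 m_T3 m_T5 m_T7 m_T8 m_D2 m_D15 m_D16

theorem m_W2 : ST_W2 := st_W2 m_W1 m_W4

theorem m_W6 : ST_W6 := st_W6 m_W2 m_W3

theorem m_W9 : ST_W9 := st_W9 m_W5 m_W5l m_W6 m_W7 m_W8

theorem m_X1 : ST_X1 := st_X1_of m_E3 m_E4 m_X1W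

theorem m_X4a : ST_X4a := st_X4a m_E1 m_X1 m_X2 m_X3

theorem m_X4b : ST_X4b := st_X4b m_E1 m_X1 m_X2 m_X3

theorem m_X5 : ST_X5 := st_X5 m_E1 m_X1 m_X2 m_X3

theorem m_X6 : ST_X6 := st_X6 m_E1 m_X1 m_X2 m_X3

theorem m_X8 : ST_X8 := st_X8 m_E1 m_X1 m_X2

theorem m_D19 : ST_D19 := st_D19 m_D2 m_D5 m_D7 m_D11 m_D12 m_D13 m_D18 m_E1

theorem m_T11 : ST_T11 := st_T11 m_T1 m_D2 m_T2 m_T3 m_T5 m_T7 m_T8 m_T9

theorem m_W10 : ST_W10 := st_W10 m_W3 m_W5 m_W6 m_W7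

theorem m_X7 : ST_X7 := st_X7 m_E1 m_E2 m_W9 m_X5 m_X6 m_X8

theorem m_X9 : ST_X9 := st_X9 m_E1 m_E2 m_W9 m_X4a m_X4b m_X4c m_X7 m_X8

theorem m_E20 : ST_E20 := st_E20 m_E1 m_E2 m_W9 m_W10 m_X9

theorem m_E21 : ST_E21 := st_E21 m_E1 m_E4 m_E5 m_E6 m_E9 m_E10 m_E13 m_E14 m_E20

theorem m_E22 : ST_E22 := st_E22 m_E1 m_E4 m_E5 m_E6 m_E9 m_E10 m_E13 m_E14 m_E20

theorem m_STARe : ST_STARe := st_STARe m_SM m_D1 m_D2 m_D4 m_D5 m_D7 m_D11 m_D12 m_D13 m_D14 m_D15 m_D16 m_D17 m_D18 m_D19 m_E10 m_E11 m_E21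

theorem m_STARo : ST_STARo := st_STARo m_SM m_D1 m_D2 m_D4 m_D5 m_D7 m_D11 m_D12 m_D13 m_D14 m_D18 m_D19 m_E22

theorem m_FINAL : ST_FINAL := m_T11 (m_T10.1 m_STARe) (m_T10.2 m_STARo)

end

end Pool.Agent.Helper67.DO
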