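import Pool.Agent.Helper67.DO.DefsE

/-!
# Statements of section 7, 11, 12 (Cartan calculus, classes, Gysin)
-/

namespace Pool.Agent.Helper67.DO

open scoped BigOperators Real

noncomputable section

/-- 1-periodic set -/
def Per (U : Set ℂ) : Prop := ∀ z : ℂ, z ∈ U ↔ z + 1 ∈ U

/-- bracket of vector fields -/
def brk (v w : ℂ → ℂ) : ℂ → ℂ := fun t => v t * deriv w t - w t * deriv v t

/-- E1: `∂ : O_{q+1}(U') → O_q(U)` with the Cauchy bound -/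
def ST_E1 : Prop := ∀ (q : ℕ) (U U' : Set ℂ) (r : ℝ), IsOpen U → IsOpen U' → Per U' → 0 < r →
  (∀ z ∈ U, Metric.ball z r ⊆ U') → ∀ F, BO (q + 1) U' F →
    BO q U (dd q F) ∧ ∀ M : ℝ, (∀ z ∈ PU (q + 1) U', ‖F z‖ ≤ M) → ∀ z ∈ PU q U, ‖dd q F z‖ ≤ q * M / r

/-- E2: `∂∂ = 0` -/
def ST_E2 : Prop := ∀ (q : ℕ) (U : Set ℂ), IsOpen U → Per U → ∀ F, BO (q + 2) U F →
  ∀ z ∈ PU q U, dd q (dd (q + 1) F) z = 0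

/-- E3: Cartan formula -/
def ST_E3 : Prop := ∀ (q : ℕ) (U : Set ℂ) (a : ℂ → ℂ), IsOpen U → Per U → DifferentiableOn ℂ a U →
  ∀ F, BO (q + 1) U F → ∀ z ∈ PU (q + 1) U,
    dd (q + 1) (wd a (q + 1) F) z + wd a q (dd q F) z
      = ∑ j, (a (z j) * deriv (fun t => F (Function.update z j t)) (z j) - deriv a (z j) * F z)

/-- E4: `a ∧ : O_q(U) → O_{q+1}(U)` -/
def ST_E4 : Prop := ∀ (q : ℕ) (U : Set ℂ) (a : ℂ → ℂ) (A : ℝ), IsOpen U → Per U → DifferentiableOn ℂ a U →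
  (∀ z ∈ U, a (z + 1) = a z) → (∀ z ∈ U, ‖a z‖ ≤ A) → ∀ F, BO q U F →
    BO (q + 1) U (wd a q F) ∧ ∀ M : ℝ, (∀ z ∈ PU q U, ‖F z‖ ≤ M) → ∀ z ∈ PU (q + 1) U, ‖wd a q F z‖ ≤ (q + 1) * A * M

/-- E5: `θ ⌟` -/
def ST_E5 : Prop := ∀ (q : ℕ) (s : ℝ), 0 < s →
  (∀ F, BO (q + 1) (St s) F → BO q (St s) (tc q F) ∧
    ∀ M : ℝ, (∀ z ∈ PU (q + 1) (St s), ‖F z‖ ≤ M) → ∀ z ∈ PU q (St s), ‖tc q F z‖ ≤ M) ∧
  (∀ F, BO (q + 2) (St s) F → ∀ v ∈ PU q (St s), tc q (dd (q + 1) F) v = ec q F v - dd q (tc (q + 1) F) v) ∧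
  (∀ F, BO (q + 1) (St s) F → ∀ v ∈ PU (q + 1) (St s),
    tc (q + 1) (wd (fun _ => 1) (q + 1) F) v = F v - wd (fun _ => 1) q (tc q F) v) ∧
  (∀ F, BO 0 (St s) F → ∀ v, tc 0 (wd (fun _ => 1) 0 F) v = F v)

/-- E6: `E ⌟` -/
def ST_E6 : Prop := ∀ (q : ℕ) (s : ℝ), 0 < s →
  (∀ F, BO (q + 2) (St s) F → BO q (St s) (ec q F)) ∧
  (∃ C : ℝ, ∀ F, BO (q + 2) (St s) F → ∀ M : ℝ, (∀ z ∈ PU (q + 2) (St s), ‖F z‖ ≤ M) →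
    ∀ z ∈ PU q (St s), ‖ec q F z‖ ≤ C * M) ∧
  (∀ F, BO (q + 3) (St s) F → ∀ v ∈ PU q (St s), ec q (dd (q + 2) F) v = dd q (ec (q + 1) F) v) ∧
  (∀ F, BO (q + 2) (St s) F → ∀ v ∈ PU (q + 1) (St s),
    ec (q + 1) (wd (fun _ => 1) (q + 2) F) v = wd (fun _ => 1) q (ec q F) v) ∧
  (∀ F, BO 1 (St s) F → ∀ v, ec 0 (wd (fun _ => 1) 1 F) v = 0)

/-- E7: `GV ⌟` -/
def ST_E7 : Prop := ∀ (q : ℕ) (s : ℝ), 0 < s →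
  (∀ F, BO (q + 2) (St s) F → BO q (St s) (gc q F)) ∧
  (∃ C : ℝ, ∀ F, BO (q + 2) (St s) F → ∀ M : ℝ, (∀ z ∈ PU (q + 2) (St s), ‖F z‖ ≤ M) →
    ∀ z ∈ PU q (St s), ‖gc q F z‖ ≤ C * M) ∧
  (∀ F, BO (q + 3) (St s) F → ∀ v ∈ PU q (St s), gc q (dd (q + 2) F) v = dd q (gc (q + 1) F) v) ∧
  (∀ F, BO (q + 2) (St s) F → ∀ v ∈ PU (q + 1) (St s),
    gc (q + 1) (wd (fun _ => 1) (q + 2) F) v = wd (fun _ => 1) q (gc q F) v) ∧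
  (∀ F, BO 1 (St s) F → ∀ v, gc 0 (wd (fun _ => 1) 1 F) v = 0)

/-- E8: `Ω ⌟` -/
def ST_E8 : Prop := ∀ (q : ℕ) (s : ℝ), 0 < s →
  (∀ F, BO (q + 3) (St s) F → BO q (St s) (oc q F)) ∧
  (∃ C : ℝ, ∀ F, BO (q + 3) (St s) F → ∀ M : ℝ, (∀ z ∈ PU (q + 3) (St s), ‖F z‖ ≤ M) →
    ∀ z ∈ PU q (St s), ‖oc q F z‖ ≤ C * M) ∧
  (∀ F, BO (q + 4) (St s) F → ∀ v ∈ PU q (St s), oc q (dd (q + 3) F) v = - dd q (oc (q + 1) F) v) ∧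
  (∀ F, BO (q + 3) (St s) F → ∀ v ∈ PU (q + 1) (St s),
    oc (q + 1) (wd (fun _ => 1) (q + 3) F) v = gc (q + 1) F v - wd (fun _ => 1) q (oc q F) v) ∧
  (∀ F, BO 2 (St s) F → ∀ v, oc 0 (wd (fun _ => 1) 2 F) v = gc 0 F v)

/-- E9: translations commute with everything; translation invariance of the contractions -/
def ST_E9 : Prop := ∀ (q : ℕ) (s t : ℝ), 0 < s →
  (∀ F, BO q (St s) F → BO q (St s) (shf t F)) ∧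
  (∀ F, BO (q + 1) (St s) F → dd q (shf t F) = shf t (dd q F)) ∧
  (∀ F : (Fin q → ℂ) → ℂ, wd (fun _ => 1) q (shf t F) = shf t (wd (fun _ => 1) q F)) ∧
  (∀ F, BO (q + 1) (St s) F → ∀ v ∈ PU q (St s), tc q (shf t F) v = shf t (tc q F) v) ∧
  (∀ F, BO (q + 2) (St s) F → ∀ v ∈ PU q (St s), ec q (shf t F) v = shf t (ec q F) v) ∧
  (∀ F, BO (q + 2) (St s) F → ∀ v ∈ PU q (St s), gc q (shf t F) v = shf t (gc q F) v)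

/-- E10: the classes are closed functionals, `E_m`, `GV_m` relative, `ι_1 Ω_{m+1} = GV_{m+1}` -/
def ST_E10 : Prop := ∀ (m : ℕ) (s : ℝ), 0 < s →
  Fnl (2 * m) (St s) (Em m) ∧ Clo (2 * m) s (Em m) ∧ Rot (2 * m) s (Em m) ∧
  Fnl (2 * m) (St s) (GVm m) ∧ Clo (2 * m) s (GVm m) ∧ Rot (2 * m) s (GVm m) ∧
  Fnl (2 * m + 3) (St s) (Omm m) ∧ Clo (2 * m + 3) s (Omm m) ∧
  Io (2 * m + 1) s (Em (m + 1)) ∧ Io (2 * m + 1) s (GVm (m + 1)) ∧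
  (∀ s1, s < s1 → ∀ F, BO (2 * m + 2) (St s1) F → Omm m (wd (fun _ => 1) (2 * m + 2) F) = GVm (m + 1) F)

/-- E11: explicit values on wedges -/
def ST_E11 : Prop := ∀ (m : ℕ) (s : ℝ), 0 < s → ∀ v : Fin (2 * m) → ℂ → ℂ,
  (∀ i, DifferentiableOn ℂ (v i) (St s)) → (∀ i, ∀ z ∈ St s, v i (z + 1) = v i z) →
  Em m (WW v) = ∑ σ : Equiv.Perm (Fin (2 * m)), ((Equiv.Perm.sign σ : ℤ) : ℂ) *
    ∏ i : Fin m, ∫ x in (0 : ℝ)..1, v (σ ⟨2 * i, by omega⟩) x * deriv (v (σ ⟨2 * i + 1, by omega⟩)) (x : ℂ) ∧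
  GVm m (WW v) = ∑ σ : Equiv.Perm (Fin (2 * m)), ((Equiv.Perm.sign σ : ℤ) : ℂ) *
    ∏ i : Fin m, ∫ x in (0 : ℝ)..1, deriv (v (σ ⟨2 * i, by omega⟩)) (x : ℂ)
      * iteratedDeriv 2 (v (σ ⟨2 * i + 1, by omega⟩)) (x : ℂ)

/-- E12: `∂` on wedges: `∂W(v) = ∑_{a<b} (-1)^{b+1} W(.., [v_a,v_b] at place a, .., without v_b)` -/
def ST_E12 : Prop := ∀ (q : ℕ) (U : Set ℂ), IsOpen U → ∀ v : Fin (q + 2) → ℂ → ℂ,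
  (∀ i, DifferentiableOn ℂ (v i) U) → ∀ z ∈ PU (q + 1) U,
  dd (q + 1) (WW v) z = ∑ a : Fin (q + 2), ∑ b : Fin (q + 2), if a < b then
    (-1 : ℂ) ^ ((b : ℕ) + 1) * WW (b.removeNth (Function.update v a (brk (v a) (v b)))) z else 0

/-- E13: `GV_{k+1}` is not exact on thin strips -/
def ST_E13 : Prop := ∀ k : ℕ, ∃ s0 : ℝ, 0 < s0 ∧ ∀ s, 0 < s → s < s0 →
  ¬ ∃ β, Fnl (2 * k + 1) (St s) β ∧
    ∀ s1, s < s1 → ∀ F, BO (2 * k + 2) (St s1) F → GVm (k + 1) F = β (dd (2 * k + 1) F)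

/-- E20 (annulus): any two closed functionals of degree `n+1` on a thin strip are dependent modulo exact ones -/
def ST_E20 : Prop := ∀ n : ℕ, ∃ s0 : ℝ, 0 < s0 ∧ ∀ s' s, 0 < s' → s' < s → s < s0 →
  (∀ α α', Fnl (n + 1) (St s') α → Clo (n + 1) s' α → Fnl (n + 1) (St s') α' → Clo (n + 1) s' α' →
    ∃ c c' : ℂ, ¬ (c = 0 ∧ c' = 0) ∧ ∃ γ, Fnl n (St s) γ ∧
      ∀ s1, s < s1 → ∀ F, BO (n + 1) (St s1) F → c * α F + c' * α' F = γ (dd n F)) ∧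
  (n = 0 → ∀ α, Fnl (n + 1) (St s') α → Clo (n + 1) s' α →
      ∀ s1, s < s1 → ∀ F, BO (n + 1) (St s1) F → α F = 0)

/-- E21 (Gysin, even degree `2k+2`) -/
def ST_E21 : Prop := ∀ k : ℕ, ∃ s0 : ℝ, 0 < s0 ∧ ∀ s' s, 0 < s' → s' < s → s < s0 →
  ∀ α, Fnl (2 * k + 2) (St s') α → Clo (2 * k + 2) s' α → Rot (2 * k + 2) s' α → Io (2 * k + 1) s' α →
    ∃ (x y : ℂ) (β : ((Fin (2 * k + 1) → ℂ) → ℂ) → ℂ), Fnl (2 * k + 1) (St s) β ∧ Rot (2 * k + 1) s β ∧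
      Io (2 * k) s β ∧ ∀ s1, s < s1 → ∀ F, BO (2 * k + 2) (St s1) F →
        α F = x * Em (k + 1) F + y * GVm (k + 1) F + β (dd (2 * k + 1) F)

/-- E22 (Gysin, odd degree): degree 1 vanishes, degree `2k+3` is exact -/
def ST_E22 : Prop :=
  (∃ s0 : ℝ, 0 < s0 ∧ ∀ s' s, 0 < s' → s' < s → s < s0 →
    ∀ α, Fnl 1 (St s') α → Clo 1 s' α → ∀ s1, s < s1 → ∀ F, BO 1 (St s1) F → α F = 0) ∧
  ∀ k : ℕ, ∃ s0 : ℝ, 0 < s0 ∧ ∀ s' s, 0 < s' → s' < s → s < s0 →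
  ∀ α, Fnl (2 * k + 3) (St s') α → Clo (2 * k + 3) s' α → Rot (2 * k + 3) s' α → Io (2 * k + 2) s' α →
    ∃ β : ((Fin (2 * k + 2) → ℂ) → ℂ) → ℂ, Fnl (2 * k + 2) (St s) β ∧ Rot (2 * k + 2) s β ∧
      Io (2 * k + 1) s β ∧
      ∀ s1, s < s1 → ∀ F, BO (2 * k + 3) (St s1) F → α F = β (dd (2 * k + 2) F)

end

end Pool.Agent.Helper67.DO
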