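import Pool.Agent.Helper67.DO.DefsD
import Pool.Agent.Helper67.DO.StmtsE1

/-!
# Statements of sections 1, 3, 4, 5, 6, 13
-/

namespace Pool.Agent.Helper67.DO

open scoped BigOperators Real
open MeasureTheory

noncomputable section

/-! ## section 1: levels -/

/-- constants for level `n`: strips `St ρ`, `St s` and a bound `M` -/
structure Inv (n : ℕ) (ρ s M : ℝ) : Prop where
  pos : 0 < s ∧ s ≤ ρ ∧ s ≤ 1 ∧ 0 < M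
  hol : ∀ Φ ∈ AA n, DifferentiableOn ℂ (cx Φ) (St (2 * ρ))
  real : ∀ Φ ∈ AA n, ∀ x : ℝ, cx Φ x = (Φ x : ℂ)
  per : ∀ Φ ∈ AA n, ∀ z ∈ St (2 * ρ), cx Φ (z + 1) = cx Φ z + 1
  lip : ∀ Φ ∈ AA n, ∀ z ∈ St (2 * ρ), ‖deriv (cx Φ) z‖ ≤ M
  inj : ∀ Φ ∈ AA n, ∀ z ∈ St ρ, ∀ z' ∈ St ρ, ‖z - z'‖ ≤ M * ‖cx Φ z - cx Φ z'‖
  inv : ∀ Φ ∈ AA n, ∀ w ∈ St s, cinv ρ Φ w ∈ St ρ ∧ cx Φ (cinv ρ Φ w) = w ∧ cinv ρ Φ (w + 1) = cinv ρ Φ w + 1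
  invhol : ∀ Φ ∈ AA n, DifferentiableOn ℂ (cinv ρ Φ) (St s)
  invreal : ∀ Φ ∈ AA n, ∀ x : ℝ, cinv ρ Φ (Φ x : ℂ) = (x : ℂ)
  vhol : ∀ K, ∀ v ∈ VV n K, DifferentiableOn ℂ (four v) (St (2 * ρ))
  vbd : ∀ K, ∀ v ∈ VV n K, ∀ z ∈ St (2 * ρ), four v (z + 1) = four v z ∧ ‖four v z‖ ≤ M * K
  vreal : ∀ K, ∀ v ∈ VV n K, ∀ x : ℝ, four v x = (v x : ℂ)
  stab : ∀ K ε : ℝ, 0 < ε → ∃ δ : ℝ, 0 < δ ∧ ∀ Φ ∈ AA n, ∀ Φ' ∈ AA n, ∀ v ∈ VV n K, ∀ v' ∈ VV n K,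
    (∀ x, |Φ x - Φ' x| ≤ δ) → (∀ x, |v x - v' x| ≤ δ) →
    (∀ w ∈ St s, ‖pull ρ Φ v w - pull ρ Φ' v' w‖ ≤ ε) ∧ (∀ z ∈ St (2 * ρ), ‖four v z - four v' z‖ ≤ ε)

/-- D1: inverse function estimates at every level -/
def ST_D1 : Prop := ∀ n : ℕ, 1 ≤ n → ∃ ρ s M : ℝ, Inv n ρ s M

/-- D2: elementary properties of the levels -/
def ST_D2 : Prop :=
  (∀ n m : ℕ, 1 ≤ n → n ≤ m → AA n ⊆ AA m) ∧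
  (∀ Φ, IsLift Φ → ∃ n : ℕ, 1 ≤ n ∧ Φ ∈ AA n) ∧
  (∀ n : ℕ, 1 ≤ n → ∀ Φ ∈ AA n, ∀ Ψ ∈ AA n, ∀ t : ℝ, 0 ≤ t → t ≤ 1 → (fun x => (1 - t) * Φ x + t * Ψ x) ∈ AA n) ∧
  (∀ n : ℕ, 1 ≤ n → ∀ t : ℝ, (fun x => x + t) ∈ AA n) ∧
  (∀ n : ℕ, 1 ≤ n → ∀ Φ ∈ AA n, ∀ t : ℝ, (fun x => Φ x + t) ∈ AA n ∧ (fun x => Φ (x + t)) ∈ AA n) ∧
  (∀ n : ℕ, 1 ≤ n → ∃ K : ℝ, 0 < K ∧ ∀ Φ ∈ AA n, ∀ x, |Φ x - x - Φ 0| ≤ K) ∧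
  (∀ n : ℕ, 1 ≤ n → ∀ (q : ℕ) (y : Sq), (∀ k, y k ∈ AA n) → ∀ u ∈ Set.Icc (0 : Fin q → ℝ) 1, Phi q y u ∈ AA n) ∧
  (∀ n : ℕ, 1 ≤ n → ∀ (q : ℕ) (y : Sq), (∀ k, y k ∈ AA n) → ∃ K : ℝ, ∀ u ∈ Set.Icc (0 : Fin q → ℝ) 1,
    ∀ a : Fin q, dPhi q y a u ∈ VV n K)

/-- D3: composition, inversion and compactness -/
def ST_D3 : Prop :=
  (∀ n m : ℕ, 1 ≤ n → 1 ≤ m → ∃ k : ℕ, 1 ≤ k ∧ ∀ Φ ∈ AA n, ∀ Ψ ∈ AA m, (fun x => Φ (Ψ x)) ∈ AA k) ∧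
  (∀ n : ℕ, 1 ≤ n → ∃ k : ℕ, 1 ≤ k ∧ ∀ Φ ∈ AA n, ∃ Ψ ∈ AA k, ∀ x, Φ (Ψ x) = x ∧ Ψ (Φ x) = x) ∧
  (∀ n : ℕ, 1 ≤ n → ∀ f : ℕ → ℝ → ℝ, (∀ k, f k ∈ AA n ∧ 0 ≤ f k 0 ∧ f k 0 ≤ 1) →
    ∃ Φ ∈ AA n, ∃ φ : ℕ → ℕ, StrictMono φ ∧ ∀ ε : ℝ, 0 < ε → ∃ k0, ∀ k, k0 ≤ k → ∀ x, |f (φ k) x - Φ x| ≤ ε)

/-- D4: random left factors stay in a level -/
def ST_D4 : Prop := ∀ (n : ℕ) (s0 : ℝ), 1 ≤ n → 0 < s0 → s0 ≤ 1 → ∃ n' : ℕ, n ≤ n' ∧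
  ∀ η : ℂ → ℂ, Adm s0 η → ∀ Φ ∈ AA n, ∀ c : ℝ, (fun x => (η ((Φ x + c : ℝ) : ℂ)).re) ∈ AA n'

/-- `n'` is good for `n`, `s0` -/
def Gd (n n' : ℕ) (s0 : ℝ) : Prop := 1 ≤ n ∧ n ≤ n' ∧
  ∀ η : ℂ → ℂ, Adm s0 η → ∀ Φ ∈ AA n, ∀ c : ℝ, (fun x => (η ((Φ x + c : ℝ) : ℂ)).re) ∈ AA n'

/-! ## section 3: smoothing theorem -/

/-- SM -/
def ST_SM : Prop := ∀ s0 : ℝ, 0 < s0 → s0 ≤ 1 → ∃ (Ω : Type) (_ : TopologicalSpace Ω) (_ : CompactSpace Ω)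
  (_ : T2Space Ω) (_ : SecondCountableTopology Ω) (_ : MeasurableSpace Ω) (_ : BorelSpace Ω) (P : Measure Ω)
  (_ : IsProbabilityMeasure P) (η : Ω → ℂ → ℂ) (w : Ω → (ℂ → ℂ) → ℂ) (C : ℝ), SMD s0 Ω P η w C

/-! ## section 4 -/

/-- common context of section 4 -/
structure Ctx (n n' : ℕ) (ρ s M s0 : ℝ) (Ω : Type) [TopologicalSpace Ω] [MeasurableSpace Ω] (P : Measure Ω)
    (η : Ω → ℂ → ℂ) (w : Ω → (ℂ → ℂ) → ℂ) (Cw : ℝ) : Prop where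
  inv : Inv n ρ s M
  s0pos : 0 < s0
  s0lt : s0 < s
  good : Gd n n' s0
  smd : SMD s0 Ω P η w Cw

/-- D5: the integrand of `C_j` is integrable, `C_j` is bounded, continuous, invariant (first part of (4.1)) -/
def ST_D5 : Prop := ∀ (n n' p : ℕ) (ρ s M s0 : ℝ) (Ω : Type) [TopologicalSpace Ω] [CompactSpace Ω] [T2Space Ω]
  [SecondCountableTopology Ω] [MeasurableSpace Ω] [BorelSpace Ω] (P : Measure Ω) [IsProbabilityMeasure P]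
  (η : Ω → ℂ → ℂ) (w : Ω → (ℂ → ℂ) → ℂ) (Cw : ℝ), Ctx n n' ρ s M s0 Ω P η w Cw →
  ∀ C : Sq → ℂ, LC n' p C →
  (∀ j ≤ p, ∀ (y v : Sq) (K : ℝ), (∀ k, y k ∈ AA n) → (∀ b, v b ∈ VV n K) →
    Integrable (fun ω : Fin (p + 1) → Ω × ℝ => C (fun k => if h : k < p + 1 then gg η (ω ⟨k, h⟩) (y k) else y k) *
      ∏ b : Fin (p + 1), (if (b : ℕ) < j then ww w (ω b) (pull ρ (y b) (v b)) else 1)) (Measure.pi fun _ => PP P)) ∧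
  (∀ j ≤ p, ∀ K : ℝ, ∃ L : ℝ, 0 ≤ L ∧ ∀ B : ℝ, (∀ y, (∀ k, y k ∈ AA n') → ‖C y‖ ≤ B) →
    ∀ y v : Sq, (∀ k, y k ∈ AA n) → (∀ b, v b ∈ VV n K) → ‖CJ P η w ρ p C j y v‖ ≤ L * B) ∧
  (∀ j ≤ p, ∀ K : ℝ, ∀ ε : ℝ, 0 < ε → ∃ δ : ℝ, 0 < δ ∧ ∀ y y' v v' : Sq, (∀ k, y k ∈ AA n) → (∀ k, y' k ∈ AA n) →
    (∀ b, v b ∈ VV n K) → (∀ b, v' b ∈ VV n K) → (∀ k ≤ p, ∀ x, |y k x - y' k x| ≤ δ) →
    (∀ b < j, ∀ x, |v b x - v' b x| ≤ δ) → ‖CJ P η w ρ p C j y v - CJ P η w ρ p C j y' v'‖ ≤ ε) ∧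
  (∀ j ≤ p, ∀ (y v : Sq) (g : ℝ → ℝ) (K : ℝ), IsLift g → (∀ k, y k ∈ AA n) → (∀ b, v b ∈ VV n K) →
    (∀ k, (fun x => y k (g x)) ∈ AA n) → (∀ b, (fun x => v b (g x)) ∈ VV n K) →
    CJ P η w ρ p C j (fun k x => y k (g x)) (fun b x => v b (g x)) = CJ P η w ρ p C j y v) ∧
  (∀ j ≤ p, ∀ (y v : Sq) (t : ℕ → ℝ) (K : ℝ), (∀ k, y k ∈ AA n) → (∀ b, v b ∈ VV n K) →
    CJ P η w ρ p C j (fun k x => y k x + t k) v = CJ P η w ρ p C j y v)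

/-- D6: test functions: derivative of `E exp(2πi ∑ m_k Φ(x_k))` along polynomial families -/
def ST_D6 : Prop := ∀ (n n' : ℕ) (ρ s M s0 : ℝ) (Ω : Type) [TopologicalSpace Ω] [CompactSpace Ω] [T2Space Ω]
  [SecondCountableTopology Ω] [MeasurableSpace Ω] [BorelSpace Ω] (P : Measure Ω) [IsProbabilityMeasure P]
  (η : Ω → ℂ → ℂ) (w : Ω → (ℂ → ℂ) → ℂ) (Cw : ℝ), Ctx n n' ρ s M s0 Ω P η w Cw →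
  ∀ (K : ℕ) (x : Fin K → ℝ) (m : Fin K → ℤ) (q : ℕ) (y : Sq), (∀ k, y k ∈ AA n) →
  let f : (ℝ → ℝ) → ℂ := fun Φ => Complex.exp (2 * π * Complex.I * ∑ k, (m k : ℂ) * (Φ (x k) : ℂ))
  let F : (Fin q → ℝ) → ℂ := fun u => ∫ ω, f (gg η ω (Phi q y u)) ∂(PP P)
  ContDiff ℝ 2 F ∧ ∀ u ∈ Set.Icc (0 : Fin q → ℝ) 1, ∀ a : Fin q,
    HasDerivAt (fun t => F (Function.update u a t))
      (∫ ω, f (gg η ω (Phi q y u)) * ww w ω (pull ρ (Phi q y u) (dPhi q y a u)) ∂(PP P)) (u a)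

/-- D7: the real translations of the directions: `E[f(gΦ) w'(1)] = 0` for test functions, hence `v_b ↦ v_b + const`
does not change `C_j` -/
def ST_D7 : Prop := ∀ (n n' p : ℕ) (ρ s M s0 : ℝ) (Ω : Type) [TopologicalSpace Ω] [CompactSpace Ω] [T2Space Ω]
  [SecondCountableTopology Ω] [MeasurableSpace Ω] [BorelSpace Ω] (P : Measure Ω) [IsProbabilityMeasure P]
  (η : Ω → ℂ → ℂ) (w : Ω → (ℂ → ℂ) → ℂ) (Cw : ℝ), Ctx n n' ρ s M s0 Ω P η w Cw →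
  ∀ C : Sq → ℂ, LC n' p C → ∀ j ≤ p, ∀ (y v : Sq) (t : ℕ → ℝ) (K : ℝ), (∀ k, y k ∈ AA n) → (∀ b, v b ∈ VV n K) →
    CJ P η w ρ p C j y (fun b x => v b x + t b) = CJ P η w ρ p C j y v

/-- D8: density: a level cochain is a uniform limit of finite sums of products of test functions -/
def ST_D8 : Prop := ∀ (n p : ℕ), 1 ≤ n → ∀ C : Sq → ℂ, LC n p C → ∀ ε : ℝ, 0 < ε →
  ∃ (J K : ℕ) (a : Fin J → ℂ) (m : Fin J → Fin (p + 1) → Fin K → ℤ) (x : Fin K → ℝ),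
    ∀ y : Sq, (∀ k, y k ∈ AA n) →
      ‖C y - ∑ i, a i * ∏ b : Fin (p + 1), Complex.exp (2 * π * Complex.I * ∑ k, (m i b k : ℂ) * (y b (x k) : ℂ))‖ ≤ ε

/-- D9: Stokes for products (5.2): `F_b ∈ C²`, `q = j+1` -/
def ST_D9 : Prop := ∀ (j : ℕ) (F : Fin (j + 1) → (Fin (j + 1) → ℝ) → ℂ), (∀ b, ContDiff ℝ 2 (F b)) →
  cub (j + 1) (fun u => Matrix.det (Matrix.of fun a b => fderiv ℝ (F b) u (Pi.single a 1)))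
    = (-1 : ℂ) ^ j * ∑ a : Fin (j + 1), (-1 : ℂ) ^ (a : ℕ) *
      (cub j (fun u' => F (Fin.last j) (a.insertNth 1 u') * Matrix.det (Matrix.of fun (c b : Fin j) =>
          fderiv ℝ (F b.castSucc) (a.insertNth 1 u') (Pi.single (a.succAbove c) 1)))
      - cub j (fun u' => F (Fin.last j) (a.insertNth 0 u') * Matrix.det (Matrix.of fun (c b : Fin j) =>
          fderiv ℝ (F b.castSucc) (a.insertNth 0 u') (Pi.single (a.succAbove c) 1))))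

/-- D10: faces of the simplices -/
def ST_D10 : Prop := ∀ (j : ℕ) (y : Sq) (u' : Fin j → ℝ),
  (∀ a : Fin (j + 1), Phi (j + 1) y (a.insertNth 1 u') = Phi j (rm a y) u') ∧
  (Phi (j + 1) y ((Fin.last j).insertNth 0 u') = Phi j (rm (j + 1) y) u') ∧
  (∀ a c : Fin (j + 1), a < c → dPhi (j + 1) y c (a.insertNth 0 u') = fun _ => 0) ∧
  (∀ (a : Fin (j + 1)) (c : Fin j), dPhi (j + 1) y (a.succAbove c) (a.insertNth 1 u') = dPhi j (rm a y) c u') ∧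
  (∀ c : Fin j, dPhi (j + 1) y ((Fin.last j).succAbove c) ((Fin.last j).insertNth 0 u') = dPhi j (rm (j + 1) y) c u')

/-- D11: (M3) for the smoothed cochains -/
def ST_D11 : Prop := ∀ (n n' p : ℕ) (ρ s M s0 : ℝ) (Ω : Type) [TopologicalSpace Ω] [CompactSpace Ω] [T2Space Ω]
  [SecondCountableTopology Ω] [MeasurableSpace Ω] [BorelSpace Ω] (P : Measure Ω) [IsProbabilityMeasure P]
  (η : Ω → ℂ → ℂ) (w : Ω → (ℂ → ℂ) → ℂ) (Cw : ℝ), Ctx n n' ρ s M s0 Ω P η w Cw →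
  ∀ C : Sq → ℂ, LC n' p C → ∀ j < p, ∀ y z : Sq, (∀ k, y k ∈ AA n) → (∀ k, z k ∈ AA n) →
    ∑ i ∈ Finset.range (j + 2), (-1 : ℂ) ^ i * cub j (fF (CJ P η w ρ p C) j (rm i y) z)
      = (-1 : ℂ) ^ j * cub (j + 1) (gF (CJ P η w ρ p C) j y z)

/-- D12: (M2) for the smoothed cochains, prism homotopy (4.5) -/
def ST_D12 : Prop := ∀ (n n' p : ℕ) (ρ s M s0 : ℝ) (Ω : Type) [TopologicalSpace Ω] [CompactSpace Ω] [T2Space Ω]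
  [SecondCountableTopology Ω] [MeasurableSpace Ω] [BorelSpace Ω] (P : Measure Ω) [IsProbabilityMeasure P]
  (η : Ω → ℂ → ℂ) (w : Ω → (ℂ → ℂ) → ℂ) (Cw : ℝ), Ctx n n' ρ s M s0 Ω P η w Cw →
  ∀ C : Sq → ℂ, LC n' (p + 1) C → CocL n' (p + 1) C →
  (∀ j ≤ p + 1, ∀ (y v : Sq) (K : ℝ), (∀ k, y k ∈ AA n) → (∀ b, v b ∈ VV n K) →
    ∑ i ∈ Finset.Icc j (p + 2), (-1 : ℂ) ^ i * CJ P η w ρ (p + 1) C j (rm i y) v = 0) ∧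
  ∃ h : Sq → ℂ, LC n p h ∧ ∀ y v : Sq, (∀ k, y k ∈ AA n) →
    C y = CJ P η w ρ (p + 1) C 0 y v + dlt p h y

/-! ## section 5 -/

/-- D13: the staircase lemma (5.1) -/
def ST_D13 : Prop := ∀ (n p : ℕ) (c : ℕ → Sq → Sq → ℂ), 1 ≤ n → MC n (p + 1) c → ∀ y z : Sq, (∀ k, y k ∈ AA n) →
  c 0 y (fun _ _ => 0) = (-1 : ℂ) ^ (p + 1) * cub (p + 1) (fF c (p + 1) y z) + dlt p (BB (p + 1) c) y

/-- D14: (5.4): the cochains are level cochains -/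
def ST_D14 : Prop := ∀ (n p : ℕ) (c : ℕ → Sq → Sq → ℂ), 1 ≤ n → MC n (p + 1) c →
  LC n p (BB (p + 1) c) ∧ ∀ z : Sq, LC n (p + 1) (fun y => cub (p + 1) (fF c (p + 1) y z))

/-- D15: `e^m` as a mixed cochain -/
def ST_D15 : Prop := ∀ (n m : ℕ), 1 ≤ n → ∃ c, MC n (2 * m) c ∧ (∀ y v : Sq, (∀ k, y k ∈ AA n) → c 0 y v = ePow m y) ∧
  ∀ Φ ∈ AA n, ∀ K, ∀ v : Sq, (∀ b, v b ∈ VV n K) → c (2 * m) (fun _ => Φ) v =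
    ∏ i ∈ Finset.range m, ((∫ x in (0 : ℝ)..1, v (2 * i) x * deriv (v (2 * i + 1)) x : ℝ) : ℂ)

/-- D16: `gv^m` as a mixed cochain -/
def ST_D16 : Prop := ∀ (n m : ℕ), 1 ≤ n → ∃ c, MC n (2 * m) c ∧ (∀ y v : Sq, (∀ k, y k ∈ AA n) → c 0 y v = gvPow m y) ∧
  ∀ Φ ∈ AA n, ∀ K, ∀ v : Sq, (∀ b, v b ∈ VV n K) → c (2 * m) (fun _ => Φ) v =
    ∏ i ∈ Finset.range m, ((∫ x in (0 : ℝ)..1, (deriv (v (2 * i)) x / deriv Φ x) *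
      deriv (fun t => deriv (v (2 * i + 1)) t / deriv Φ t) x : ℝ) : ℂ)

/-- D17: change of variables: `∫ V dW`, `∫ V' dW'` for `V = vΦ^{-1}`, `W = wΦ^{-1}` -/
def ST_D17 : Prop := ∀ (n : ℕ) (ρ s M K : ℝ), Inv n ρ s M → ∀ Φ ∈ AA n, ∀ v ∈ VV n K, ∀ w ∈ VV n K,
  (∫ x in (0 : ℝ)..1, pull ρ Φ v x * deriv (pull ρ Φ w) x) = ((∫ x in (0 : ℝ)..1, v x * deriv w x : ℝ) : ℂ) ∧
  (∫ x in (0 : ℝ)..1, deriv (pull ρ Φ v) x * iteratedDeriv 2 (pull ρ Φ w) x)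
    = ((∫ x in (0 : ℝ)..1, (deriv v x / deriv Φ x) * deriv (fun t => deriv w t / deriv Φ t) x : ℝ) : ℂ)

/-! ## section 6 -/

/-- D18: (6.1) -/
def ST_D18 : Prop := ∀ (n q : ℕ) (ρ s M s' : ℝ), 1 ≤ n → Inv n ρ s M → 0 < s' → s' < s →
  ∀ l, Fnl (q + 1) (St s') l → Rot (q + 1) s' l → Io q s' l →
    LC n (q + 1) (II ρ (q + 1) l) ∧
    ∀ y : Sq, (∀ k, y k ∈ AA n) → dlt (q + 1) (II ρ (q + 1) l) y = - II ρ (q + 2) (fun F => l (dd (q + 1) F)) y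

/-- D19: (6.2), (6.3) -/
def ST_D19 : Prop := ∀ (n n' p : ℕ) (ρ s M s0 s' : ℝ) (Ω : Type) [TopologicalSpace Ω] [CompactSpace Ω] [T2Space Ω]
  [SecondCountableTopology Ω] [MeasurableSpace Ω] [BorelSpace Ω] (P : Measure Ω) [IsProbabilityMeasure P]
  (η : Ω → ℂ → ℂ) (w : Ω → (ℂ → ℂ) → ℂ) (Cw : ℝ), Ctx n n' ρ s M s0 Ω P η w Cw → 2 ≤ n → s0 < s' → s' < s →
  ∀ C : Sq → ℂ, LC n' (p + 1) C → CocL n' (p + 1) C →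
  ∃ α, Fnl (p + 1) (St s') α ∧ Clo (p + 1) s' α ∧ Rot (p + 1) s' α ∧ Io p s' α ∧
    ∀ y z : Sq, (∀ k, y k ∈ AA n) → cub (p + 1) (fF (CJ P η w ρ (p + 1) C) (p + 1) y z) = II ρ (p + 1) α y

/-- STAR, even degree `2k+2` -/
def ST_STARe : Prop := ∀ (k n : ℕ), 1 ≤ n → ∃ n' : ℕ, n ≤ n' ∧ ∀ C : Sq → ℂ, LC n' (2 * k + 2) C → CocL n' (2 * k + 2) C →
  ∃ (x y : ℂ) (B : Sq → ℂ), LC n (2 * k + 1) B ∧ ∀ Y : Sq, (∀ k, Y k ∈ AA n) →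
    C Y = x * ePow (k + 1) Y + y * gvPow (k + 1) Y + dlt (2 * k + 1) B Y

/-- STAR, odd degree `2k+1` -/
def ST_STARo : Prop := ∀ (k n : ℕ), 1 ≤ n → ∃ n' : ℕ, n ≤ n' ∧ ∀ C : Sq → ℂ, LC n' (2 * k + 1) C → CocL n' (2 * k + 1) C →
  ∃ B : Sq → ℂ, LC n (2 * k) B ∧ ∀ Y : Sq, (∀ k, Y k ∈ AA n) → C Y = dlt (2 * k) B Y

end

end Pool.Agent.Helper67.DO
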