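import Pool.Agent.Helper67.DO.StmtsE1

/-!
# Averages over rotations (section 12)
-/

namespace Pool.Agent.Helper67.DO

open scoped BigOperators Real

noncomputable section

/-- average over rotations -/
def Av (q : ℕ) (F : (Fin q → ℂ) → ℂ) (z : Fin q → ℂ) : ℂ := ∫ t in (0 : ℝ)..1, F (fun i => z i + (t : ℂ))

/-- E14: averages -/
def ST_E14 : Prop := ∀ (q : ℕ) (s : ℝ), 0 < s →
  (∀ F, BO q (St s) F → BO q (St s) (Av q F) ∧
    ∀ M : ℝ, (∀ z ∈ PU q (St s), ‖F z‖ ≤ M) → ∀ z ∈ PU q (St s), ‖Av q F z‖ ≤ M) ∧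
  (∀ (F G : (Fin q → ℂ) → ℂ) (c : ℂ), BO q (St s) F → BO q (St s) G → ∀ z ∈ PU q (St s),
    Av q (fun x => c * F x + G x) z = c * Av q F z + Av q G z) ∧
  (∀ F, BO (q + 1) (St s) F → ∀ z ∈ PU q (St s), dd q (Av (q + 1) F) z = Av q (dd q F) z) ∧
  (∀ F, BO q (St s) F → ∀ z ∈ PU (q + 1) (St s),
    Av (q + 1) (wd (fun _ => 1) q F) z = wd (fun _ => 1) q (Av q F) z) ∧
  (∀ F, BO q (St s) F → ∀ t : ℝ, ∀ z ∈ PU q (St s), Av q (shf t F) z = Av q F z ∧ shf t (Av q F) z = Av q F z) ∧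
  (∀ F, BO (q + 1) (St s) F → ∀ z ∈ PU (q + 1) (St s),
    Av (q + 1) (fun x => dd (q + 1) (wd (fun _ => 1) (q + 1) F) x + wd (fun _ => 1) q (dd q F) x) z = 0) ∧
  (∀ α, Fnl q (St s) α → Rot q s α → ∀ s1, s < s1 → ∀ F, BO q (St s1) F → α (Av q F) = α F)

end

end Pool.Agent.Helper67.DO
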