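import Pool.Agent.Helper67.DO.StmtsD

/-!
# Statements of section 2 (topology, patching) and the final assembly
-/

namespace Pool.Agent.Helper67.DO

open scoped BigOperators Real

noncomputable section

open Classical in
/-- the diffeomorphism with lift `F` (`1` if `F` is not a lift) -/
def cls (F : ℝ → ℝ) : DiffOmega := if h : ∃ f : DiffOmega, LiftG f F then h.choose else 1

/-- `(y_0,y_1,..) ↦ ([y_0y_1⁻¹],..,[y_{p-1}y_p⁻¹])` -/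
def prQ (p : ℕ) (y : Sq) : Fin p → DiffOmega := fun i => cls (y i) * (cls (y ((i : ℕ) + 1)))⁻¹

/-- the compact set `E_n^p` -/
def EE (n p : ℕ) : Set (Fin p → DiffOmega) := {g | ∃ y : Sq, (∀ k, y k ∈ AA n) ∧ g = prQ p y}

/-- homogeneous complex cochain of an inhomogeneous real one -/
def Cc (p : ℕ) (c : (Fin p → DiffOmega) → ℝ) (y : Sq) : ℂ := ((c (prQ p y) : ℝ) : ℂ)

/-- T1: classes of lifts -/
def ST_T1 : Prop :=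
  (∀ F, IsLift F → LiftG (cls F) F) ∧
  (∀ (f g : DiffOmega) (F : ℝ → ℝ), LiftG f F → LiftG g F → f = g) ∧
  (∀ (f : DiffOmega) (F H : ℝ → ℝ), LiftG f F → LiftG f H → ∃ k : ℤ, ∀ x, H x = F x + k) ∧
  (∀ F H, IsLift F → IsLift H → cls (fun x => F (H x)) = cls F * cls H) ∧
  (∀ (F : ℝ → ℝ) (k : ℤ), IsLift F → cls (fun x => F x + k) = cls F) ∧
  (∀ f : DiffOmega, cls (lft f) = f)

/-- T2: first three parts of the final statement -/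
def ST_T2 : Prop :=
  (∀ (f g : DiffOmega) (F H : ℝ → ℝ), LiftG f F → LiftG g H → eul f g = tau F + tau H - tau (fun x => F (H x))) ∧
  (∀ (F : ℝ → ℝ) (k : ℤ), IsLift F → tau (fun x => F x + k) = tau F + k) ∧
  (∀ (f g : DiffOmega) (F H : ℝ → ℝ), LiftG f F → LiftG g H → gvc f g =
    ∫ x in (0 : ℝ)..1, Real.log (deriv (fun t => F (H t)) x) * deriv (fun t => Real.log (deriv H t)) x)

/-- T3: homogeneous form of the coboundary and of the two cocycles -/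
def ST_T3 : Prop :=
  (∀ (p : ℕ) (c : (Fin p → DiffOmega) → ℝ) (y : Sq), (∀ k, IsLift (y k)) →
    dlt p (Cc p c) y = ((cobd p c (prQ (p + 1) y) : ℝ) : ℂ)) ∧
  (∀ a b c : ℝ → ℝ, IsLift a → IsLift b → IsLift c → eul (cls a * (cls b)⁻¹) (cls b * (cls c)⁻¹) = eH a b c) ∧
  (∀ a b c : ℝ → ℝ, IsLift a → IsLift b → IsLift c → gvc (cls a * (cls b)⁻¹) (cls b * (cls c)⁻¹) = gvH a b c) ∧
  (∀ (m : ℕ) (y : Sq), (∀ k, IsLift (y k)) → ((cupPow eul m (prQ (2 * m) y) : ℝ) : ℂ) = ePow m y) ∧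
  (∀ (m : ℕ) (y : Sq), (∀ k, IsLift (y k)) → ((cupPow gvc m (prQ (2 * m) y) : ℝ) : ℂ) = gvPow m y) ∧
  (∀ (p : ℕ) (c : (Fin p → DiffOmega) → ℝ), cobd (p + 1) (cobd p c) = 0)

/-- T4: the topology of `DiffOmega` through the levels: continuity of `AA n → DiffOmega`, coherence -/
def ST_T4 : Prop :=
  (∀ U : Set DiffOmega, IsOpen U → ∀ n : ℕ, 1 ≤ n → ∀ Φ ∈ AA n, cls Φ ∈ U → ∃ δ : ℝ, 0 < δ ∧
    ∀ Ψ ∈ AA n, (∀ x, |Φ x - Ψ x| ≤ δ) → cls Ψ ∈ U) ∧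
  (∀ U : Set DiffOmega, (∀ n : ℕ, 1 ≤ n → ∀ Φ ∈ AA n, cls Φ ∈ U → ∃ δ : ℝ, 0 < δ ∧
    ∀ Ψ ∈ AA n, (∀ x, |Φ x - Ψ x| ≤ δ) → cls Ψ ∈ U) → IsOpen U)

/-- T5: separation, compactness -/
def ST_T5 : Prop := T2Space DiffOmega ∧
  (∀ n : ℕ, 1 ≤ n → IsCompact (cls '' (AA n))) ∧
  (∀ n p : ℕ, 1 ≤ n → IsCompact (EE n p)) ∧
  (∀ n m p : ℕ, 1 ≤ n → n ≤ m → EE n p ⊆ EE m p) ∧
  (∀ (n p : ℕ), 1 ≤ n → ∃ m : ℕ, n ≤ m ∧ ∀ g : Fin p → DiffOmega, (∀ i, g i ∈ cls '' (AA n)) → g ∈ EE m p) ∧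
  (∀ (n p : ℕ), 1 ≤ n → ∃ m : ℕ, n ≤ m ∧ ∀ g ∈ EE n p, ∀ i, g i ∈ cls '' (AA m))

/-- T6 (general topology): the `k_ω` lemma -/
def ST_T6 : Prop := ∀ (X : Type) [TopologicalSpace X] [T2Space X] (K : ℕ → Set X),
  (∀ n, IsCompact (K n)) → (∀ n, K n ⊆ K (n + 1)) → (⋃ n, K n) = Set.univ →
  (∀ U : Set X, (∀ n, ∃ V : Set X, IsOpen V ∧ U ∩ K n = V ∩ K n) → IsOpen U) →
  ∀ (p : ℕ) (f : (Fin p → X) → ℝ), (∀ n, ContinuousOn f {g | ∀ i, g i ∈ K n}) → Continuous f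

/-- T7: continuity on `G^p` is continuity on all `E_n^p`; extension -/
def ST_T7 : Prop :=
  (∀ (p : ℕ) (b : (Fin p → DiffOmega) → ℝ), (∀ n : ℕ, 1 ≤ n → ContinuousOn b (EE n p)) → Continuous b) ∧
  (∀ (n p : ℕ) (b : (Fin p → DiffOmega) → ℝ), 1 ≤ n → ContinuousOn b (EE n p) →
    ∃ b' : (Fin p → DiffOmega) → ℝ, Continuous b' ∧ ∀ g ∈ EE n p, b' g = b g)

/-- T8: level cochains and functions on `E_n^p` -/
def ST_T8 : Prop :=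
  (∀ (n p : ℕ) (c : (Fin p → DiffOmega) → ℝ), 1 ≤ n → ContinuousOn c (EE n p) → LC n p (Cc p c)) ∧
  (∀ (n p : ℕ) (B : Sq → ℂ), 1 ≤ n → LC n p B → ∃ b : (Fin p → DiffOmega) → ℝ, ContinuousOn b (EE n p) ∧
    ∀ y : Sq, (∀ k, y k ∈ AA n) → b (prQ p y) = (B y).re)

/-- T9: `e`, `gv` are continuous cocycles -/
def ST_T9 : Prop := Continuous (two eul) ∧ Continuous (two gvc) ∧ cobd 2 (two eul) = 0 ∧ cobd 2 (two gvc) = 0 ∧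
  (∀ m, Continuous (cupPow eul m)) ∧ (∀ m, Continuous (cupPow gvc m)) ∧
  (∀ m, cobd (2 * m) (cupPow eul m) = 0) ∧ (∀ m, cobd (2 * m) (cupPow gvc m) = 0)

/-- T10: the star statements for inhomogeneous real cochains -/
def STe (m : ℕ) : Prop := ∀ n : ℕ, 1 ≤ n → ∃ n' : ℕ, n ≤ n' ∧ ∀ c : (Fin (2 * m + 2) → DiffOmega) → ℝ,
  ContinuousOn c (EE n' (2 * m + 2)) → (∀ g ∈ EE n' (2 * m + 3), cobd (2 * m + 2) c g = 0) →
  ∃ (x y : ℝ) (b : (Fin (2 * m + 1) → DiffOmega) → ℝ), ContinuousOn b (EE n (2 * m + 1)) ∧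
    ∀ g ∈ EE n (2 * m + 2), c g = x * cupPow eul (m + 1) g + y * cupPow gvc (m + 1) g + cobd (2 * m + 1) b g

def STo (m : ℕ) : Prop := ∀ n : ℕ, 1 ≤ n → ∃ n' : ℕ, n ≤ n' ∧ ∀ c : (Fin (2 * m + 1) → DiffOmega) → ℝ,
  ContinuousOn c (EE n' (2 * m + 1)) → (∀ g ∈ EE n' (2 * m + 2), cobd (2 * m + 1) c g = 0) →
  ∃ b : (Fin (2 * m) → DiffOmega) → ℝ, ContinuousOn b (EE n (2 * m)) ∧
    ∀ g ∈ EE n (2 * m + 1), c g = cobd (2 * m) b g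

def ST_T10 : Prop := (ST_STARe → ∀ m, STe m) ∧ (ST_STARo → ∀ m, STo m)

/-- T11: patching (2.5) -/
def ST_T11 : Prop := (∀ m, STe m) → (∀ m, STo m) → ST_FINAL

end

end Pool.Agent.Helper67.DO
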