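import Pool.Agent.Helper67.DO.DefsW
import Pool.Agent.Helper67.DO.StmtsE1

/-!
# Statements of sections 8, 9, 10
-/

namespace Pool.Agent.Helper67.DO

open scoped BigOperators Real

noncomputable section

/-- the contour set of a piece -/
def cP (N : ℕ) (P G : Set ℤ) (r σ : ℝ) : Pc N → Set ℂ
  | Sum.inl l => {z | ((l : ℕ) : ℤ) ∉ G ∧ |z.im| = σ ∧ ((l : ℕ) : ℝ) / N + r ≤ z.re ∧ z.re ≤ (((l : ℕ) : ℝ) + 1) / N - r}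
  | Sum.inr l => {z | ((l : ℕ) : ℤ) ∉ P ∧ |z.im| = σ ∧ |z.re - ((l : ℕ) : ℝ) / N| ≤ r} ∪
      {z | ((l : ℕ) : ℤ) ∈ P ∧ (((l : ℕ) : ℤ) - 1) ∉ G ∧ |z.im| ≤ σ ∧ z.re = ((l : ℕ) : ℝ) / N - r} ∪
      {z | ((l : ℕ) : ℤ) ∈ P ∧ ((l : ℕ) : ℤ) ∉ G ∧ |z.im| ≤ σ ∧ z.re = ((l : ℕ) : ℝ) / N + r}

/-- W1: one variable Cauchy formula for the contour of the shape `(P,G)` -/
def ST_W1 : Prop := ∀ (N : ℕ) (P G : Set ℤ) (w' r w h σ h' : ℝ), 0 < N → Shape N P G →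
  0 < w' → w' < r → r < w → w < 1 / (4 * N) → 0 < h → h < σ → σ < h' →
  ∀ f : ℂ → ℂ, DifferentiableOn ℂ f (US N P G w' h') → (∀ z ∈ US N P G w' h', f (z + 1) = f z) →
  ∀ z ∈ US N P G w h, ∑ p : Pc N, pI N P G r σ p (fun ζ => f ζ * kap (ζ - z)) = f z

/-- W1b: caps = vertical sides for `f` holomorphic near the closed window rectangle -/
def ST_W1b : Prop := ∀ (N : ℕ) (r σ : ℝ) (l : ℤ) (f : ℂ → ℂ), 0 < r → 0 < σ →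
  DifferentiableOn ℂ f {z | |z.re - l / N| ≤ r ∧ |z.im| ≤ σ} → 
  capI N r σ l f = verL N r σ l f - verR N r σ l f

/-- W2: Cauchy formula in `q` variables -/
def ST_W2 : Prop := ∀ (N q : ℕ) (P G : Set ℤ) (w' r w h σ h' : ℝ), 0 < N → Shape N P G →
  0 < w' → w' < r → r < w → w < 1 / (4 * N) → 0 < h → h < σ → σ < h' →
  ∀ F, BO q (US N P G w' h') F → ∀ z ∈ PU q (US N P G w h),
    ∑ τ : Fin q → Pc N, itI N P G r σ q τ (fun ζ => F ζ * ∏ j, kap (ζ j - z j)) = F z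

/-- W3: positivity of `Re S` -/
def ST_W3 : Prop := ∀ (N q : ℕ) (g : ℝ), 0 < N → 0 < g → ∃ h0 ρ C : ℝ, 0 < h0 ∧ 0 < ρ ∧
  ∀ (M : ℕ) (τ : Fin q → Pc N) (z ζ : Fin q → ℂ), (∀ j, |(z j).im| ≤ h0) → (∀ j, |(ζ j).im| ≤ h0) →
    (∃ i : Fin N, (i : ℕ) < M ∧ ∀ j, τ j = Sum.inr i → ∀ k : ℤ, g ≤ |(z j - ζ j).re - k|) →
    ρ ≤ (Sw M τ z ζ).re ∧ ‖Sw M τ z ζ‖ ≤ C ∧ ∀ l : Fin N, ‖Pw l τ z ζ‖ ≤ C

/-- W4: iterated integrals with a holomorphic parameter -/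
def ST_W4 : Prop := ∀ (N q p : ℕ) (P G : Set ℤ) (r σ : ℝ), 0 < N → 0 < r → r < 1 / (4 * N) → 0 < σ →
  ∀ τ : Fin q → Pc N, ∃ L : ℝ, ∀ (U : Set (Fin p → ℂ)) (K : (Fin p → ℂ) → (Fin q → ℂ) → ℂ), IsOpen U →
  ContinuousOn (fun x : (Fin p → ℂ) × (Fin q → ℂ) => K x.1 x.2)
    (U ×ˢ {ζ | ∀ j, ζ j ∈ cP N P G r σ (τ j)}) →
  (∀ ζ, (∀ j, ζ j ∈ cP N P G r σ (τ j)) → DifferentiableOn ℂ (fun z => K z ζ) U) →
  DifferentiableOn ℂ (fun z => itI N P G r σ q τ (K z)) U ∧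
  ∀ B : ℝ, (∀ z ∈ U, ∀ ζ, (∀ j, ζ j ∈ cP N P G r σ (τ j)) → ‖K z ζ‖ ≤ B) →
    ∀ z ∈ U, ‖itI N P G r σ q τ (K z)‖ ≤ L * B

/-- W4b: the iterated integrals of continuous functions do not depend on the order of the variables -/
def ST_W4b : Prop := ∀ (N q : ℕ) (P G : Set ℤ) (r σ : ℝ), 0 < N → 0 < r → r < 1 / (4 * N) → 0 < σ →
  ∀ (τ : Fin q → Pc N) (F : (Fin q → ℂ) → ℂ) (e : Equiv.Perm (Fin q)),
    ContinuousOn F {ζ | ∀ j, ζ j ∈ cP N P G r σ (τ j)} →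
    itI N P G r σ q (fun i => τ (e i)) (fun ζ => F (fun i => ζ (e.symm i))) = itI N P G r σ q τ F

/-- hypotheses on the base shape and the distinguished windows `0..M-1` -/
structure Dist (N M : ℕ) (P G : Set ℤ) : Prop where
  pos : 0 < N
  le : M ≤ N
  sh : Shape N P G
  out : ∀ i : ℕ, i < M → (i : ℤ) ∉ P

/-- W5: the window operator `e_k : O_q(A+I+a_k) → O_q(A+I)` (`I` a set of distinguished windows, nonempty or `q < M`) -/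
def ST_W5 : Prop := ∀ (N M q : ℕ) (P G I : Set ℤ) (k : Fin N), Dist N M P G → (k : ℕ) < M →
  (∀ i ∈ I, 0 ≤ i ∧ i < M) → (I.Nonempty ∨ q < M) → Loss N fun w' h' w h =>
    (∀ F, BO q (US N (P ∪ pcl N (I ∪ {((k : ℕ) : ℤ)})) G w' h') F →
      BO q (US N (P ∪ pcl N I) G w h)
        (eop N (P ∪ pcl N (I ∪ {((k : ℕ) : ℤ)})) G ((w' + w) / 2) ((h' + h) / 2) M k q F)) ∧
    ∃ C : ℝ, ∀ F, BO q (US N (P ∪ pcl N (I ∪ {((k : ℕ) : ℤ)})) G w' h') F → ∀ B : ℝ,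
      (∀ z ∈ PU q (US N (P ∪ pcl N (I ∪ {((k : ℕ) : ℤ)})) G w' h'), ‖F z‖ ≤ B) →
      ∀ z ∈ PU q (US N (P ∪ pcl N I) G w h),
        ‖eop N (P ∪ pcl N (I ∪ {((k : ℕ) : ℤ)})) G ((w' + w) / 2) ((h' + h) / 2) M k q F z‖ ≤ C * B

/-- W6: `∑_k e_k F = F` -/
def ST_W6 : Prop := ∀ (N M q : ℕ) (P G I : Set ℤ), Dist N M P G →
  (∀ i ∈ I, 0 ≤ i ∧ i < M) → (I.Nonempty ∨ q < M) → Loss N fun w' h' w h =>
    ∀ F, BO q (US N (P ∪ pcl N I) G w' h') F → ∀ z ∈ PU q (US N (P ∪ pcl N I) G w h),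
      ∑ k : Fin N, (if (k : ℕ) < M then eop N (P ∪ pcl N I) G ((w' + w) / 2) ((h' + h) / 2) M k q F z else 0) = F z

/-- W7: naturality: the contours of `A+I` and `A+I+a_i` give the same `e_k F` -/
def ST_W7 : Prop := ∀ (N M q : ℕ) (P G I : Set ℤ) (i k : Fin N), Dist N M P G → (i : ℕ) < M → (k : ℕ) < M →
  (∀ j ∈ I, 0 ≤ j ∧ j < M) → Loss N fun w' h' w h =>
    ∀ F, BO q (US N (P ∪ pcl N I) G w' h') F →
      (k = i → (I.Nonempty ∨ q < M) → ∀ z ∈ PU q (US N (P ∪ pcl N I) G w h),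
        eop N (P ∪ pcl N I) G ((w' + w) / 2) ((h' + h) / 2) M k q F z
          = eop N (P ∪ pcl N (I ∪ {((i : ℕ) : ℤ)})) G ((w' + w) / 2) ((h' + h) / 2) M k q F z) ∧
      (k ≠ i → ∀ z ∈ PU q (US N (P ∪ pcl N ((I ∪ {((i : ℕ) : ℤ)}) \ {((k : ℕ) : ℤ)})) G w h),
        eop N (P ∪ pcl N I) G ((w' + w) / 2) ((h' + h) / 2) M k q F z
          = eop N (P ∪ pcl N (I ∪ {((i : ℕ) : ℤ)})) G ((w' + w) / 2) ((h' + h) / 2) M k q F z)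

/-- W8: approximation of `e_k F` by functions holomorphic on all of `U(A)` -/
def ST_W8 : Prop := ∀ (N M q : ℕ) (P G : Set ℤ) (k : Fin N), Dist N M P G → (k : ℕ) < M →
  Loss N fun w' h' w h =>
    ∀ F, BO q (US N (P ∪ pcl N {((k : ℕ) : ℤ)}) G w' h') F →
      ∃ FT : ℕ → (Fin q → ℂ) → ℂ, (∀ T, BO q (US N P G w h) (FT T)) ∧
        ∀ i : ℕ, i < M → ∀ ε : ℝ, 0 < ε → ∃ T0 : ℕ, ∀ T, T0 ≤ T →
          ∀ z ∈ PU q (US N (P ∪ pcl N {(i : ℤ)}) G w h),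
            ‖FT T z - eop N (P ∪ pcl N {((k : ℕ) : ℤ)}) G ((w' + w) / 2) ((h' + h) / 2) M k q F z‖ ≤ ε

/-- W9 (DIST): `D(A+a_m) ∩ ∑_{i<m} D(A+a_i) = ∑_{i<m} D(A+a_m+a_i)` -/
def ST_W9 : Prop := ∀ (N m q : ℕ) (P G : Set ℤ), Dist N (m + 1) P G → Loss N fun w' h' w h =>
  ∀ α, Fnl q (US N (P ∪ pcl N {(m : ℤ)}) G w h) α → SumX N m q P G w h α →
    SumX N m q (P ∪ pcl N {(m : ℤ)}) G w' h' α

/-- W10 (SUM): for `q < N`, `D(S^1) = ∑_{k<N} D(a_k)` in degree `q` -/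
def ST_W10 : Prop := ∀ (N q : ℕ), q < N → Loss N fun w' h' w h =>
  ∀ α, Fnl q (US N ∅ ∅ w h) α → SumX N N q ∅ ∅ w' h' α

end

end Pool.Agent.Helper67.DO
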