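import Pool.Agent.Helper67.DO.StmtsW

/-!
# Linearity of the window operators
-/

namespace Pool.Agent.Helper67.DO

open scoped BigOperators Real

noncomputable section

/-- W5l: the window operator is linear -/
def ST_W5l : Prop := ∀ (N M q : ℕ) (P G I : Set ℤ) (k : Fin N), Dist N M P G → (k : ℕ) < M →
  (∀ i ∈ I, 0 ≤ i ∧ i < M) → (I.Nonempty ∨ q < M) → Loss N fun w' h' w h =>
    ∀ (F K : (Fin q → ℂ) → ℂ) (c : ℂ), BO q (US N (P ∪ pcl N (I ∪ {((k : ℕ) : ℤ)})) G w' h') F →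
      BO q (US N (P ∪ pcl N (I ∪ {((k : ℕ) : ℤ)})) G w' h') K →
      ∀ z ∈ PU q (US N (P ∪ pcl N I) G w h),
        eop N (P ∪ pcl N (I ∪ {((k : ℕ) : ℤ)})) G ((w' + w) / 2) ((h' + h) / 2) M k q (fun x => c * F x + K x) z
          = c * eop N (P ∪ pcl N (I ∪ {((k : ℕ) : ℤ)})) G ((w' + w) / 2) ((h' + h) / 2) M k q F z
            + eop N (P ∪ pcl N (I ∪ {((k : ℕ) : ℤ)})) G ((w' + w) / 2) ((h' + h) / 2) M k q K z

end

end Pool.Agent.Helper67.DO
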