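import Pool.Agent.Helper67.DO.StmtsW

/-!
# Statements of sections 9, 10 (Euler retraction, dimension bound)
-/

namespace Pool.Agent.Helper67.DO

open scoped BigOperators Real

noncomputable section

/-- real part in `(b0,e0) + ℤ` -/
def InR (b0 e0 : ℝ) (z : ℂ) : Prop := ∃ k : ℤ, b0 < z.re - k ∧ z.re - k < e0

/-- periodic rectangle -/
def RR (b0 e0 w h : ℝ) : Set ℂ := {z | |z.im| < h ∧ ∃ k : ℤ, b0 + w < z.re - k ∧ z.re - k < e0 - w}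

open Classical in
/-- `(z - y)^p` on the strip over `(b0,e0) + ℤ` (suitable translate), `0` elsewhere -/
def sc (b0 e0 y : ℝ) (p : ℕ) (z : ℂ) : ℂ :=
  if h : ∃ k : ℤ, b0 < z.re - k ∧ z.re - k < e0 then (z - (h.choose : ℂ) - y) ^ p else 0

open Classical in
/-- extension by `0` from the complement of the strip over `(b0,e0) + ℤ` -/
def ext0 (b0 e0 : ℝ) {q : ℕ} (F : (Fin q → ℂ) → ℂ) (z : Fin q → ℂ) : ℂ :=
  if ∀ j, ¬ InR b0 e0 (z j) then F z else 0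

/-- coefficient of `u_3` -/
def c3 (y : ℝ) (n : ℕ) (F : (Fin (n + 3) → ℂ) → ℂ) (v : Fin n → ℂ) : ℂ :=
  (1 / 2) * deriv (fun a : ℂ => iteratedDeriv 2 (fun t : ℂ =>
    F (Fin.cons (y : ℂ) (Fin.cons a (Fin.cons t v : Fin (n + 1) → ℂ) : Fin (n + 2) → ℂ))) (y : ℂ)) (y : ℂ)

/-- `u_3 ∧ G` (`G` extended by `0`) -/
def uw (b0 e0 y : ℝ) (n : ℕ) (G : (Fin n → ℂ) → ℂ) : (Fin (n + 3) → ℂ) → ℂ :=
  wd (sc b0 e0 y 0) (n + 2) (wd (sc b0 e0 y 1) (n + 1) (wd (sc b0 e0 y 2) n (ext0 b0 e0 G)))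

/-- the projection `Π` -/
def PiE (b0 e0 y : ℝ) : (q : ℕ) → ((Fin q → ℂ) → ℂ) → ((Fin q → ℂ) → ℂ)
  | 0, F => ext0 b0 e0 F
  | 1, F => ext0 b0 e0 F
  | 2, F => ext0 b0 e0 F
  | (n + 3), F => fun z => ext0 b0 e0 F z + uw b0 e0 y n (c3 y n F) z

/-- X1 (Euler retraction): homotopy operators between the identity and `Π` -/
def ST_X1 : Prop := ∀ b0 y e0 : ℝ, b0 < y → y < e0 → e0 ≤ b0 + 1 →
  ∃ hop : (q : ℕ) → ((Fin q → ℂ) → ℂ) → ((Fin (q + 1) → ℂ) → ℂ),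
  ∀ w h : ℝ, 0 ≤ w → 0 < h → b0 + w < y → y < e0 - w →
  ∀ V : Set ℂ, IsOpen V → Per V → (∀ z ∈ V, ¬ InR b0 e0 z) →
    (∀ q F, BO q (V ∪ RR b0 e0 w h) F → BO (q + 1) (V ∪ RR b0 e0 w h) (hop q F)) ∧
    (∃ C : ℕ → ℝ, ∀ q F, BO q (V ∪ RR b0 e0 w h) F → ∀ B : ℝ, (∀ z ∈ PU q (V ∪ RR b0 e0 w h), ‖F z‖ ≤ B) →
      ∀ z ∈ PU (q + 1) (V ∪ RR b0 e0 w h), ‖hop q F z‖ ≤ C q * B) ∧
    (∀ q F G (c : ℂ), BO q (V ∪ RR b0 e0 w h) F → BO q (V ∪ RR b0 e0 w h) G →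
      ∀ z ∈ PU (q + 1) (V ∪ RR b0 e0 w h), hop q (fun x => c * F x + G x) z = c * hop q F z + hop q G z) ∧
    (∀ q F, BO (q + 1) (V ∪ RR b0 e0 w h) F → ∀ z ∈ PU (q + 1) (V ∪ RR b0 e0 w h),
      dd (q + 1) (hop (q + 1) F) z + hop q (dd q F) z = F z - PiE b0 e0 y (q + 1) F z)

/-- X2: `Π`, `u_3 ∧`, `c_3`, extension by zero; `F` may live on the smaller rectangle `RR b0 e1 w h` -/
def ST_X2 : Prop := ∀ b0 y e1 e0 w h : ℝ, b0 + w < y → y < e1 - w → e1 ≤ e0 → e0 ≤ b0 + 1 → 0 ≤ w → 0 < h →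
  ∀ V : Set ℂ, IsOpen V → Per V → (∀ z ∈ V, ¬ InR b0 e0 z) →
    (∀ q F, BO q (V ∪ RR b0 e1 w h) F → BO q (V ∪ RR b0 e0 w h) (PiE b0 e0 y q F) ∧
      ∀ z ∈ PU q (V ∪ RR b0 e1 w h), PiE b0 e0 y q F z = PiE b0 e1 y q F z) ∧
    (∃ C : ℕ → ℝ, ∀ q F, BO q (V ∪ RR b0 e1 w h) F → ∀ B : ℝ, (∀ z ∈ PU q (V ∪ RR b0 e1 w h), ‖F z‖ ≤ B) →
      ∀ z ∈ PU q (V ∪ RR b0 e0 w h), ‖PiE b0 e0 y q F z‖ ≤ C q * B) ∧
    (∀ q F, BO (q + 1) (V ∪ RR b0 e1 w h) F → ∀ z ∈ PU q (V ∪ RR b0 e0 w h),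
      dd q (PiE b0 e0 y (q + 1) F) z = PiE b0 e0 y q (dd q F) z) ∧
    (∀ q F, BO q V F → BO q (V ∪ RR b0 e0 w h) (ext0 b0 e0 F)) ∧
    (∀ q F, BO (q + 1) V F → ∀ z ∈ PU q (V ∪ RR b0 e0 w h),
      dd q (ext0 b0 e0 F) z = ext0 b0 e0 (dd q F) z) ∧
    (∀ n G, BO n V G → BO (n + 3) (V ∪ RR b0 e0 w h) (uw b0 e0 y n G)) ∧
    (∀ n, ∃ C : ℝ, ∀ G, BO n V G → ∀ B : ℝ, (∀ z ∈ PU n V, ‖G z‖ ≤ B) →
      ∀ z ∈ PU (n + 3) (V ∪ RR b0 e0 w h), ‖uw b0 e0 y n G z‖ ≤ C * B) ∧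
    (∀ n G, BO (n + 1) V G → ∀ z ∈ PU (n + 3) (V ∪ RR b0 e0 w h),
      dd (n + 3) (uw b0 e0 y (n + 1) G) z = - uw b0 e0 y n (dd n G) z) ∧
    (∀ G, BO 0 V G → ∀ z ∈ PU 2 (V ∪ RR b0 e0 w h), dd 2 (uw b0 e0 y 0 G) z = 0) ∧
    (∀ n F, BO (n + 3) (V ∪ RR b0 e1 w h) F → BO n V (c3 y n F)) ∧
    (∀ n, ∃ C : ℝ, ∀ F, BO (n + 3) (V ∪ RR b0 e1 w h) F → ∀ B : ℝ,
      (∀ z ∈ PU (n + 3) (V ∪ RR b0 e1 w h), ‖F z‖ ≤ B) → ∀ z ∈ PU n V, ‖c3 y n F z‖ ≤ C * B) ∧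
    (∀ n F, BO (n + 4) (V ∪ RR b0 e1 w h) F → ∀ z ∈ PU n V, c3 y n (dd (n + 3) F) z = - dd n (c3 y (n + 1) F) z)

/-- X3: decomposition of the shapes: `(b,e)` with slits `m` and `I` = `(b,m)` with slits `I`, and the rectangle `(m,e)` -/
def ST_X3 : Prop := ∀ (N : ℕ) (b m e : ℤ) (I : Set ℤ) (w h : ℝ), 0 < N → b < m → m < e → e ≤ b + N →
  (∀ i ∈ I, b < i ∧ i < m) → 0 < w → w < 1 / (4 * N) → 0 < h →
  US N (PI N b e ({m} ∪ I)) (GI N b e) w h = US N (PI N b m I) (GI N b m) w h ∪ RR (m / N) (e / N) w h ∧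
  (∀ z ∈ US N (PI N b m I) (GI N b m) w h, ¬ InR (m / N) (e / N) z) ∧
  US N (PI N b e ∅) (GI N b e) w h = RR (b / N) (e / N) w h ∧
  IsOpen (US N (PI N b m I) (GI N b m) w h) ∧ Per (US N (PI N b m I) (GI N b m) w h)

/-- midpoint of the grid interval to the right of `m` -/
def yy (N : ℕ) (m : ℤ) : ℝ := ((m : ℝ) + 1 / 2) / N

/-- X4a: decomposition of cocycles modulo `X_k` on `(b,e)` minus `m`, degree `n < 3` -/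
def ST_X4a : Prop := ∀ (N k n : ℕ) (b m e : ℤ), 0 < N → b < 0 → (k : ℤ) ≤ m → m < e → e ≤ b + N → n < 3 →
  Loss N fun w' h' w h => ∀ α, Fnl n (US N (PI N b e {m}) (GI N b e) w h) α →
    CocX N k n (PI N b e {m}) (GI N b e) w h α →
    ∃ β0, Fnl n (US N (PI N b m ∅) (GI N b m) w' h') β0 ∧ CocX N k n (PI N b m ∅) (GI N b m) w' h' β0 ∧
      ExX N k n (PI N b e {m}) (GI N b e) w' h' (fun F => α F - β0 F)

/-- X4b: the same in degree `n + 3` -/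
def ST_X4b : Prop := ∀ (N k n : ℕ) (b m e : ℤ), 0 < N → b < 0 → (k : ℤ) ≤ m → m < e → e ≤ b + N →
  Loss N fun w' h' w h => ∀ α, Fnl (n + 3) (US N (PI N b e {m}) (GI N b e) w h) α →
    CocX N k (n + 3) (PI N b e {m}) (GI N b e) w h α →
    ∃ β0 β3, Fnl (n + 3) (US N (PI N b m ∅) (GI N b m) w' h') β0 ∧
      CocX N k (n + 3) (PI N b m ∅) (GI N b m) w' h' β0 ∧
      Fnl n (US N (PI N b m ∅) (GI N b m) w' h') β3 ∧ CocX N k n (PI N b m ∅) (GI N b m) w' h' β3 ∧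
      ExX N k (n + 3) (PI N b e {m}) (GI N b e) w' h' (fun F => α F - β0 F - β3 (c3 (yy N m) n F))

/-- X4c: `u^* = · ∘ c_3` maps exact functionals on `(b,m)` to exact functionals on `(b,e)` minus `m` -/
def ST_X4c : Prop := ∀ (N k n : ℕ) (b m e : ℤ), 0 < N → b < 0 → (k : ℤ) ≤ m → m < e → e ≤ b + N →
  Loss N fun w' h' w h => ∀ β3, Fnl n (US N (PI N b m ∅) (GI N b m) w h) β3 →
    ExX N k n (PI N b m ∅) (GI N b m) w h β3 →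
    ExX N k (n + 3) (PI N b e {m}) (GI N b e) w' h' (fun F => β3 (c3 (yy N m) n F))

/-- X5: surjectivity of `H(Q_k((b,e')-m)) → H(Q_k((b,e)-m))` -/
def ST_X5 : Prop := ∀ (N k n : ℕ) (b m e' e : ℤ), 0 < N → b < 0 → (k : ℤ) ≤ m → m < e' → e' ≤ e → e ≤ b + N →
  Loss N fun w' h' w h => ∀ α, Fnl n (US N (PI N b e {m}) (GI N b e) w h) α →
    CocX N k n (PI N b e {m}) (GI N b e) w h α →
    ∃ β, Fnl n (US N (PI N b e' {m}) (GI N b e') w' h') β ∧ CocX N k n (PI N b e' {m}) (GI N b e') w' h' β ∧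
      ExX N k n (PI N b e {m}) (GI N b e) w' h' (fun F => α F - β F)

/-- X6: injectivity of `H(Q_k((b,e')-m)) → H(Q_k((b,e)-m))` -/
def ST_X6 : Prop := ∀ (N k n : ℕ) (b m e' e : ℤ), 0 < N → b < 0 → (k : ℤ) ≤ m → m < e' → e' ≤ e → e ≤ b + N →
  Loss N fun w' h' w h => ∀ β, Fnl n (US N (PI N b e' {m}) (GI N b e') w h) β →
    CocX N k n (PI N b e' {m}) (GI N b e') w h β →
    ExX N k n (PI N b e {m}) (GI N b e) w h β → ExX N k n (PI N b e' {m}) (GI N b e') w' h' β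

/-- X7 `QI(m)`, surjectivity -/
def QIs (m : ℕ) : Prop := ∀ (N n : ℕ) (b e' e : ℤ), 0 < N → b < 0 → (m : ℤ) ≤ e' → e' ≤ e → e ≤ b + N →
  Loss N fun w' h' w h => ∀ α, Fnl n (US N (PI N b e ∅) (GI N b e) w h) α →
    CocX N m n (PI N b e ∅) (GI N b e) w h α →
    ∃ β, Fnl n (US N (PI N b e' ∅) (GI N b e') w' h') β ∧ CocX N m n (PI N b e' ∅) (GI N b e') w' h' β ∧
      ExX N m n (PI N b e ∅) (GI N b e) w' h' (fun F => α F - β F)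

/-- X7 `QI(m)`, injectivity -/
def QIi (m : ℕ) : Prop := ∀ (N n : ℕ) (b e' e : ℤ), 0 < N → b < 0 → (m : ℤ) ≤ e' → e' ≤ e → e ≤ b + N →
  Loss N fun w' h' w h => ∀ β, Fnl n (US N (PI N b e' ∅) (GI N b e') w h) β →
    CocX N m n (PI N b e' ∅) (GI N b e') w h β →
    ExX N m n (PI N b e ∅) (GI N b e) w h β → ExX N m n (PI N b e' ∅) (GI N b e') w' h' β

/-- X7: `QI(m)` for all `m` -/
def ST_X7 : Prop := ∀ m, QIs m ∧ QIi m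

/-- `DB(m)` -/
def DB (m : ℕ) : Prop := ∀ (N n : ℕ) (b e : ℤ), 0 < N → b < 0 → (m : ℤ) ≤ e → e ≤ b + N →
  (n ≠ 2 * m → n ≠ 2 * m + 3 → Loss N fun w' h' w h => ∀ α, Fnl n (US N (PI N b e ∅) (GI N b e) w h) α →
    CocX N m n (PI N b e ∅) (GI N b e) w h α → ExX N m n (PI N b e ∅) (GI N b e) w' h' α) ∧
  (Loss N fun w' h' w h => ∀ α α', Fnl n (US N (PI N b e ∅) (GI N b e) w h) α →
    CocX N m n (PI N b e ∅) (GI N b e) w h α → Fnl n (US N (PI N b e ∅) (GI N b e) w h) α' →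
    CocX N m n (PI N b e ∅) (GI N b e) w h α' → ∃ c c' : ℂ, ¬ (c = 0 ∧ c' = 0) ∧
      ExX N m n (PI N b e ∅) (GI N b e) w' h' (fun F => c * α F + c' * α' F))

/-- X8: base case: one rectangle -/
def ST_X8 : Prop := DB 0 ∧ QIs 0 ∧ QIi 0

/-- X9: `DB(m)` for all `m` -/
def ST_X9 : Prop := ∀ m, DB m

end

end Pool.Agent.Helper67.DO
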