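import Pool.Agent.Helper67.DO.BaseE

/-!
# X7: quasi-isomorphisms (10.2)
-/

namespace Pool.Agent.Helper67.DO

open scoped BigOperators Real

noncomputable section

/-- composition of finitely many losses -/
theorem Loss.seq {N : ℕ} (n : ℕ) (hn : 0 < n) (Φ : ℕ → ℝ → ℝ → ℝ → ℝ → Prop) (hΦ : ∀ i < n, Loss N (Φ i))
    {Ψ : ℝ → ℝ → ℝ → ℝ → Prop}
    (H : ∀ W K : ℕ → ℝ, (∀ i ≤ n, 0 < W i) → (∀ i j, i < j → W j < W i) → (∀ i j, i < j → K i < K j) →
      W 0 < 1 / (4 * (N : ℝ)) → 0 < K 0 → (∀ i < n, Φ i (W (i + 1)) (K (i + 1)) (W i) (K i)) →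
      Ψ (W n) (K n) (W 0) (K 0)) : Loss N Ψ := by
  intro w' w a1 a2 a3
  have hn' : (0 : ℝ) < n := Nat.cast_pos.2 hn
  set W : ℕ → ℝ := fun i => w - (w - w') * (i / n) with hW
  have hWd : ∀ i j, i < j → W j < W i := by
    intro i j hij
    have h1 : (i : ℝ) / n < (j : ℝ) / n := (div_lt_div_iff_of_pos_right hn').2 (by exact_mod_cast hij)
    have h2 : 0 < w - w' := by linarith
    simp only [hW]
    nlinarith
  have hW0 : W 0 = w := by simp [hW]
  have hWn : W n = w' := by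
    simp only [hW]
    rw [div_self hn'.ne']
    ring
  have hWp : ∀ i ≤ n, 0 < W i := by
    intro i hi
    rcases hi.eq_or_lt with h | h
    · rw [h, hWn]
      exact a1
    · have := hWd i n h
      rw [hWn] at this
      linarith
  have key : ∀ k ≤ n, ∃ h0 : ℝ, 0 < h0 ∧ ∀ i < k, ∀ h h' : ℝ, 0 < h → h < h' → h' < h0 → Φ i (W (i + 1)) h' (W i) h := by
    intro k
    induction k with
    | zero => exact fun _ => ⟨1, one_pos, fun i hi => absurd hi (Nat.not_lt_zero i)⟩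
    | succ k ih =>
      intro hk
      obtain ⟨h0, p0, p1⟩ := ih (by omega)
      have hW1 : W k < 1 / (4 * (N : ℝ)) := by
        rcases Nat.eq_zero_or_pos k with h | h
        · rw [h, hW0]
          exact a3
        · have := hWd 0 k h
          rw [hW0] at this
          linarith
      obtain ⟨h1, q0, q1⟩ := hΦ k (by omega) (W (k + 1)) (W k) (hWp _ hk) (hWd _ _ (Nat.lt_succ_self k)) hW1
      refine ⟨min h0 h1, lt_min p0 q0, fun i hi h h' c1 c2 c3 => ?_⟩
      rcases Nat.lt_succ_iff_lt_or_eq.1 hi with hi' | hi'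
      · exact p1 i hi' h h' c1 c2 (c3.trans_le (min_le_left _ _))
      · subst hi'
        exact q1 h h' c1 c2 (c3.trans_le (min_le_right _ _))
  obtain ⟨h0, p0, p1⟩ := key n le_rfl
  refine ⟨h0, p0, fun h h' c1 c2 c3 => ?_⟩
  set K : ℕ → ℝ := fun i => h + (h' - h) * (i / n) with hK
  have hKd : ∀ i j, i < j → K i < K j := by
    intro i j hij
    have h1 : (i : ℝ) / n < (j : ℝ) / n := (div_lt_div_iff_of_pos_right hn').2 (by exact_mod_cast hij)
    have h2 : 0 < h' - h := by linarith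
    simp only [hK]
    nlinarith
  have hK0 : K 0 = h := by simp [hK]
  have hKn : K n = h' := by
    simp only [hK]
    rw [div_self hn'.ne']
    ring
  have hKp : ∀ i, 0 < K i := by
    intro i
    rcases Nat.eq_zero_or_pos i with h | h
    · rw [h, hK0]
      exact c1
    · have := hKd 0 i h
      rw [hK0] at this
      linarith
  have hKl : ∀ i ≤ n, K i < h0 := by
    intro i hi
    rcases hi.eq_or_lt with h | h
    · rw [h, hKn]
      exact c3
    · have := hKd i n h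
      rw [hKn] at this
      linarith
  have := H W K hWp hWd hKd (by rw [hW0]; exact a3) (hKp 0) (fun i hi =>
    p1 i hi (K i) (K (i + 1)) (hKp i) (hKd _ _ (Nat.lt_succ_self i)) (hKl _ hi))
  rwa [hW0, hWn, hK0, hKn] at this

/-! ### shapes -/

theorem PI_anti {N : ℕ} {b e' e : ℤ} {I I' : Set ℤ} (he : e' ≤ e) (hI : I ⊆ I') : PI N b e I ⊆ PI N b e' I' := by
  refine pcl_mono N ?_
  rintro k (⟨h1, h2⟩ | h)
  · exact Or.inl ⟨he.trans h1, h2⟩
  · exact Or.inr (hI h)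

theorem GI_anti {N : ℕ} {b e' e : ℤ} (he : e' ≤ e) : GI N b e ⊆ GI N b e' :=
  pcl_mono N fun _ ⟨h1, h2⟩ => ⟨he.trans h1, h2⟩

theorem x7_PI (N : ℕ) (b e : ℤ) (m : ℕ) : PI N b e ∅ ∪ pcl N {(m : ℤ)} = PI N b e {(m : ℤ)} := by
  rw [PI_union, Set.empty_union]

theorem x7_dist {N m : ℕ} {b e : ℤ} (hN : 0 < N) (hb : b < 0) (hm : ((m + 1 : ℕ) : ℤ) ≤ e) (he : e ≤ b + N) :
    Dist N (m + 1) (PI N b e ∅) (GI N b e) := by
  refine ⟨hN, ?_, Shape_PI N b e ∅, ?_⟩
  · have : ((m + 1 : ℕ) : ℤ) ≤ N := by linarith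
    exact_mod_cast this
  · rintro i hi ⟨t, ht | ht⟩
    · obtain ⟨h1, h2⟩ := ht
      have hi' : (i : ℤ) < ((m + 1 : ℕ) : ℤ) := by exact_mod_cast hi
      have hN' : (0 : ℤ) < N := by exact_mod_cast hN
      have hi0 : (0 : ℤ) ≤ i := Int.natCast_nonneg i
      rcases lt_trichotomy t 0 with h | h | h
      · have : t * N ≤ -1 * N := mul_le_mul_of_nonneg_right (by omega) hN'.le
        linarith
      · subst h
        linarith
      · have : 1 * (N : ℤ) ≤ t * N := mul_le_mul_of_nonneg_right (by omega) hN'.le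
        linarith
    · exact ht

theorem ExX.split {N m q : ℕ} {P G : Set ℤ} {w h : ℝ} {α : ((Fin q → ℂ) → ℂ) → ℂ}
    (hα : ExX N (m + 1) q P G w h α) :
    ∃ ξ, Fnl q (US N (P ∪ pcl N {(m : ℤ)}) G w h) ξ ∧ ExX N m q P G w h (fun F => α F - ξ F) := by
  cases q with
  | zero => exact SumX.split hα
  | succ q =>
    obtain ⟨γ, g1, g2⟩ := hα
    obtain ⟨ξ, x1, x2⟩ := g2.split
    exact ⟨ξ, x1, γ, g1, x2.congr fun _ _ _ _ _ F _ => by ring⟩

/-- DIST for the intervals -/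
theorem x7_D (w9 : ST_W9) {N m q : ℕ} {b e : ℤ} (hN : 0 < N) (hb : b < 0) (hm : ((m + 1 : ℕ) : ℤ) ≤ e)
    (he : e ≤ b + N) : Loss N fun w' h' w h =>
    ∀ α, Fnl q (US N (PI N b e {(m : ℤ)}) (GI N b e) w h) α → SumX N m q (PI N b e ∅) (GI N b e) w h α →
      SumX N m q (PI N b e {(m : ℤ)}) (GI N b e) w' h' α := by
  have := w9 N m q (PI N b e ∅) (GI N b e) (x7_dist hN hb hm he)
  rw [x7_PI] at this
  exact this

theorem x7_inj (e1 : ST_E1) (e2 : ST_E2) (w9 : ST_W9) (x5 : ST_X5) (x6 : ST_X6) {m : ℕ} (hi : QIi m) :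
    QIi (m + 1) := by
  intro N n b e' e hN hb hm he' he
  have hm' : ((m + 1 : ℕ) : ℤ) = (m : ℤ) + 1 := by push_cast; ring
  have hme' : (m : ℤ) < e' := by linarith
  have hme : (m : ℤ) < e := by linarith
  set P := PI N b e ∅ with hP
  set G := GI N b e with hG
  set Q := PI N b e {(m : ℤ)} with hQ
  set P' := PI N b e' ∅ with hP'
  set G' := GI N b e' with hG'
  set Q' := PI N b e' {(m : ℤ)} with hQ'
  have sP : P ⊆ P' := PI_anti he' le_rfl
  have sG : G ⊆ G' := GI_anti he'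
  have sQ : Q ⊆ Q' := PI_anti he' le_rfl
  have sPQ : P ⊆ Q := PI_anti le_rfl (Set.empty_subset _)
  have sPQ' : P' ⊆ Q' := PI_anti le_rfl (Set.empty_subset _)
  have hS : Shape N P G := Shape_PI N b e ∅
  have hS' : Shape N P' G' := Shape_PI N b e' ∅
  have hT : Shape N Q G := Shape_PI N b e {(m : ℤ)}
  have hT' : Shape N Q' G' := Shape_PI N b e' {(m : ℤ)}
  have D1 := x7_D w9 (N := N) (m := m) (q := n + 2) (b := b) (e := e') hN hb hm (he'.trans he)
  have D2 := x7_D w9 (N := N) (m := m) (q := n + 1) (b := b) (e := e) hN hb (hm.trans he') he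
  have L6 := x6 N m (n + 1) b m e' e hN hb le_rfl hme' he' he
  have L5 := x5 N m n b m e' e hN hb le_rfl hme' he' he
  have LI := hi N n b e' e hN hb hme'.le he' he
  refine Loss.seq 7 (by norm_num) (fun i w' h' w h =>
    (i = 1 → (∀ α, Fnl (n + 2) (US N Q' G' w h) α → SumX N m (n + 2) P' G' w h α → SumX N m (n + 2) Q' G' w' h' α) ∧
      (∀ α, Fnl (n + 1) (US N Q G w h) α → SumX N m (n + 1) P G w h α → SumX N m (n + 1) Q G w' h' α)) ∧
    (i = 2 → ∀ β, Fnl (n + 1) (US N Q' G' w h) β → CocX N m (n + 1) Q' G' w h β → ExX N m (n + 1) Q G w h β →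
      ExX N m (n + 1) Q' G' w' h' β) ∧
    (i = 4 → ∀ α, Fnl (n + 1) (US N Q G w h) α → SumX N m (n + 1) P G w h α → SumX N m (n + 1) Q G w' h' α) ∧
    (i = 5 → ∀ α, Fnl n (US N Q G w h) α → CocX N m n Q G w h α →
      ∃ β, Fnl n (US N Q' G' w' h') β ∧ CocX N m n Q' G' w' h' β ∧ ExX N m n Q G w' h' (fun F => α F - β F)) ∧
    (i = 6 → ∀ β, Fnl n (US N P' G' w h) β → CocX N m n P' G' w h β → ExX N m n P G w h β →
      ExX N m n P' G' w' h' β)) ?_ ?_
  · intro i _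
    by_cases h1 : i = 1
    · exact (D1.and D2).imp fun w' h' w h _ _ _ _ _ k => ⟨fun _ => k, by omega, by omega, by omega, by omega⟩
    by_cases h2 : i = 2
    · exact L6.imp fun w' h' w h _ _ _ _ _ k => ⟨by omega, fun _ => k, by omega, by omega, by omega⟩
    by_cases h4 : i = 4
    · exact D2.imp fun w' h' w h _ _ _ _ _ k => ⟨by omega, by omega, fun _ => k, by omega, by omega⟩
    by_cases h5 : i = 5
    · exact L5.imp fun w' h' w h _ _ _ _ _ k => ⟨by omega, by omega, by omega, fun _ => k, by omega⟩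
    by_cases h6 : i = 6
    · exact LI.imp fun w' h' w h _ _ _ _ _ k => ⟨by omega, by omega, by omega, by omega, fun _ => k⟩
    exact Loss.of fun w' h' w h _ _ _ _ _ => ⟨by omega, by omega, by omega, by omega, by omega⟩
  · intro W K hWp hW hK _ _ hΦ β hβ hc hex
    obtain ⟨D1', D2'⟩ := (hΦ 1 (by norm_num)).1 rfl
    have L6' := (hΦ 2 (by norm_num)).2.1 rfl
    have D4' := (hΦ 4 (by norm_num)).2.2.1 rfl
    have L5' := (hΦ 5 (by norm_num)).2.2.2.1 rfl
    have LI' := (hΦ 6 (by norm_num)).2.2.2.2 rfl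
    have W1 := hWp 1 (by norm_num)
    have W4 := hWp 4 (by norm_num)
    have lW : ∀ i j, i < j → W j ≤ W i := fun i j hij => (hW i j hij).le
    have lK : ∀ i j, i < j → K i ≤ K j := fun i j hij => (hK i j hij).le
    obtain ⟨βm, b1, b2⟩ := SumX.split hc
    rw [hP', x7_PI, ← hQ'] at b1
    obtain ⟨ξm, x1, x2⟩ := hex.split
    rw [hP, x7_PI, ← hQ] at x1
    -- level 1
    have c1 : CocX N m (n + 1) P' G' (W 1) (K 1) (fun F => β (dd n F) - βm F) :=
      CocX.of_SumX e1 hN hS' W1 (hW 0 1 (by norm_num)) (hK 0 1 (by norm_num)) b2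
    have c2 : CocX N m (n + 1) P' G' (W 0) (K 0) (fun F => β (dd n F)) := CocX.dd e1 e2 hN hS' hβ
    have c3 : CocX N m (n + 1) P' G' (W 1) (K 1) βm :=
      ((c2.mono le_rfl le_rfl le_rfl (lW 0 1 (by norm_num)) (lK 0 1 (by norm_num))).sub c1).congr e1 hN hS'
        fun _ _ _ _ _ F _ => by ring
    have c4 : Fnl (n + 2) (US N Q' G' (W 1) (K 1)) (fun F => βm (dd (n + 1) F)) :=
      b1.dd e1 hN hT' W1.le (hW 0 1 (by norm_num)) (hK 0 1 (by norm_num))
    have c5 : CocX N m (n + 1) Q' G' (W 2) (K 2) βm := D1' _ c4 c3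
    have d1 : SumX N m (n + 1) P G (W 1) (K 1) (fun F => β (dd n F) - ξm (dd n F)) :=
      x2.cocX e1 e2 hN hS W1 (hW 0 1 (by norm_num)) (hK 0 1 (by norm_num))
    have d2 : SumX N m (n + 1) P G (W 1) (K 1) (fun F => β (dd n F) - βm F) :=
      b2.mono le_rfl sP sG (lW 0 1 (by norm_num)) (lK 0 1 (by norm_num))
    have d3 : SumX N m (n + 1) P G (W 1) (K 1) (fun F => βm F - ξm (dd n F)) :=
      (d1.sub d2).congr fun _ _ _ _ _ F _ => by ring
    have d4 : Fnl (n + 1) (US N Q G (W 1) (K 1)) (fun F => βm F - ξm (dd n F)) :=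
      (b1.mono' (US_mono sQ sG (lW 0 1 (by norm_num)) (lK 0 1 (by norm_num)))).subF
        (x1.dd e1 hN hT W1.le (hW 0 1 (by norm_num)) (hK 0 1 (by norm_num)))
    have d5 : SumX N m (n + 1) Q G (W 2) (K 2) (fun F => βm F - ξm (dd n F)) := D2' _ d4 d3
    -- X6
    have f1 : ExX N m (n + 1) Q G (W 2) (K 2) βm :=
      ⟨ξm, x1.mono' (US_mono le_rfl le_rfl (lW 0 2 (by norm_num)) (lK 0 2 (by norm_num))), d5⟩
    have f2 : ExX N m (n + 1) Q' G' (W 3) (K 3) βm :=
      L6' βm (b1.mono' (US_mono le_rfl le_rfl (lW 0 2 (by norm_num)) (lK 0 2 (by norm_num)))) c5 f1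
    obtain ⟨ηm, g1, g2⟩ := f2
    have h1 : Fnl n (US N P' G' (W 3) (K 3)) (fun F => β F - ηm F) :=
      (hβ.mono' (US_mono le_rfl le_rfl (lW 0 3 (by norm_num)) (lK 0 3 (by norm_num)))).subF
        (g1.mono' (US_mono sPQ' le_rfl le_rfl le_rfl))
    have h2 : CocX N m n P' G' (W 3) (K 3) (fun F => β F - ηm F) :=
      ((b2.mono le_rfl le_rfl le_rfl (lW 0 3 (by norm_num)) (lK 0 3 (by norm_num))).add
        (g2.mono le_rfl sPQ' le_rfl le_rfl le_rfl)).congr fun _ _ _ _ _ F _ => by ring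
    have h3 : Fnl n (US N Q G (W 3) (K 3)) (fun F => ξm F - ηm F) :=
      (x1.mono' (US_mono le_rfl le_rfl (lW 0 3 (by norm_num)) (lK 0 3 (by norm_num)))).subF
        (g1.mono' (US_mono sQ sG le_rfl le_rfl))
    have h4 : ExX N m n P G (W 3) (K 3) (fun F => (β F - ηm F) - (ξm F - ηm F)) :=
      (x2.mono le_rfl le_rfl le_rfl (lW 0 3 (by norm_num)) (lK 0 3 (by norm_num))).congr
        fun _ _ _ _ _ F _ => by ring
    have h5 : SumX N m (n + 1) P G (W 4) (K 4)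
        (fun F => (β (dd n F) - ηm (dd n F)) - (ξm (dd n F) - ηm (dd n F))) :=
      h4.cocX e1 e2 hN hS W4 (hW 3 4 (by norm_num)) (hK 3 4 (by norm_num))
    have h6 : SumX N m (n + 1) P G (W 4) (K 4) (fun F => β (dd n F) - ηm (dd n F)) :=
      SumX.mono h2 le_rfl sP sG (lW 3 4 (by norm_num)) (lK 3 4 (by norm_num))
    have h7 : SumX N m (n + 1) P G (W 4) (K 4) (fun F => ξm (dd n F) - ηm (dd n F)) :=
      (h6.sub h5).congr fun _ _ _ _ _ F _ => by ring
    have h8 : Fnl (n + 1) (US N Q G (W 4) (K 4)) (fun F => ξm (dd n F) - ηm (dd n F)) :=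
      h3.dd e1 hN hT W4.le (hW 3 4 (by norm_num)) (hK 3 4 (by norm_num))
    have h9 : CocX N m n Q G (W 5) (K 5) (fun F => ξm F - ηm F) := D4' _ h8 h7
    obtain ⟨ξ'', k1, k2, k3⟩ := L5' (fun F => ξm F - ηm F)
      (h3.mono' (US_mono le_rfl le_rfl (lW 3 5 (by norm_num)) (lK 3 5 (by norm_num)))) h9
    have l1 : Fnl n (US N P' G' (W 6) (K 6)) (fun F => (β F - ηm F) - ξ'' F) :=
      (h1.mono' (US_mono le_rfl le_rfl (lW 3 6 (by norm_num)) (lK 3 6 (by norm_num)))).subF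
        (k1.mono' (US_mono sPQ' le_rfl le_rfl le_rfl))
    have l2 : CocX N m n P' G' (W 6) (K 6) (fun F => (β F - ηm F) - ξ'' F) :=
      (h2.mono le_rfl le_rfl le_rfl (lW 3 6 (by norm_num)) (lK 3 6 (by norm_num))).sub
        (k2.mono le_rfl sPQ' le_rfl le_rfl le_rfl)
    have l3 : ExX N m n P G (W 6) (K 6) (fun F => (β F - ηm F) - ξ'' F) :=
      ((h4.mono le_rfl le_rfl le_rfl (lW 3 6 (by norm_num)) (lK 3 6 (by norm_num))).add
        (k3.mono le_rfl sPQ le_rfl le_rfl le_rfl)).congr fun _ _ _ _ _ F _ => by ring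
    have l4 : ExX N m n P' G' (W 7) (K 7) (fun F => (β F - ηm F) - ξ'' F) := LI' _ l1 l2 l3
    have l5 : Fnl n (US N (P' ∪ pcl N {(m : ℤ)}) G' (W 7) (K 7)) (fun F => ηm F + ξ'' F) := by
      rw [hP', x7_PI, ← hQ']
      exact (g1.mono' (US_mono le_rfl le_rfl (lW 3 7 (by norm_num)) (lK 3 7 (by norm_num)))).addF
        (k1.mono' (US_mono le_rfl le_rfl (lW 6 7 (by norm_num)) (lK 6 7 (by norm_num))))
    have l6 : ExX N (m + 1) n P' G' (W 7) (K 7) (fun F => ηm F + ξ'' F) :=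
      ExX.of_SumX (SumX.of (Nat.lt_succ_self m) l5)
    exact ((l4.mono (Nat.le_succ m) le_rfl le_rfl le_rfl le_rfl).add l6).congr fun _ _ _ _ _ F _ => by ring

theorem x7_surj (e1 : ST_E1) (e2 : ST_E2) (w9 : ST_W9) (x5 : ST_X5) {m : ℕ} (hs : QIs m) (hi : QIi m) :
    QIs (m + 1) := by
  intro N n b e' e hN hb hm he' he
  have hm' : ((m + 1 : ℕ) : ℤ) = (m : ℤ) + 1 := by push_cast; ring
  have hme' : (m : ℤ) < e' := by linarith
  have hme : (m : ℤ) < e := by linarith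
  set P := PI N b e ∅ with hP
  set G := GI N b e with hG
  set Q := PI N b e {(m : ℤ)} with hQ
  set P' := PI N b e' ∅ with hP'
  set G' := GI N b e' with hG'
  set Q' := PI N b e' {(m : ℤ)} with hQ'
  have sP : P ⊆ P' := PI_anti he' le_rfl
  have sG : G ⊆ G' := GI_anti he'
  have sQ : Q ⊆ Q' := PI_anti he' le_rfl
  have sPQ : P ⊆ Q := PI_anti le_rfl (Set.empty_subset _)
  have sPQ' : P' ⊆ Q' := PI_anti le_rfl (Set.empty_subset _)
  have hS : Shape N P G := Shape_PI N b e ∅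
  have hS' : Shape N P' G' := Shape_PI N b e' ∅
  have hT : Shape N Q G := Shape_PI N b e {(m : ℤ)}
  have D1 := x7_D w9 (N := N) (m := m) (q := n + 2) (b := b) (e := e) hN hb (hm.trans he') he
  have L5 := x5 N m (n + 1) b m e' e hN hb le_rfl hme' he' he
  have LI := hi N (n + 1) b e' e hN hb hme'.le he' he
  have LS := hs N n b e' e hN hb hme'.le he' he
  refine Loss.seq 5 (by norm_num) (fun i w' h' w h =>
    (i = 1 → ∀ α, Fnl (n + 2) (US N Q G w h) α → SumX N m (n + 2) P G w h α → SumX N m (n + 2) Q G w' h' α) ∧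
    (i = 2 → ∀ α, Fnl (n + 1) (US N Q G w h) α → CocX N m (n + 1) Q G w h α →
      ∃ β, Fnl (n + 1) (US N Q' G' w' h') β ∧ CocX N m (n + 1) Q' G' w' h' β ∧
        ExX N m (n + 1) Q G w' h' (fun F => α F - β F)) ∧
    (i = 3 → ∀ β, Fnl (n + 1) (US N P' G' w h) β → CocX N m (n + 1) P' G' w h β → ExX N m (n + 1) P G w h β →
      ExX N m (n + 1) P' G' w' h' β) ∧
    (i = 4 → ∀ α, Fnl n (US N P G w h) α → CocX N m n P G w h α →
      ∃ β, Fnl n (US N P' G' w' h') β ∧ CocX N m n P' G' w' h' β ∧ ExX N m n P G w' h' (fun F => α F - β F))) ?_ ?_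
  · intro i _
    by_cases h1 : i = 1
    · exact D1.imp fun w' h' w h _ _ _ _ _ k => ⟨fun _ => k, by omega, by omega, by omega⟩
    by_cases h2 : i = 2
    · exact L5.imp fun w' h' w h _ _ _ _ _ k => ⟨by omega, fun _ => k, by omega, by omega⟩
    by_cases h3 : i = 3
    · exact LI.imp fun w' h' w h _ _ _ _ _ k => ⟨by omega, by omega, fun _ => k, by omega⟩
    by_cases h4 : i = 4
    · exact LS.imp fun w' h' w h _ _ _ _ _ k => ⟨by omega, by omega, by omega, fun _ => k⟩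
    exact Loss.of fun w' h' w h _ _ _ _ _ => ⟨by omega, by omega, by omega, by omega⟩
  · intro W K hWp hW hK _ _ hΦ α hα hc
    have D1' := (hΦ 1 (by norm_num)).1 rfl
    have L5' := (hΦ 2 (by norm_num)).2.1 rfl
    have LI' := (hΦ 3 (by norm_num)).2.2.1 rfl
    have LS' := (hΦ 4 (by norm_num)).2.2.2 rfl
    have W1 := hWp 1 (by norm_num)
    have lW : ∀ i j, i < j → W j ≤ W i := fun i j hij => (hW i j hij).le
    have lK : ∀ i j, i < j → K i ≤ K j := fun i j hij => (hK i j hij).le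
    obtain ⟨αm, a1, a2⟩ := SumX.split hc
    rw [hP, x7_PI, ← hQ] at a1
    have c1 : CocX N m (n + 1) P G (W 1) (K 1) (fun F => α (dd n F) - αm F) :=
      CocX.of_SumX e1 hN hS W1 (hW 0 1 (by norm_num)) (hK 0 1 (by norm_num)) a2
    have c2 : CocX N m (n + 1) P G (W 0) (K 0) (fun F => α (dd n F)) := CocX.dd e1 e2 hN hS hα
    have c3 : CocX N m (n + 1) P G (W 1) (K 1) αm :=
      ((c2.mono le_rfl le_rfl le_rfl (lW 0 1 (by norm_num)) (lK 0 1 (by norm_num))).sub c1).congr e1 hN hS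
        fun _ _ _ _ _ F _ => by ring
    have c4 : Fnl (n + 2) (US N Q G (W 1) (K 1)) (fun F => αm (dd (n + 1) F)) :=
      a1.dd e1 hN hT W1.le (hW 0 1 (by norm_num)) (hK 0 1 (by norm_num))
    have c5 : CocX N m (n + 1) Q G (W 2) (K 2) αm := D1' _ c4 c3
    obtain ⟨βm, b1, b2, γm, g1, g2⟩ := L5' αm
      (a1.mono' (US_mono le_rfl le_rfl (lW 0 2 (by norm_num)) (lK 0 2 (by norm_num)))) c5
    -- `βm` is exact on `P`
    have d1 : Fnl n (US N P G (W 3) (K 3)) (fun F => α F - γm F) :=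
      (hα.mono' (US_mono le_rfl le_rfl (lW 0 3 (by norm_num)) (lK 0 3 (by norm_num)))).subF
        (g1.mono' (US_mono sPQ le_rfl le_rfl le_rfl))
    have d2 : SumX N m (n + 1) P G (W 3) (K 3) (fun F => α (dd n F) - αm F) :=
      a2.mono le_rfl le_rfl le_rfl (lW 0 3 (by norm_num)) (lK 0 3 (by norm_num))
    have d3 : SumX N m (n + 1) P G (W 3) (K 3) (fun F => (αm F - βm F) - γm (dd n F)) :=
      g2.mono le_rfl sPQ le_rfl le_rfl le_rfl
    have d4 : SumX N m (n + 1) P G (W 3) (K 3) (fun F => βm F - (α (dd n F) - γm (dd n F))) :=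
      ((d2.add d3).smul (-1)).congr fun _ _ _ _ _ F _ => by ring
    have d5 : ExX N m (n + 1) P G (W 3) (K 3) βm := ⟨fun F => α F - γm F, d1, d4⟩
    obtain ⟨β', f1, f2⟩ := LI' βm (b1.mono' (US_mono sPQ' le_rfl le_rfl le_rfl))
      (b2.mono le_rfl sPQ' le_rfl le_rfl le_rfl) d5
    -- correct `α`
    have h1 : Fnl n (US N P G (W 4) (K 4)) (fun F => (α F - γm F) - β' F) :=
      (d1.mono' (US_mono le_rfl le_rfl (lW 3 4 (by norm_num)) (lK 3 4 (by norm_num)))).subF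
        (f1.mono' (US_mono sP sG le_rfl le_rfl))
    have h2 : CocX N m n P G (W 4) (K 4) (fun F => (α F - γm F) - β' F) :=
      (((d2.add d3).mono le_rfl le_rfl le_rfl (lW 3 4 (by norm_num)) (lK 3 4 (by norm_num))).add
        (f2.mono le_rfl sP sG le_rfl le_rfl)).congr fun _ _ _ _ _ F _ => by ring
    obtain ⟨β'', k1, k2, k3⟩ := LS' _ h1 h2
    refine ⟨fun F => β' F + β'' F,
      (f1.mono' (US_mono le_rfl le_rfl (lW 4 5 (by norm_num)) (lK 4 5 (by norm_num)))).addF k1, ?_, ?_⟩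
    · have b1' : Fnl (n + 1) (US N (P' ∪ pcl N {(m : ℤ)}) G' (W 5) (K 5)) βm := by
        rw [hP', x7_PI, ← hQ']
        exact b1.mono' (US_mono le_rfl le_rfl (lW 3 5 (by norm_num)) (lK 3 5 (by norm_num)))
      have l1 : SumX N (m + 1) (n + 1) P' G' (W 5) (K 5) βm := SumX.of (Nat.lt_succ_self m) b1'
      have l2 : SumX N (m + 1) (n + 1) P' G' (W 5) (K 5) (fun F => βm F - β' (dd n F)) :=
        f2.mono (Nat.le_succ m) le_rfl le_rfl (lW 4 5 (by norm_num)) (lK 4 5 (by norm_num))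
      have l3 : SumX N (m + 1) (n + 1) P' G' (W 5) (K 5) (fun F => β'' (dd n F)) :=
        SumX.mono k2 (Nat.le_succ m) le_rfl le_rfl le_rfl le_rfl
      exact ((l1.sub l2).add l3).congr fun _ _ _ _ _ F _ => by ring
    · have g1' : Fnl n (US N (P ∪ pcl N {(m : ℤ)}) G (W 5) (K 5)) γm := by
        rw [hP, x7_PI, ← hQ]
        exact g1.mono' (US_mono le_rfl le_rfl (lW 3 5 (by norm_num)) (lK 3 5 (by norm_num)))
      have l1 : ExX N (m + 1) n P G (W 5) (K 5) γm := ExX.of_SumX (SumX.of (Nat.lt_succ_self m) g1')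
      exact ((k3.mono (Nat.le_succ m) le_rfl le_rfl le_rfl le_rfl).add l1).congr fun _ _ _ _ _ F _ => by ring

theorem st_X7 (e1 : ST_E1) (e2 : ST_E2) (w9 : ST_W9) (x5 : ST_X5) (x6 : ST_X6) (x8 : ST_X8) : ST_X7 := by
  intro m
  induction m with
  | zero => exact ⟨x8.2.1, x8.2.2⟩
  | succ m ih => exact ⟨x7_surj e1 e2 w9 x5 ih.1 ih.2, x7_inj e1 e2 w9 x5 x6 ih.2⟩

end

end Pool.Agent.Helper67.DO
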